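import Pool.Agent.Y938.Win.C

set_option autoImplicit false

/-! The error term against a bounded weight in every window (after `Pool.Agent.Y938.Win`). -/

open MeasureTheory Filter Topology Finset
open Pool.Agent.H383.AP Pool.Agent.H383.Gen Pool.Agent.H383.GW
open Pool.Agent.W24.Riesz Pool.Agent.W24.Liou Pool.Agent.W24.Ar Pool.Agent.W24.Both
open Pool.Agent.Y938.Win

namespace Pool.Agent.H648_sw

section gen

variable {a : ℕ → ℝ} {φ : ℝ} {w : ℝ → ℂ} {E : ℝ → ℝ}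

section J
variable {J : Type*} [Fintype J] [DecidableEq J]

/-- the Riesz product is bounded -/
lemma KR_le (d : J → ℕ) (β : J → ℝ) (r : ℝ) : KR d β r ≤ 2 ^ (Fintype.card J) := by
  unfold KR
  calc ∏ j, (1 + Real.cos (2 * Real.pi * (r * √(d j : ℝ)) + β j)) ≤ ∏ _j : J, (2 : ℝ) := by
        apply Finset.prod_le_prod
        · intro j _
          have := Real.neg_one_le_cos (2 * Real.pi * (r * √(d j : ℝ)) + β j)
          linarith
        · intro j _
          have := Real.cos_le_one (2 * Real.pi * (r * √(d j : ℝ)) + β j)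
          linarith
    _ = _ := by rw [Finset.prod_const, Finset.card_univ]

/-- the truncated smoothed sum against the Riesz product -/
theorem int_large (ha : Bd a) (hw : Wt w) {Cl : ℝ} (hCl : 0 < Cl)
    (hl : ∀ y : ℝ, 0 < y → ‖w y - 1‖ ≤ Cl * y) {d : J → ℕ} {M : ℕ} {G : ℝ}
    (hA : RA d M G) {s : ℝ} (hs : s = 1 ∨ s = -1) (κ : ℝ) {δ : ℝ} (hδ : 0 < δ) {R H : ℝ} (hH : 0 < H)
    (hc1 : 2 ^ (Fintype.card J) * (G / (Real.pi * H)) ≤ 1/2)
    (hc2 : 2 ^ (Fintype.card J) * (2 * M * G / (Real.pi * H)) * ∑' m : ℕ, |a m| * (√(m:ℝ))⁻¹ ≤ 1/2)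
    (hc3 : (∑ j, |a (d j)|) * ((Cl + 2 * Real.pi * |κ|) * M * δ) ≤ 1/2)
    {Y : ℕ} (hY : M ≤ Y) :
    ∃ β : J → ℝ, ∫ r in R..(R+H), KR d β r ≤ 3/2 * H ∧
      ((∑ j, a (d j)) / 2 - 1) * H ≤
        s * ∫ r in R..(R+H), KR d β r * ∑ m ∈ Finset.Icc 1 (Y^2), Pool.Agent.H383.GW.wt a φ w (r + κ * δ) δ m := by
  have hpi := Real.pi_pos
  obtain ⟨ψ, hψ⟩ : ∃ ψ : ℝ, Complex.exp (((-ψ : ℝ) : ℂ) * Complex.I) = (s:ℂ) := by
    rcases hs with rfl | rfl
    · exact ⟨0, by simp⟩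
    · refine ⟨Real.pi, ?_⟩
      push_cast
      rw [neg_mul, Complex.exp_neg, Complex.exp_pi_mul_I]
      norm_num
  set A : ℝ := ∑ j, a (d j) with hAd
  set β : J → ℝ := fun _ => -φ + ψ with hβ
  set P : ℝ → ℂ := fun r => ∑ m ∈ Finset.Icc 1 (Y^2), bb a φ w κ δ m * ez (√(m:ℝ) * r) with hP
  have hPc : Continuous P := by
    apply continuous_finsetSum
    intro m _
    exact (continuous_ez_mul _).const_mul _
  have hKc := KR_continuous d β
  have hKPc : Continuous (fun r : ℝ => ((KR d β r : ℝ) : ℂ) * P r) := (Complex.continuous_ofReal.comp hKc).mul hPc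
  have m1 := Av_KR hA β (R := R) hH
  have m2 := Av_KR_poly hA β (R := R) hH (bb a φ w κ δ) hY
  have m3 := main_term (a := a) (φ := φ) hCl hl hA hψ hs κ hδ
  have m4 := m1.trans hc1
  -- the error
  have hS : ∑ m ∈ Finset.Icc 1 (Y^2), ‖bb a φ w κ δ m‖ * (√(m:ℝ))⁻¹ ≤ ∑' m : ℕ, |a m| * (√(m:ℝ))⁻¹ := by
    calc _ ≤ ∑ m ∈ Finset.Icc 1 (Y^2), |a m| * (√(m:ℝ))⁻¹ := by
          apply Finset.sum_le_sum
          intro m hm
          rw [Finset.mem_Icc] at hm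
          exact mul_le_mul_of_nonneg_right (norm_bb_le hw κ hδ hm.1) (by positivity)
      _ ≤ _ := (summable_inv ha).sum_le_tsum _ (fun m _ => by positivity)
  have hG := hA.G_ge
  have m5 : ‖Av R H (fun r => ((KR d β r : ℝ) : ℂ) * P r) -
      ∑ j, bb a φ w κ δ (d j) * (1/2 * Complex.exp (((-β j : ℝ) : ℂ) * Complex.I))‖ ≤ 1/2 := by
    refine m2.trans (le_trans ?_ hc2)
    gcongr
  have m6 : |(Av R H (fun r => ((KR d β r : ℝ) : ℂ) * P r)).re - s / 2 * A| ≤ 1 := by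
    have h1 := (Complex.abs_re_le_norm _).trans m5
    rw [Complex.sub_re] at h1
    have h2 := m3.trans hc3
    have h3 := abs_add_le ((Av R H (fun r => ((KR d β r : ℝ) : ℂ) * P r)).re -
      (∑ j, bb a φ w κ δ (d j) * (1/2 * Complex.exp (((-β j : ℝ) : ℂ) * Complex.I))).re)
      ((∑ j, bb a φ w κ δ (d j) * (1/2 * Complex.exp (((-β j : ℝ) : ℂ) * Complex.I))).re - s / 2 * A)
    rw [sub_add_sub_cancel] at h3
    refine h3.trans ?_
    linarith
  rw [Av_re hKPc] at m6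
  have m7 : (∫ r in R..(R+H), KR d β r) / H ≤ 3/2 := by
    have h1 := (Complex.abs_re_le_norm _).trans m4
    have h2 := Av_re (R := R) (H := H) (g := fun r => ((KR d β r : ℝ) : ℂ)) (Complex.continuous_ofReal.comp hKc)
    simp only [Complex.ofReal_re] at h2
    rw [Complex.sub_re, Complex.one_re, h2] at h1
    rw [abs_le] at h1
    linarith [h1.2]
  have hs2 : s * s = 1 := by rcases hs with rfl | rfl <;> norm_num
  refine ⟨β, ?_, ?_⟩
  · rwa [div_le_iff₀ hH] at m7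
  · have e1 : ∀ r : ℝ, (((KR d β r : ℝ) : ℂ) * P r).re =
        KR d β r * ∑ m ∈ Finset.Icc 1 (Y^2), Pool.Agent.H383.GW.wt a φ w (r + κ * δ) δ m := by
      intro r
      rw [Complex.re_ofReal_mul, sum_wt_eq]
    simp only [e1] at m6
    have m10 : A / 2 - 1 ≤ s * ((∫ r in R..(R+H), KR d β r * ∑ m ∈ Finset.Icc 1 (Y^2),
        Pool.Agent.H383.GW.wt a φ w (r + κ * δ) δ m) / H) := by
      rw [abs_le] at m6
      rcases hs with rfl | rfl
      · linarith [m6.1]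
      · linarith [m6.2]
    rw [← mul_div_assoc, le_div_iff₀ hH] at m10
    exact m10

end J

/-- the error term against a bounded weight -/
theorem core_int (ha : Bd a) (ha0 : a 0 = 0) (hw : Wt w) {κ₁ κ₂ C0 : ℝ} (hC0 : 0 < C0)
    (hS : Sand E a φ w κ₁ κ₂ C0) : ∃ h0 : ℕ, ∀ h : ℕ, h0 ≤ h → ∀ p : Fin h → ℕ, (∀ i, (p i).Prime) →
      Function.Injective p → (∀ i, p i ≤ 2 ^ h) → ∀ R H : ℝ, 4 ≤ R → H ≤ R → (2:ℝ) ^ (10000 * 4 ^ h) ≤ H →
      ∀ s : ℝ, (s = 1 ∨ s = -1) → IntervalIntegrable E volume R (R + H) →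
      ∃ K : ℝ → ℝ, Continuous K ∧ (∀ r, 0 ≤ K r) ∧ (∀ r, K r ≤ 2 ^ (2 ^ h)) ∧ ∫ r in R..(R+H), K r ≤ 3/2 * H ∧
        ((∑ S : JJ (Fin h), a (dd p S)) / 2 - 5/2 - 6 * C0) * H ≤ ∫ r in R..(R+H), K r * (s * E r) := by
  obtain ⟨C', hC', htail⟩ := WS_tail (a := a) (φ := φ) (w := w) ha ha0 hw
  have ha' := ha
  obtain ⟨Ca, hCa, haC⟩ := ha
  obtain ⟨Cl, hCl, hl⟩ := hw.lip
  set Sg1 : ℝ := ∑' m : ℕ, |a m| * (√(m:ℝ))⁻¹ with hSg1
  obtain ⟨t1, ht1⟩ := exists_nat_ge Sg1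
  obtain ⟨t2, ht2⟩ := exists_nat_ge (Ca * (Cl + 2 * Real.pi * (|κ₁| + |κ₂|)))
  refine ⟨max (max t1 t2) 4, ?_⟩
  intro h hh p hp hinj hple R H hR hHR hH s hs hEi
  have hpi := Real.pi_pos
  have hpi3 := Real.pi_gt_three
  have hh1 : t1 ≤ h := by omega
  have hh2 : t2 ≤ h := by omega
  have hh4 : 4 ≤ h := by omega
  have hhT : h < 2 ^ h := Nat.lt_two_pow_self
  have hdM0 := dd_le hple
  have hsdd0 := sqrt_dd_le hple
  have hcard0 := card_JJ_le h
  obtain ⟨T, hT⟩ : ∃ T : ℕ, T = 2 ^ h := ⟨_, rfl⟩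
  rw [← hT] at hhT hdM0 hcard0 hsdd0
  have hT16 : 16 ≤ T := by
    calc 16 = 2^4 := by norm_num
      _ ≤ 2^h := Nat.pow_le_pow_right (by norm_num) hh4
      _ = T := hT.symm
  have hT4 : 4 ^ h = T * T := by
    rw [hT, ← mul_pow]; norm_num
  obtain ⟨M, hM⟩ : ∃ M : ℕ, M = 2 ^ (1000 * T) := ⟨_, rfl⟩
  rw [← hM] at hdM0
  have hM1 : 1 ≤ M := by rw [hM]; exact Nat.one_le_two_pow
  rw [hT4] at hH
  have hMR : (M:ℝ) = 2 ^ (1000 * T) := by rw [hM]; push_cast; rfl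
  have hM1R : (1:ℝ) ≤ M := by exact_mod_cast hM1
  have hM0R : (0:ℝ) < M := by linarith
  have hTT : T ≤ T * T := Nat.le_mul_of_pos_left T (by omega)
  have hT2 : (T:ℝ) ≤ 2 ^ T := by exact_mod_cast (Nat.lt_two_pow_self (n := T)).le
  have hH0 : 0 < H := lt_of_lt_of_le (by positivity) hH
  have hR0 : 0 < R := by linarith
  -- the sum of the square roots
  have hsum : ∑ S : JJ (Fin h), √(dd p S : ℝ) ≤ T * 2 ^ (500 * T) := by
    calc ∑ S : JJ (Fin h), √(dd p S : ℝ) ≤ ∑ S : JJ (Fin h), (2:ℝ) ^ (500 * T) := Finset.sum_le_sum (fun S _ => hsdd0 S)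
      _ = (Fintype.card (JJ (Fin h)) : ℝ) * 2 ^ (500 * T) := by rw [Finset.sum_const, Finset.card_univ, nsmul_eq_mul]
      _ ≤ _ := by gcongr
  have hfar : ∑ S : JJ (Fin h), √(dd p S : ℝ) ≤ M / 2 := by
    rw [le_div_iff₀ (by norm_num)]
    calc (∑ S : JJ (Fin h), √(dd p S : ℝ)) * 2 ≤ (T * 2 ^ (500 * T)) * 2 := by gcongr
      _ ≤ (2 ^ T * 2 ^ (500 * T)) * 2 ^ 1 := by rw [pow_one]; gcongr
      _ = 2 ^ (T + 500 * T + 1) := by rw [← pow_add, ← pow_add]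
      _ ≤ 2 ^ (1000 * T) := pow_le_pow_right₀ (by norm_num) (by omega)
      _ = M := hMR.symm
  have hM4 : (4:ℝ) ≤ M := by
    rw [hMR]
    calc (4:ℝ) = 2^2 := by norm_num
      _ ≤ 2 ^ (1000 * T) := pow_le_pow_right₀ (by norm_num) (by omega)
  have hB1 : (1:ℝ) ≤ (M:ℝ)^2 := one_le_pow₀ hM1R
  have hB : 2 * (∑ S : JJ (Fin h), √(dd p S : ℝ) + M) + 1 ≤ (M:ℝ)^2 := by nlinarith
  have hA := RA_of hp hinj hM1 hdM0 hB1 hB hfar
  obtain ⟨G, hG⟩ : ∃ G : ℝ, G = ((M:ℝ)^2) ^ (2 ^ (h + 2)) := ⟨_, rfl⟩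
  rw [← hG] at hA
  have hGT : G = 2 ^ (8000 * (T * T)) := by
    rw [hG, hMR, ← pow_mul, ← pow_mul, pow_add, ← hT]
    congr 1
    ring
  have hG1 := hA.G_ge
  -- δ
  obtain ⟨δ, hδ⟩ : ∃ δ : ℝ, δ = R ^ (-(52/100):ℝ) := ⟨_, rfl⟩
  have hδ0 : 0 < δ := by rw [hδ]; positivity
  have hδ1 : δ ≤ 1/2 := by rw [hδ]; exact delta_le_half hR
  have hδT : δ ≤ 1 / 2 ^ (5000 * (T * T)) := by
    have h1 : (2:ℝ) ^ (10000 * (T * T)) ≤ R := hH.trans hHR
    have h2 : δ ≤ (2:ℝ) ^ (-(5200 * ((T:ℝ) * T))) := by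
      rw [hδ]
      calc R ^ (-(52/100):ℝ) ≤ ((2:ℝ) ^ (10000 * (T * T))) ^ (-(52/100):ℝ) :=
            Real.rpow_le_rpow_of_nonpos (by positivity) h1 (by norm_num)
        _ = _ := by
            rw [← Real.rpow_natCast, ← Real.rpow_mul (by norm_num)]
            congr 1
            push_cast; ring
    refine h2.trans ?_
    rw [one_div, ← Real.rpow_natCast, ← Real.rpow_neg (by norm_num)]
    apply Real.rpow_le_rpow_of_exponent_le (by norm_num)
    push_cast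
    have : (0:ℝ) ≤ (T:ℝ) * T := by positivity
    linarith
  have h2T : (2:ℝ) ^ (Fintype.card (JJ (Fin h))) ≤ 2 ^ T := pow_le_pow_right₀ (by norm_num) hcard0
  have hH' : (2:ℝ) ^ (10000 * (T * T)) ≤ Real.pi * H := by nlinarith
  have hpiH : 0 < Real.pi * H := by positivity
  have hc1 : 2 ^ (Fintype.card (JJ (Fin h))) * (G / (Real.pi * H)) ≤ 1/2 := by
    rw [mul_div_assoc', div_le_iff₀ hpiH, hGT]
    calc 2 ^ (Fintype.card (JJ (Fin h))) * (2:ℝ) ^ (8000 * (T * T)) ≤ 2 ^ T * 2 ^ (8000 * (T * T)) := by gcongr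
      _ = 1/2 * 2 ^ (T + 8000 * (T * T) + 1) := by rw [pow_succ, pow_add]; ring
      _ ≤ 1/2 * 2 ^ (10000 * (T * T)) := by
          gcongr
          · norm_num
          · omega
      _ ≤ _ := by gcongr
  have hSg0 : 0 ≤ Sg1 := tsum_nonneg (fun m => by positivity)
  have hSgT : Sg1 ≤ 2 ^ T := by
    have : (t1:ℝ) ≤ T := by exact_mod_cast (by omega : t1 ≤ T)
    linarith
  have hc2 : 2 ^ (Fintype.card (JJ (Fin h))) * (2 * M * G / (Real.pi * H)) * Sg1 ≤ 1/2 := by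
    calc 2 ^ (Fintype.card (JJ (Fin h))) * (2 * M * G / (Real.pi * H)) * Sg1
        ≤ 2 ^ T * (2 * M * G / (Real.pi * H)) * 2 ^ T := by gcongr
      _ = (2 ^ T * (2 * M * G) * 2 ^ T) / (Real.pi * H) := by ring
      _ ≤ 1/2 := by
          rw [div_le_iff₀ hpiH, hGT, hMR]
          calc (2:ℝ) ^ T * (2 * 2 ^ (1000 * T) * 2 ^ (8000 * (T * T))) * 2 ^ T =
                1/2 * 2 ^ (T + 1000 * T + 8000 * (T * T) + T + 2) := by
                rw [pow_add, pow_add, pow_add, pow_add]; ring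
            _ ≤ 1/2 * 2 ^ (10000 * (T * T)) := by
                gcongr
                · norm_num
                · nlinarith
            _ ≤ _ := by gcongr
  have haT : ∑ S : JJ (Fin h), |a (dd p S)| ≤ T * Ca := by
    calc ∑ S : JJ (Fin h), |a (dd p S)| ≤ ∑ S : JJ (Fin h), Ca := by
          apply Finset.sum_le_sum
          intro S _
          have h1 := dd_pos hp S
          refine (haC _ h1).trans ?_
          have h2 : (1:ℝ) ≤ √(dd p S : ℝ) := by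
            rw [Real.one_le_sqrt]; exact_mod_cast h1
          have h3 := Real.rpow_le_one_of_one_le_of_nonpos h2 (show (-(37/25):ℝ) ≤ 0 by norm_num)
          nlinarith
      _ = (Fintype.card (JJ (Fin h)) : ℝ) * Ca := by rw [Finset.sum_const, Finset.card_univ, nsmul_eq_mul]
      _ ≤ _ := by gcongr
  have hc3 : ∀ κ : ℝ, |κ| ≤ |κ₁| + |κ₂| → (∑ S : JJ (Fin h), |a (dd p S)|) * ((Cl + 2 * Real.pi * |κ|) * M * δ) ≤ 1/2 := by
    intro κ hκ
    have h1 : Ca * (Cl + 2 * Real.pi * |κ|) ≤ 2 ^ T := by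
      have h2 : Ca * (Cl + 2 * Real.pi * |κ|) ≤ Ca * (Cl + 2 * Real.pi * (|κ₁| + |κ₂|)) := by gcongr
      have : (t2:ℝ) ≤ T := by exact_mod_cast (by omega : t2 ≤ T)
      linarith
    calc _ ≤ (T * Ca) * ((Cl + 2 * Real.pi * |κ|) * M * δ) := by gcongr
      _ = (T * (Ca * (Cl + 2 * Real.pi * |κ|)) * M) * δ := by ring
      _ ≤ (2 ^ T * 2 ^ T * 2 ^ (1000 * T)) * (1 / 2 ^ (5000 * (T * T))) := by
          rw [← hMR]; gcongr
      _ = 2 ^ (T + T + 1000 * T + 1) / 2 / 2 ^ (5000 * (T * T)) := by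
          rw [pow_add, pow_add, pow_add]; ring
      _ ≤ 2 ^ (5000 * (T * T)) / 2 / 2 ^ (5000 * (T * T)) := by
          gcongr
          · norm_num
          · nlinarith
      _ = 1/2 := by field_simp
  -- the truncation
  obtain ⟨Y, hY1, hY2, hY3⟩ : ∃ Y : ℕ, M ≤ Y ∧ 1 ≤ Y ∧ C' * δ ^ (-(3/2):ℝ) * (Y:ℝ) ^ (-(24/25):ℝ) ≤ 1 := by
    have h1 : Tendsto (fun Y : ℕ => C' * δ ^ (-(3/2):ℝ) * (Y:ℝ) ^ (-(24/25):ℝ)) atTop (𝓝 0) := by
      have h2 : Tendsto (fun Y : ℕ => (Y:ℝ) ^ (-(24/25):ℝ)) atTop (𝓝 0) :=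
        (tendsto_rpow_neg_atTop (by norm_num : (0:ℝ) < 24/25)).comp tendsto_natCast_atTop_atTop
      have h3 := h2.const_mul (C' * δ ^ (-(3/2):ℝ))
      rwa [mul_zero] at h3
    obtain ⟨Y, hY⟩ := ((h1.eventually (gt_mem_nhds one_pos)).and (eventually_ge_atTop M)).exists
    exact ⟨Y, hY.2, hM1.trans hY.2, hY.1.le⟩
  have her : ∀ r ∈ Set.Icc R (R + H), C0 * er r δ ≤ 4 * C0 := by
    intro r hr
    have h1 := er_le hR hr.1 (by linarith [hr.2])
    rw [← hδ] at h1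
    nlinarith
  -- the pointwise lower bound
  obtain ⟨κ, hκ, hlow⟩ : ∃ κ : ℝ, |κ| ≤ |κ₁| + |κ₂| ∧ ∀ r ∈ Set.Icc R (R + H),
      s * Pool.Agent.H383.GW.WS a φ w (r + κ * δ) δ - 4 * C0 ≤ s * E r := by
    rcases hs with rfl | rfl
    · refine ⟨κ₂, by linarith [abs_nonneg κ₁], fun r hr => ?_⟩
      have h1 := hS.lo r r δ (by linarith [hr.1]) hδ0 hδ1 (by rw [sub_self, abs_zero]; exact hδ0.le)
      have h2 := her r hr
      linarith
    · refine ⟨κ₁, by linarith [abs_nonneg κ₂], fun r hr => ?_⟩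
      have h1 := hS.up r r δ (by linarith [hr.1]) hδ0 hδ1 (by rw [sub_self, abs_zero]; exact hδ0.le)
      have h2 := her r hr
      linarith
  obtain ⟨β, hβ1, hβ2⟩ := int_large (φ := φ) ha' hw hCl hl hA hs κ hδ0 (R := R) hH0 hc1 hc2 (hc3 κ hκ) hY1
  obtain ⟨K, hK⟩ : ∃ K : ℝ → ℝ, K = KR (dd p) β := ⟨_, rfl⟩
  have hKc : Continuous K := by rw [hK]; exact KR_continuous _ _
  have hK0 : ∀ r, 0 ≤ K r := fun r => by rw [hK]; exact KR_nonneg _ _ _
  refine ⟨K, hKc, hK0, ?_, ?_, ?_⟩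
  · intro r
    rw [hK, ← hT]
    exact (KR_le _ _ _).trans h2T
  · rw [hK]; exact hβ1
  · obtain ⟨W, hW⟩ : ∃ W : ℝ → ℝ, W = fun r => ∑ m ∈ Finset.Icc 1 (Y^2), Pool.Agent.H383.GW.wt a φ w (r + κ * δ) δ m := ⟨_, rfl⟩
    have hWc : Continuous W := by
      have e1 : W = fun r => (∑ m ∈ Finset.Icc 1 (Y^2), bb a φ w κ δ m * ez (√(m:ℝ) * r)).re := by
        rw [hW]
        funext r
        exact sum_wt_eq r κ δ Y
      rw [e1]
      apply Complex.continuous_re.comp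
      apply continuous_finsetSum
      intro m _
      exact (continuous_ez_mul _).const_mul _
    have e1 : ∀ r ∈ Set.Icc R (R + H), K r * (s * W r - (1 + 4 * C0)) ≤ K r * (s * E r) := by
      intro r hr
      apply mul_le_mul_of_nonneg_left _ (hK0 r)
      have h1 := (htail δ hδ0 (r + κ * δ) Y hY2).trans hY3
      have h2 := hlow r hr
      rw [hW]
      simp only
      rw [abs_le] at h1
      rcases hs with rfl | rfl
      · linarith [h1.1]
      · linarith [h1.2]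
    have e2 : ∫ r in R..(R+H), K r * (s * W r - (1 + 4 * C0)) ≤ ∫ r in R..(R+H), K r * (s * E r) := by
      apply intervalIntegral.integral_mono_on (by linarith)
      · exact (hKc.mul ((continuous_const.mul hWc).sub continuous_const)).intervalIntegrable _ _
      · exact (hEi.const_mul s).continuousOn_mul hKc.continuousOn
      · exact e1
    have e3 : ∫ r in R..(R+H), K r * (s * W r - (1 + 4 * C0)) =
        s * (∫ r in R..(R+H), K r * W r) - (1 + 4 * C0) * ∫ r in R..(R+H), K r := by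
      rw [← intervalIntegral.integral_const_mul, ← intervalIntegral.integral_const_mul, ← intervalIntegral.integral_sub]
      · apply intervalIntegral.integral_congr
        intro r _
        simp only
        ring
      · exact (continuous_const.mul (hKc.mul hWc)).intervalIntegrable _ _
      · exact (continuous_const.mul hKc).intervalIntegrable _ _
    rw [e3] at e2
    have e4 : (1 + 4 * C0) * ∫ r in R..(R+H), K r ≤ (1 + 4 * C0) * (3/2 * H) := by
      apply mul_le_mul_of_nonneg_left _ (by linarith)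
      rw [hK]; exact hβ1
    have e5 : ((∑ S : JJ (Fin h), a (dd p S)) / 2 - 1) * H ≤ s * ∫ r in R..(R+H), K r * W r := by
      rw [hK, hW]
      exact hβ2
    have e6 : ((∑ S : JJ (Fin h), a (dd p S)) / 2 - 5/2 - 6 * C0) * H =
        ((∑ S : JJ (Fin h), a (dd p S)) / 2 - 1) * H - (1 + 4 * C0) * (3/2 * H) := by ring
    rw [e6]
    linarith

end gen

end Pool.Agent.H648_sw
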