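import Pool.Agent.H648_sw.Alm
import Pool.Agent.H648_sw.Riesz
import Pool.Agent.Y938.Win.D

set_option autoImplicit false

/-! The measure of the set of radii with a large error term, in every window. -/

namespace Pool.Agent.H648_sw

open MeasureTheory Filter Topology
open Pool.Agent.R461.GC (En_meas En_bdd)
open Pool.Agent.H383.Gauss (En)
open Pool.Agent.H383.Circ (ag)

lemma En_int {R b : ℝ} (hR : 0 < R) (hb : R ≤ b) :
    IntervalIntegrable En volume R b ∧ IntervalIntegrable (fun x => (En x) ^ 2) volume R b := by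
  obtain ⟨D, hD⟩ := En_bdd R b hR
  constructor
  · rw [intervalIntegrable_iff_integrableOn_Icc_of_le hb]
    refine Measure.integrableOn_of_bounded (M := D) ?_ En_meas.aestronglyMeasurable ?_
    · rw [Real.volume_Icc]; exact ENNReal.ofReal_ne_top
    · filter_upwards [ae_restrict_mem measurableSet_Icc] with x hx
      exact hD x hx.1 hx.2
  · rw [intervalIntegrable_iff_integrableOn_Icc_of_le hb]
    refine Measure.integrableOn_of_bounded (M := D ^ 2) ?_ (En_meas.pow_const 2).aestronglyMeasurable ?_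
    · rw [Real.volume_Icc]; exact ENNReal.ofReal_ne_top
    · filter_upwards [ae_restrict_mem measurableSet_Icc] with x hx
      rw [Real.norm_eq_abs, abs_of_nonneg (sq_nonneg _), ← sq_abs]
      exact pow_le_pow_left₀ (abs_nonneg _) (hD x hx.1 hx.2) 2

/-- the mean square in windows -/
theorem ms_En : ∃ C R₀ : ℝ, 0 < C ∧ 4 ≤ R₀ ∧ ∀ R H : ℝ, R₀ ≤ R → 0 < H → H ≤ R →
    ∫ x in R..(R + H), (En x) ^ 2 ≤ C * (H + Real.log R) := by
  obtain ⟨ν, G, h1, h2, h3, h4, h5, h6, h7, h8, h9⟩ := law_all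
  obtain ⟨L, R₀, hL, hR₀, h⟩ := h8 (fun x => x ^ 2) (by fun_prop) ⟨1, fun x => by
    rw [abs_of_nonneg (sq_nonneg x)]
    linarith⟩ 1 one_pos
  have hlog : ∀ᶠ R : ℝ in atTop, L * Real.log R ≤ R := by
    have := Real.isLittleO_log_id_atTop.bound (show 0 < 1 / L by positivity)
    filter_upwards [this, eventually_ge_atTop 1] with R hR hR1
    rw [Real.norm_eq_abs, abs_of_nonneg (Real.log_nonneg hR1), id, Real.norm_eq_abs, abs_of_nonneg (by linarith)] at hR
    have h9 := mul_le_mul_of_nonneg_left hR hL.le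
    rwa [← mul_assoc, mul_one_div, div_self hL.ne', one_mul] at h9
  obtain ⟨R₁, hR₁⟩ := Filter.eventually_atTop.1 hlog
  obtain ⟨V, hV⟩ : ∃ V : ℝ, V = ∫ x, x ^ 2 ∂(ν : Measure ℝ) := ⟨_, rfl⟩
  have hV0 : 0 ≤ V := by
    rw [hV]
    exact integral_nonneg fun x => sq_nonneg x
  refine ⟨(V + 1) * (L + 1), max (max R₀ R₁) 4, by positivity, le_max_right _ _, fun R H hR hH0 hHR => ?_⟩
  have hR2 : R₀ ≤ R := ((le_max_left _ _).trans (le_max_left _ _)).trans hR
  have hR3 : R₁ ≤ R := ((le_max_right _ _).trans (le_max_left _ _)).trans hR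
  have hRpos : 0 < R := by linarith
  have hlp : 0 < Real.log R := Real.log_pos (by linarith)
  obtain ⟨H', hH'⟩ : ∃ H' : ℝ, H' = max H (L * Real.log R) := ⟨_, rfl⟩
  have hH'1 : H ≤ H' := by rw [hH']; exact le_max_left _ _
  have hH'2 : L * Real.log R ≤ H' := by rw [hH']; exact le_max_right _ _
  have hH'3 : H' ≤ R := by rw [hH']; exact max_le hHR (hR₁ R hR3)
  have hH'4 : H' ≤ H + L * Real.log R := by
    rw [hH']
    have := mul_pos hL hlp
    exact max_le (by linarith) (by linarith)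
  have hH'0 : 0 < H' := lt_of_lt_of_le hH0 hH'1
  have hw := h R hR2 H' hH'2 hH'3
  rw [← hV] at hw
  unfold av at hw
  rw [wm_int R hH'0, smul_eq_mul] at hw
  have hw2 : ∫ x in R..(R + H'), (En x) ^ 2 ≤ H' * (V + 1) := by
    have e1 := (abs_le.1 hw).2
    have e2 : 1 / H' * ∫ x in R..(R + H'), (En x) ^ 2 ≤ V + 1 := by linarith
    have e3 := mul_le_mul_of_nonneg_left e2 hH'0.le
    rwa [← mul_assoc, mul_one_div, div_self hH'0.ne', one_mul] at e3
  have e3 : ∫ x in R..(R + H), (En x) ^ 2 ≤ ∫ x in R..(R + H'), (En x) ^ 2 :=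
    intervalIntegral.integral_mono_interval le_rfl (by linarith) (by linarith)
      (Eventually.of_forall fun x => sq_nonneg _) (En_int hRpos (by linarith)).2
  refine (e3.trans hw2).trans ?_
  have e5 : H' ≤ (L + 1) * (H + Real.log R) := by nlinarith
  calc H' * (V + 1) ≤ ((L + 1) * (H + Real.log R)) * (V + 1) := mul_le_mul_of_nonneg_right e5 (by linarith)
    _ = _ := by ring

/-- from the weighted mean and the mean square to the measure of the set of large values -/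
lemma meas_core {E : ℝ → ℝ} (hEm : Measurable E) {R H : ℝ} (hH : 0 < H)
    (hE1 : IntervalIntegrable E volume R (R + H)) (hE2 : IntervalIntegrable (fun x => (E x) ^ 2) volume R (R + H))
    {K : ℝ → ℝ} (hKc : Continuous K) (hK0 : ∀ r, 0 ≤ K r) {B : ℝ} (hB : 0 < B) (hKB : ∀ r, K r ≤ B)
    (hK1 : ∫ r in R..(R + H), K r ≤ 3 / 2 * H) {s : ℝ} (hs : s = 1 ∨ s = -1) {A V : ℝ} (hV : 0 ≤ V)
    (hA : A * H ≤ ∫ r in R..(R + H), K r * (s * E r)) (hAV : V * (3 / 2) + 2 ≤ A)
    {I : ℝ} (hI : 0 < I) (hI2 : ∫ r in R..(R + H), (E r) ^ 2 ≤ I) :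
    4 * H ^ 2 / (B ^ 2 * I) ≤ volume.real {r : ℝ | R < r ∧ r ≤ R + H ∧ V ≤ s * E r} := by
  obtain ⟨S, hS⟩ : ∃ S : Set ℝ, S = {r | V ≤ s * E r} := ⟨_, rfl⟩
  have hSm : MeasurableSet S := by
    rw [hS]
    exact measurableSet_le measurable_const (hEm.const_mul s)
  obtain ⟨t, ht⟩ : ∃ t : ℝ, t = I / (2 * H) := ⟨_, rfl⟩
  have ht0 : 0 < t := by rw [ht]; positivity
  have hpt : ∀ r : ℝ, K r * (s * E r) ≤ V * K r + t / 2 * B ^ 2 * S.indicator 1 r + 1 / (2 * t) * (E r) ^ 2 := by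
    intro r
    have hsq : (s * E r) ^ 2 = (E r) ^ 2 := by
      rcases hs with h | h <;> rw [h] <;> ring
    have hk := hK0 r
    have hkb := hKB r
    have e0 : 0 ≤ 1 / (2 * t) * (E r) ^ 2 := by positivity
    by_cases hr : r ∈ S
    · rw [Set.indicator_of_mem hr, Pi.one_apply, mul_one]
      have e1 : K r * (s * E r) ≤ t / 2 * (K r) ^ 2 + 1 / (2 * t) * (s * E r) ^ 2 := by
        have e2 : 0 ≤ 1 / (2 * t) * (t * K r - s * E r) ^ 2 := by positivity
        have e3 : 1 / (2 * t) * (t * K r - s * E r) ^ 2 = t / 2 * (K r) ^ 2 + 1 / (2 * t) * (s * E r) ^ 2 - K r * (s * E r) := by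
          field_simp
          ring
        linarith
      rw [hsq] at e1
      have e4 : (K r) ^ 2 ≤ B ^ 2 := pow_le_pow_left₀ hk hkb 2
      have e5 : t / 2 * (K r) ^ 2 ≤ t / 2 * B ^ 2 := mul_le_mul_of_nonneg_left e4 (by positivity)
      have e6 : 0 ≤ V * K r := mul_nonneg hV hk
      linarith
    · rw [Set.indicator_of_notMem hr, mul_zero]
      rw [hS, Set.mem_ofPred_eq, not_le] at hr
      have e1 : K r * (s * E r) ≤ K r * V := mul_le_mul_of_nonneg_left hr.le hk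
      linarith
  have hSi : IntervalIntegrable (fun r => S.indicator (1 : ℝ → ℝ) r) volume R (R + H) := by
    rw [intervalIntegrable_iff_integrableOn_Ioc_of_le (by linarith)]
    refine Measure.integrableOn_of_bounded (M := 1) ?_ (measurable_one.indicator hSm).aestronglyMeasurable ?_
    · rw [Real.volume_Ioc]; exact ENNReal.ofReal_ne_top
    · refine Eventually.of_forall fun r => ?_
      by_cases hr : r ∈ S
      · rw [Set.indicator_of_mem hr]; simp
      · rw [Set.indicator_of_notMem hr]; simp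
  have hint : ∫ r in R..(R + H), K r * (s * E r) ≤
      ∫ r in R..(R + H), (V * K r + t / 2 * B ^ 2 * S.indicator 1 r + 1 / (2 * t) * (E r) ^ 2) := by
    apply intervalIntegral.integral_mono_on (by linarith)
    · exact (hE1.const_mul s).continuousOn_mul hKc.continuousOn
    · exact (((continuous_const.mul hKc).intervalIntegrable _ _).add (hSi.const_mul _)).add (hE2.const_mul _)
    · intro r _
      exact hpt r
  have hsplit : ∫ r in R..(R + H), (V * K r + t / 2 * B ^ 2 * S.indicator 1 r + 1 / (2 * t) * (E r) ^ 2) =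
      V * (∫ r in R..(R + H), K r) + t / 2 * B ^ 2 * (∫ r in R..(R + H), S.indicator (1 : ℝ → ℝ) r) +
        1 / (2 * t) * ∫ r in R..(R + H), (E r) ^ 2 := by
    rw [← intervalIntegral.integral_const_mul, ← intervalIntegral.integral_const_mul, ← intervalIntegral.integral_const_mul,
      ← intervalIntegral.integral_add, ← intervalIntegral.integral_add]
    · exact ((continuous_const.mul hKc).intervalIntegrable _ _).add (hSi.const_mul _)
    · exact hE2.const_mul _
    · exact (continuous_const.mul hKc).intervalIntegrable _ _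
    · exact hSi.const_mul _
  have hind : ∫ r in R..(R + H), S.indicator (1 : ℝ → ℝ) r = volume.real {r : ℝ | R < r ∧ r ≤ R + H ∧ V ≤ s * E r} := by
    rw [intervalIntegral.integral_of_le (by linarith), integral_indicator_one hSm, Measure.real, Measure.restrict_apply hSm,
      Measure.real]
    congr 2
    ext r
    rw [hS]
    simp only [Set.mem_inter_iff, Set.mem_ofPred_eq, Set.mem_Ioc]
    tauto
  rw [hsplit, hind] at hint
  obtain ⟨m, hm⟩ : ∃ m : ℝ, m = volume.real {r : ℝ | R < r ∧ r ≤ R + H ∧ V ≤ s * E r} := ⟨_, rfl⟩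
  rw [← hm] at hint ⊢
  have f1 : V * (∫ r in R..(R + H), K r) ≤ V * (3 / 2 * H) := mul_le_mul_of_nonneg_left hK1 hV
  have f2 : 1 / (2 * t) * ∫ r in R..(R + H), (E r) ^ 2 ≤ H := by
    calc 1 / (2 * t) * ∫ r in R..(R + H), (E r) ^ 2 ≤ 1 / (2 * t) * I := mul_le_mul_of_nonneg_left hI2 (by positivity)
      _ = H := by rw [ht]; field_simp
  have f3 : (V * (3 / 2) + 2) * H ≤ A * H := mul_le_mul_of_nonneg_right hAV hH.le
  have f4 : H ≤ t / 2 * B ^ 2 * m := by linarith
  rw [ht] at f4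
  rw [div_le_iff₀ (by positivity)]
  have f5 : H * (4 * H) ≤ (I / (2 * H) / 2 * B ^ 2 * m) * (4 * H) := mul_le_mul_of_nonneg_right f4 (by linarith)
  have f6 : (I / (2 * H) / 2 * B ^ 2 * m) * (4 * H) = m * (B ^ 2 * I) := by field_simp; ring
  rw [f6] at f5
  linarith

open Pool.Agent.H383.AP Pool.Agent.H383.Gen Pool.Agent.H383.GW
open Pool.Agent.W24.Riesz Pool.Agent.W24.Liou Pool.Agent.W24.Ar Pool.Agent.W24.Both
open Pool.Agent.Y938.Win

/-- **the measure of the set of large values in every window** -/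
theorem large_meas : ∃ H₀ : ℝ, 4 ≤ H₀ ∧ ∀ R H : ℝ, H₀ ≤ H → H ≤ R → ∀ s : ℝ, (s = 1 ∨ s = -1) →
    H ^ 2 * Real.exp (-√(Real.log H)) / (H + Real.log R) ≤
      volume.real {r : ℝ | R < r ∧ r ≤ R + H ∧
        Real.exp (c1 * (Real.log (Real.log H)) ^ (1 / 4 : ℝ) * (Real.log (Real.log (Real.log H))) ^ (-(3 / 4) : ℝ)) ≤ s * En r} := by
  obtain ⟨C0, hC0, hS⟩ := Pool.Agent.H383.Circ.En_Sand
  obtain ⟨h1, hcore⟩ := core_int Pool.Agent.H383.Circ.ag_Bd Pool.Agent.H383.Circ.ag_zero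
    Pool.Agent.H383.Circ.wg_Wt hC0 hS
  obtain ⟨C, R₀, hC, hR₀, hms⟩ := ms_En
  obtain ⟨h2, hpr⟩ := primes_h one_pos
  obtain ⟨cf, hcf, hLf⟩ := LBp_ag
  obtain ⟨h3, hV⟩ := eventually_atTop.mp (ev_V (C0 := 4 * C0 + 3) hcf)
  -- 80 h log h ≤ 2 ^ h
  have hpow : ∀ᶠ h : ℕ in atTop, 80 * (h:ℝ) * Real.log h ≤ 2 ^ h := by
    have t1 := tendsto_pow_const_div_const_pow_of_one_lt 2 (show (1:ℝ) < 2 by norm_num)
    have t2 := t1.eventually (gt_mem_nhds (show (0:ℝ) < 1/80 by norm_num))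
    filter_upwards [t2, eventually_ge_atTop 1] with h t3 t4
    have hR : (1:ℝ) ≤ h := by exact_mod_cast t4
    rw [div_lt_iff₀ (by positivity)] at t3
    have t5 : Real.log h ≤ h := (Real.log_le_sub_one_of_pos (by linarith)).trans (by linarith)
    nlinarith
  obtain ⟨h4, hp4⟩ := eventually_atTop.mp hpow
  obtain ⟨h5, hp5⟩ := exists_nat_ge C
  obtain ⟨H0, hH0⟩ := eventually_atTop.mp (ev_H (max (max (max h1 h2) (max (max h3 h4) 3)) h5))
  refine ⟨max H0 R₀, hR₀.trans (le_max_right _ _), fun R H hH hHR s hs => ?_⟩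
  obtain ⟨h, hh, a1, a3⟩ := hH0 H ((le_max_left _ _).trans hH)
  have hHR0 : R₀ ≤ H := (le_max_right _ _).trans hH
  have hH4 : 4 ≤ H := by linarith
  have hR4 : 4 ≤ R := by linarith
  obtain ⟨p, q1, q2, q3, q4, q5⟩ := hpr h (by omega)
  obtain ⟨v1, v2⟩ := hV h (by omega)
  have hR3 : (3:ℝ) ≤ h := by exact_mod_cast (by omega : 3 ≤ h)
  have hsum := sum_af_ge hcf hLf q1 q2 q3 q5
  have hG : (h:ℝ) * (80 * h * Real.log h) ^ (-(3/4):ℝ) = GG h := rfl
  rw [hG] at hsum
  have hple : ∀ i, p i ≤ 2 ^ h := by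
    intro i
    have := (q5 i).trans (hp4 h (by omega))
    exact_mod_cast this
  have hH' : (2:ℝ) ^ (10000 * 4 ^ h) ≤ H := by linarith [show (0:ℝ) < (2:ℝ) ^ (10000 * 4 ^ h) by positivity]
  obtain ⟨hE1, hE2⟩ := En_int (R := R) (b := R + H) (by linarith) (by linarith)
  obtain ⟨K, hKc, hK0, hKB, hK1, hK2⟩ := hcore h (by omega) p q1 q3 hple R H hR4 hHR hH' s hs hE1
  obtain ⟨A, hA⟩ : ∃ A : ℝ, A = ∑ S : JJ (Fin h), ag (dd p S) := ⟨_, rfl⟩
  rw [← hA] at hsum hK2
  have hlogR : 0 < Real.log R := Real.log_pos (by linarith)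
  have hI : 0 < C * (H + Real.log R) := mul_pos hC (by linarith)
  have hVV : Real.exp (GG h / 2) ≤ 1 / 3 * A - (3 + 4 * C0) := by linarith
  have hV0 : 0 ≤ 1 / 3 * A - (3 + 4 * C0) := (Real.exp_pos _).le.trans hVV
  have hmain := meas_core En_meas (by linarith : 0 < H) hE1 hE2 hKc hK0 (B := 2 ^ (2 ^ h)) (by positivity) hKB hK1 hs hV0 hK2
    (by linarith) hI (hms R H (by linarith) (by linarith) hHR)
  -- compare the sets
  have hmono : volume.real {r : ℝ | R < r ∧ r ≤ R + H ∧ 1 / 3 * A - (3 + 4 * C0) ≤ s * En r} ≤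
      volume.real {r : ℝ | R < r ∧ r ≤ R + H ∧
        Real.exp (c1 * (Real.log (Real.log H)) ^ (1 / 4 : ℝ) * (Real.log (Real.log (Real.log H))) ^ (-(3 / 4) : ℝ)) ≤ s * En r} := by
    apply measureReal_mono
    · intro r hr
      refine ⟨hr.1, hr.2.1, ?_⟩
      refine le_trans ?_ hr.2.2
      exact (Real.exp_le_exp.mpr a3).trans hVV
    · apply ne_of_lt
      refine lt_of_le_of_lt (measure_mono (t := Set.Ioc R (R + H)) fun r hr => ⟨hr.1, hr.2.1⟩) ?_
      rw [Real.volume_Ioc]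
      exact ENNReal.ofReal_lt_top
  refine le_trans ?_ (hmain.trans hmono)
  -- compare the constants
  obtain ⟨T, hT⟩ : ∃ T : ℝ, T = 2 ^ h := ⟨_, rfl⟩
  have hT1 : 1 ≤ T := by rw [hT]; exact one_le_pow₀ (by norm_num)
  have hCT : C ≤ Real.exp T := by
    have e1 : (h5 : ℝ) ≤ h := by exact_mod_cast (by omega : h5 ≤ h)
    have e2 : (h : ℝ) ≤ T := by
      rw [hT]
      exact_mod_cast (Nat.lt_two_pow_self (n := h)).le
    have e3 := Real.add_one_le_exp T
    linarith
  have hB : ((2 : ℝ) ^ (2 ^ h)) ^ 2 ≤ Real.exp (2 * T) := by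
    have e1 : ((2 : ℝ) ^ (2 ^ h)) = Real.exp (T * Real.log 2) := by
      rw [mul_comm, ← Real.rpow_def_of_pos (by norm_num), hT, ← Real.rpow_natCast]
      congr 1
      push_cast
      rfl
    rw [e1, ← Real.exp_nat_mul]
    apply Real.exp_le_exp.mpr
    have := Real.log_two_lt_d9
    push_cast
    nlinarith
  have hsq : 80 * T ≤ √(Real.log H) := by
    apply Real.le_sqrt_of_sq_le
    have e1 : Real.log ((2:ℝ) ^ (10000 * 4 ^ h)) ≤ Real.log H := Real.log_le_log (by positivity) hH'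
    rw [Real.log_pow] at e1
    have e2 : ((10000 * 4 ^ h : ℕ) : ℝ) = 10000 * T ^ 2 := by
      push_cast
      rw [hT, ← pow_mul, mul_comm h 2, pow_mul]
      norm_num
    rw [e2] at e1
    have := Real.log_two_gt_d9
    nlinarith [sq_nonneg T]
  have hfin : ((2 : ℝ) ^ (2 ^ h)) ^ 2 * C ≤ Real.exp (√(Real.log H)) := by
    calc ((2 : ℝ) ^ (2 ^ h)) ^ 2 * C ≤ Real.exp (2 * T) * Real.exp T := by
          apply mul_le_mul hB hCT hC.le (Real.exp_pos _).le
      _ = Real.exp (3 * T) := by rw [← Real.exp_add]; ring_nf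
      _ ≤ _ := Real.exp_le_exp.mpr (by linarith)
  rw [Real.exp_neg]
  have hHl : 0 < H + Real.log R := by linarith
  rw [div_le_div_iff₀ hHl (by positivity)]
  have g1 : (Real.exp (√(Real.log H)))⁻¹ * (((2 : ℝ) ^ (2 ^ h)) ^ 2 * C) ≤ 1 := by
    rw [inv_mul_le_iff₀ (Real.exp_pos _), mul_one]
    exact hfin
  calc H ^ 2 * (Real.exp (√(Real.log H)))⁻¹ * (((2 : ℝ) ^ (2 ^ h)) ^ 2 * (C * (H + Real.log R)))
      = H ^ 2 * (H + Real.log R) * ((Real.exp (√(Real.log H)))⁻¹ * (((2 : ℝ) ^ (2 ^ h)) ^ 2 * C)) := by ring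
    _ ≤ H ^ 2 * (H + Real.log R) * 1 := mul_le_mul_of_nonneg_left g1 (by positivity)
    _ ≤ 4 * H ^ 2 * (H + Real.log R) := by
        have : 0 ≤ H ^ 2 * (H + Real.log R) := by positivity
        linarith

end Pool.Agent.H648_sw
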