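import Pool.Agent.H648_sw.Law

set_option autoImplicit false

/-! The limit law of the error term of the circle problem in all short windows and in almost all windows of
bounded length. -/

namespace Pool.Agent.H648_sw

open MeasureTheory Filter Topology Finset
open Pool.Agent.R461.GC (ch norm_ch ch_cont pow_small U_trigS TrigS_cont compare Adm fractal En_meas En_bdd Lam)
open Pool.Agent.H383.Gauss (En)
open Pool.Agent.H383.Gen (U)
open Pool.Agent.H383.Circ (ag)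

/-- characters in windows -/
lemma wm_ch {θ : ℝ} (h0 : θ ≠ 0) {H : ℝ} (hH : 0 < H) (R : ℝ) : ‖∫ x, ch θ x ∂(wm R H)‖ ≤ 2 / |θ| / H := by
  rw [wm_int R hH]
  have hc : (θ * Complex.I : ℂ) ≠ 0 := mul_ne_zero (by exact_mod_cast h0) Complex.I_ne_zero
  have h1 : ∫ x in R..(R + H), ch θ x = (Complex.exp (θ * Complex.I * ((R + H : ℝ) : ℂ)) - Complex.exp (θ * Complex.I * (R : ℂ))) / (θ * Complex.I) := by
    rw [← integral_exp_mul_complex hc]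
    apply intervalIntegral.integral_congr
    intro x _
    unfold Pool.Agent.R461.GC.ch
    simp only
    congr 1
    push_cast
    ring
  rw [h1, norm_smul, Real.norm_eq_abs, abs_of_pos (by positivity : 0 < 1 / H), norm_div, norm_mul, Complex.norm_I, mul_one,
    Complex.norm_real, Real.norm_eq_abs]
  have h2 : ‖Complex.exp (θ * Complex.I * ((R + H : ℝ) : ℂ)) - Complex.exp (θ * Complex.I * (R : ℂ))‖ ≤ 2 := by
    refine (norm_sub_le _ _).trans ?_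
    have e1 : ∀ y : ℝ, ‖Complex.exp (θ * Complex.I * (y : ℂ))‖ = 1 := by
      intro y
      rw [show (θ * Complex.I * (y : ℂ)) = ((θ * y : ℝ) : ℂ) * Complex.I by push_cast; ring]
      exact Complex.norm_exp_ofReal_mul_I _
    rw [e1, e1]
    norm_num
  have h3 : 0 < |θ| := abs_pos.2 h0
  calc 1 / H * (‖Complex.exp (θ * Complex.I * ((R + H : ℝ) : ℂ)) - Complex.exp (θ * Complex.I * (R : ℂ))‖ / |θ|)
      ≤ 1 / H * (2 / |θ|) := mul_le_mul_of_nonneg_left (div_le_div_of_nonneg_right h2 h3.le) (by positivity)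
    _ = _ := by field_simp

/-- the uniform measure on `(1, 2]` is admissible -/
lemma unif_adm {T : ℝ} (hT : 1 ≤ T) : Adm 1 2 2 (2 / 5) T (wm 1 1) := by
  refine ⟨wm_prob 1 one_pos, ?_, ?_⟩
  · filter_upwards [wm_supp] with x hx
    exact ⟨hx.1.le, by linarith [hx.2]⟩
  · intro t ht _
    have h1 : 1 ≤ |t| := (Real.one_le_rpow hT (by norm_num)).trans ht
    have h0 : t ≠ 0 := by
      intro h
      rw [h, abs_zero] at h1
      linarith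
    refine (wm_ch h0 one_pos 1).trans ?_
    rw [div_one, div_eq_mul_inv, ← Real.rpow_neg_one]
    apply mul_le_mul_of_nonneg_left _ (by norm_num)
    exact Real.rpow_le_rpow_of_exponent_le h1 (by norm_num)

/-- scaling -/
lemma wm_scale {T : ℝ} (hT : 0 < T) (g : ℝ → ℝ) : ∫ x, g x ∂(wm T T) = ∫ x, g (T * x) ∂(wm 1 1) := by
  rw [wm_int T hT, wm_int 1 one_pos, intervalIntegral.integral_comp_mul_left g hT.ne']
  simp only [smul_eq_mul, one_div, mul_one, inv_one, one_mul]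
  congr 2
  ring

lemma U_meas (M : ℕ) : Measurable (fun x => U ag (3 * Real.pi / 4) x M) := by
  have := Complex.continuous_re.comp (TrigS_cont (U_trigS ag (3 * Real.pi / 4) M)).1
  exact Continuous.measurable this

/-- **the law of `fractal`, from a sequence of probability measures** -/
theorem law_seq : ∃ (ν : ProbabilityMeasure ℝ) (G : ℂ → ℂ),
    Differentiable ℂ G ∧ (∀ x : ℝ, 0 ≤ (G x).re ∧ (G x).im = 0) ∧
    (ν : Measure ℝ) = volume.withDensity (fun x : ℝ => ENNReal.ofReal (G x).re) ∧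
    (∀ u v : ℝ, u < v → 0 < (ν : Measure ℝ) (Set.Ioo u v)) ∧
    Integrable (fun x : ℝ => x ^ 2) (ν : Measure ℝ) ∧
    ∫ x, x ∂(ν : Measure ℝ) = 0 ∧
    HasSum (fun m : ℕ => if 1 ≤ m then (ag m) ^ 2 / 2 else 0) (∫ x, x ^ 2 ∂(ν : Measure ℝ)) ∧
    ∀ P : ℕ → Measure ℝ, (∀ k, IsProbabilityMeasure (P k)) →
      (∀ θ : ℝ, θ ≠ 0 → Tendsto (fun k => ∫ x, ch θ x ∂(P k)) atTop (𝓝 0)) →
      (∀ k, ∃ R₁ R₂ : ℝ, 0 < R₁ ∧ ∀ᵐ x ∂(P k), R₁ ≤ x ∧ x ≤ R₂) →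
      (∀ η : ℝ, 0 < η → ∃ M₀ : ℕ, ∀ M, M₀ ≤ M → ∃ k₀ : ℕ, ∀ k, k₀ ≤ k → ∫ x, (En x - U ag (3 * Real.pi / 4) x M) ^ 2 ∂(P k) ≤ η) →
      ∀ f : ℝ → ℝ, Continuous f → (∃ C : ℝ, ∀ x, |f x| ≤ C * (1 + x ^ 2)) → ∀ η : ℝ, 0 < η →
        ∃ k₀ : ℕ, ∀ k, k₀ ≤ k → |∫ x, f (En x) ∂(P k) - ∫ x, f x ∂(ν : Measure ℝ)| ≤ η := by
  obtain ⟨ν, G, h1, h2, h3, h4, h5, h6, h7, h8⟩ := fractal
  refine ⟨ν, G, h1, h2, h3, h4, h5, h6, h7, ?_⟩
  intro P hPp hPch hPs hPu f hf hC η hη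
  obtain ⟨Q, hQ⟩ : ∃ Q : ℕ → Measure ℝ, Q = fun k : ℕ => wm ((k : ℝ) + 1) ((k : ℝ) + 1) := ⟨_, rfl⟩
  have hk1 : ∀ k : ℕ, (0 : ℝ) < (k : ℝ) + 1 := fun k => by positivity
  have hQp : ∀ k, IsProbabilityMeasure (Q k) := fun k => by rw [hQ]; exact wm_prob _ (hk1 k)
  have hb : ∀ (μ : Measure ℝ), (∃ R₁ R₂ : ℝ, 0 < R₁ ∧ ∀ᵐ x ∂μ, R₁ ≤ x ∧ x ≤ R₂) → ∃ B, ∀ᵐ x ∂μ, |En x| ≤ B := by
    rintro μ ⟨R₁, R₂, h0, h⟩
    obtain ⟨B, hB⟩ := En_bdd R₁ R₂ h0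
    refine ⟨B, ?_⟩
    filter_upwards [h] with x hx
    exact hB x hx.1 hx.2
  have hQs : ∀ k, ∃ R₁ R₂ : ℝ, 0 < R₁ ∧ ∀ᵐ x ∂(Q k), R₁ ≤ x ∧ x ≤ R₂ := by
    intro k
    refine ⟨(k : ℝ) + 1, (k : ℝ) + 1 + ((k : ℝ) + 1), hk1 k, ?_⟩
    rw [hQ]
    filter_upwards [wm_supp] with x hx
    exact ⟨hx.1.le, hx.2⟩
  have hQch : ∀ θ ∈ Lam, θ ≠ 0 → Tendsto (fun k => ∫ x, ch θ x ∂(Q k)) atTop (𝓝 0) := by
    intro θ _ h0
    have hlim : Tendsto (fun k : ℕ => 2 / |θ| / ((k : ℝ) + 1)) atTop (𝓝 0) :=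
      Tendsto.div_atTop tendsto_const_nhds (tendsto_atTop_add_const_right _ _ tendsto_natCast_atTop_atTop)
    apply squeeze_zero_norm _ hlim
    intro k
    rw [hQ]
    exact wm_ch h0 (hk1 k) _
  have hQu : ∀ η : ℝ, 0 < η → ∃ M₀ : ℕ, ∀ M, M₀ ≤ M → ∃ k₀ : ℕ, ∀ k, k₀ ≤ k →
      ∫ x, (En x - U ag (3 * Real.pi / 4) x M) ^ 2 ∂(Q k) ≤ η := by
    intro η hη
    obtain ⟨M₀, L, hL0, hM₀⟩ := tail_win η hη
    refine ⟨M₀, fun M hM => ?_⟩
    obtain ⟨R₀, hR₀⟩ := hM₀ M hM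
    -- `L log R ≤ R` for large `R`
    have hlog : ∀ᶠ R : ℝ in atTop, L * Real.log R ≤ R := by
      have := Real.isLittleO_log_id_atTop.bound (show 0 < 1 / L by positivity)
      filter_upwards [this, eventually_ge_atTop 1] with R hR hR1
      rw [Real.norm_eq_abs, abs_of_nonneg (Real.log_nonneg hR1), id, Real.norm_eq_abs, abs_of_nonneg (by linarith)] at hR
      have h9 := mul_le_mul_of_nonneg_left hR hL0.le
      rwa [← mul_assoc, mul_one_div, div_self hL0.ne', one_mul] at h9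
    obtain ⟨R₁, hR₁⟩ := Filter.eventually_atTop.1 hlog
    obtain ⟨k₀, hk₀⟩ := exists_nat_ge (max R₀ R₁)
    refine ⟨k₀, fun k hk => ?_⟩
    have e1 : (k₀ : ℝ) ≤ k := by exact_mod_cast hk
    have e2 : R₀ ≤ (k : ℝ) + 1 := by linarith [le_max_left R₀ R₁]
    have e3 : R₁ ≤ (k : ℝ) + 1 := by linarith [le_max_right R₀ R₁]
    rw [hQ]
    exact hR₀ _ e2 _ (hR₁ _ e3) le_rfl
  obtain ⟨k₁, hk₁⟩ := compare (P := P) (Q := Q) (fun θ _ h0 => hPch θ h0) hQch En_meas (fun k => hb _ (hPs k)) (fun k => hb _ (hQs k))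
    (u := fun M x => U ag (3 * Real.pi / 4) x M) (fun M => U_trigS ag (3 * Real.pi / 4) M) hPu hQu hf hC (show 0 < η / 2 by linarith)
  obtain ⟨T₀, hT₀⟩ := h8 1 2 2 (2 / 5) one_pos (by norm_num) f hf hC (η / 2) (by linarith)
  obtain ⟨k₂, hk₂⟩ := exists_nat_ge T₀
  refine ⟨max k₁ k₂, fun k hk => ?_⟩
  have e1 := hk₁ k (le_trans (le_max_left _ _) hk)
  have e0 : (k₂ : ℝ) ≤ k := by exact_mod_cast le_trans (le_max_right _ _) hk
  have e2 := hT₀ ((k : ℝ) + 1) (by linarith) (wm 1 1) (unif_adm (by linarith [(Nat.cast_nonneg k : (0 : ℝ) ≤ k)]))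
  rw [← wm_scale (hk1 k) (fun x => f (En x))] at e2
  have e3 : Q k = wm ((k : ℝ) + 1) ((k : ℝ) + 1) := by rw [hQ]
  rw [e3] at e1
  have g1 := abs_le.1 e1
  have g2 := abs_le.1 e2
  rw [abs_le]
  constructor <;> linarith [g1.1, g1.2, g2.1, g2.2]

end Pool.Agent.H648_sw
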