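import Pool.Agent.H648_sw.Mix

set_option autoImplicit false

/-! The law in all short windows and in almost all windows of bounded length. -/

namespace Pool.Agent.H648_sw

open MeasureTheory Filter Topology
open Pool.Agent.R461.GC (ch norm_ch ch_cont En_meas En_bdd TrigS_cont U_trigS)
open Pool.Agent.H383.Gauss (En)
open Pool.Agent.H383.Gen (U)
open Pool.Agent.H383.Circ (ag)

/-- window averages of `f (En x)` -/
noncomputable def av (f : ℝ → ℝ) (R H : ℝ) : ℝ := ∫ x, f (En x) ∂(wm R H)

/-- **the law** -/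
theorem law_all : ∃ (ν : ProbabilityMeasure ℝ) (G : ℂ → ℂ),
    Differentiable ℂ G ∧ (∀ x : ℝ, 0 ≤ (G x).re ∧ (G x).im = 0) ∧
    (ν : Measure ℝ) = volume.withDensity (fun x : ℝ => ENNReal.ofReal (G x).re) ∧
    (∀ u v : ℝ, u < v → 0 < (ν : Measure ℝ) (Set.Ioo u v)) ∧
    Integrable (fun x : ℝ => x ^ 2) (ν : Measure ℝ) ∧
    ∫ x, x ∂(ν : Measure ℝ) = 0 ∧
    HasSum (fun m : ℕ => if 1 ≤ m then (ag m) ^ 2 / 2 else 0) (∫ x, x ^ 2 ∂(ν : Measure ℝ)) ∧
    (∀ f : ℝ → ℝ, Continuous f → (∃ C : ℝ, ∀ x, |f x| ≤ C * (1 + x ^ 2)) → ∀ η : ℝ, 0 < η →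
      ∃ L R₀ : ℝ, 0 < L ∧ 2 ≤ R₀ ∧ ∀ R, R₀ ≤ R → ∀ H, L * Real.log R ≤ H → H ≤ R → |av f R H - ∫ x, f x ∂(ν : Measure ℝ)| ≤ η) ∧
    (∀ f : ℝ → ℝ, Continuous f → (∃ C : ℝ, ∀ x, |f x| ≤ C * (1 + x ^ 2)) → ∀ η ε : ℝ, 0 < η → 0 < ε →
      ∃ H₀ X₀ : ℝ, 0 < H₀ ∧ 0 < X₀ ∧ ∀ X, X₀ ≤ X → ∀ H, H₀ ≤ H → H ≤ X →
        volume {R : ℝ | X ≤ R ∧ R ≤ 2 * X ∧ η < |av f R H - ∫ x, f x ∂(ν : Measure ℝ)|} ≤ ENNReal.ofReal (ε * X)) := by
  classical
  obtain ⟨ν, G, h1, h2, h3, h4, h5, h6, h7, h8⟩ := law_seq
  refine ⟨ν, G, h1, h2, h3, h4, h5, h6, h7, ?_, ?_⟩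
  · -- all short windows
    intro f hf hC η hη
    by_contra hcon
    push Not at hcon
    choose R hR H hH1 hH2 hbad using fun k : ℕ => hcon ((k : ℝ) + 1) ((k : ℝ) + 2) (by positivity) (by
      linarith [(Nat.cast_nonneg k : (0 : ℝ) ≤ k)])
    have hk0 : ∀ k : ℕ, (0 : ℝ) ≤ k := fun k => Nat.cast_nonneg k
    have hRpos : ∀ k, 0 < R k := fun k => by linarith [hR k, hk0 k]
    have hlog : ∀ k, 1 / 2 ≤ Real.log (R k) := by
      intro k
      have e1 : Real.log 2 ≤ Real.log (R k) := Real.log_le_log (by norm_num) (by linarith [hR k, hk0 k])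
      have := Real.log_two_gt_d9
      linarith
    have hHk : ∀ k : ℕ, ((k : ℝ) + 1) / 2 ≤ H k := by
      intro k
      have := hH1 k
      nlinarith [hlog k, hk0 k]
    have hHpos : ∀ k, 0 < H k := fun k => by linarith [hHk k, hk0 k]
    obtain ⟨k₀, hk₀⟩ := h8 (fun k => wm (R k) (H k)) (fun k => wm_prob _ (hHpos k)) (by
        intro θ h0
        have hlim : Tendsto (fun k : ℕ => 2 / |θ| / (((k : ℝ) + 1) / 2)) atTop (𝓝 0) :=
          Tendsto.div_atTop tendsto_const_nhds
            (Tendsto.atTop_div_const (by norm_num) (tendsto_atTop_add_const_right _ _ tendsto_natCast_atTop_atTop))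
        apply squeeze_zero_norm _ hlim
        intro k
        refine (wm_ch h0 (hHpos k) _).trans ?_
        have : 0 < |θ| := abs_pos.2 h0
        exact div_le_div_of_nonneg_left (by positivity) (by linarith [hk0 k]) (hHk k)) (by
        intro k
        refine ⟨R k, R k + H k, hRpos k, ?_⟩
        filter_upwards [wm_supp] with x hx
        exact ⟨hx.1.le, hx.2⟩) (by
        intro η' hη'
        obtain ⟨M₀, L, hL0, hM₀⟩ := tail_win η' hη'
        refine ⟨M₀, fun M hM => ?_⟩
        obtain ⟨R₀, hR₀⟩ := hM₀ M hM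
        obtain ⟨k₀, hk₀⟩ := exists_nat_ge (max R₀ L)
        refine ⟨k₀, fun k hk => ?_⟩
        have e1 : (k₀ : ℝ) ≤ k := by exact_mod_cast hk
        have e2 : R₀ ≤ k₀ := (le_max_left _ _).trans hk₀
        have e3 : L ≤ k₀ := (le_max_right _ _).trans hk₀
        apply hR₀ (R k) (by linarith [hR k]) (H k) _ (hH2 k)
        refine le_trans ?_ (hH1 k)
        apply mul_le_mul_of_nonneg_right _ (by linarith [hlog k])
        linarith) f hf hC η hη
    have e1 := hk₀ k₀ le_rfl
    have e2 := hbad k₀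
    unfold av at e2
    exact absurd e1 (not_le.2 e2)
  · -- almost all windows of bounded length
    intro f hf hC η ε hη hε
    obtain ⟨m, hm⟩ : ∃ m, m = ∫ x, f x ∂(ν : Measure ℝ) := ⟨_, rfl⟩
    rw [← hm]
    by_contra hcon
    push Not at hcon
    choose X hX H hH1 hH2 hbad using fun k : ℕ => hcon ((k : ℝ) + 1) ((k : ℝ) + 1) (by positivity) (by positivity)
    have hk0 : ∀ k : ℕ, (0 : ℝ) ≤ k := fun k => Nat.cast_nonneg k
    have hXpos : ∀ k, 0 < X k := fun k => by linarith [hX k, hk0 k]
    have hHpos : ∀ k, 0 < H k := fun k => by linarith [hH1 k, hk0 k]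
    have hfE : Measurable (fun x => f (En x)) := hf.measurable.comp En_meas
    -- the bad sets with a sign
    have hsign : ∀ k, ∃ s : ℝ, (s = 1 ∨ s = -1) ∧
        ENNReal.ofReal (ε / 2 * X k) < volume {R : ℝ | X k ≤ R ∧ R ≤ 2 * X k ∧ η < s * (av f R (H k) - m)} := by
      intro k
      by_contra hc
      push Not at hc
      have a1 := hc 1 (Or.inl rfl)
      have a2 := hc (-1) (Or.inr rfl)
      have a3 : {R : ℝ | X k ≤ R ∧ R ≤ 2 * X k ∧ η < |av f R (H k) - m|} ⊆
          {R : ℝ | X k ≤ R ∧ R ≤ 2 * X k ∧ η < 1 * (av f R (H k) - m)} ∪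
          {R : ℝ | X k ≤ R ∧ R ≤ 2 * X k ∧ η < -1 * (av f R (H k) - m)} := by
        intro R hR
        obtain ⟨b1, b2, b3⟩ := hR
        rcases le_total 0 (av f R (H k) - m) with h | h
        · left
          rw [abs_of_nonneg h] at b3
          exact ⟨b1, b2, by linarith⟩
        · right
          rw [abs_of_nonpos h] at b3
          exact ⟨b1, b2, by linarith⟩
      have a4 := (measure_mono (μ := volume) a3).trans (measure_union_le _ _)
      have a5 := a4.trans (add_le_add a1 a2)
      rw [← ENNReal.ofReal_add (by have := hXpos k; positivity) (by have := hXpos k; positivity)] at a5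
      rw [show ε / 2 * X k + ε / 2 * X k = ε * X k by ring] at a5
      exact absurd a5 (not_le.2 (hbad k))
    choose s hs hbs using hsign
    obtain ⟨B, hB⟩ : ∃ B : ℕ → Set ℝ, B = fun k => {R : ℝ | X k ≤ R ∧ R ≤ 2 * X k ∧ η < s k * (av f R (H k) - m)} := ⟨_, rfl⟩
    have hBv : ∀ k, ENNReal.ofReal (ε / 2 * X k) < volume (B k) := fun k => by rw [hB]; exact hbs k
    have hBsub : ∀ k, B k ⊆ Set.Icc (X k) (2 * X k) := by
      intro k R hR
      rw [hB] at hR
      exact ⟨hR.1, hR.2.1⟩
    have hBm : ∀ k, MeasurableSet (B k) := by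
      intro k
      have hav : Measurable (fun R => av f R (H k)) := win_meas (hHpos k) hfE
      have e1 : B k = Set.Icc (X k) (2 * X k) ∩ {R : ℝ | η < s k * (av f R (H k) - m)} := by
        rw [hB]
        ext R
        simp only [Set.mem_ofPred_eq, Set.mem_inter_iff, Set.mem_Icc]
        tauto
      rw [e1]
      apply measurableSet_Icc.inter
      exact measurableSet_lt measurable_const ((hav.sub measurable_const).const_mul _)
    have hB0 : ∀ k, volume (B k) ≠ 0 := fun k => (lt_of_le_of_lt zero_le (hBv k)).ne'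
    have hB1 : ∀ k, volume (B k) ≠ ⊤ := by
      intro k
      apply ne_of_lt
      refine lt_of_le_of_lt (measure_mono (hBsub k)) ?_
      rw [Real.volume_Icc]
      exact ENNReal.ofReal_lt_top
    have hPp : ∀ k, IsProbabilityMeasure (mx (B k) (H k)) := fun k => mx_prob (hB0 k) (hB1 k) _
    have hsupp : ∀ k, ∀ᵐ x ∂(mx (B k) (H k)), X k ≤ x ∧ x ≤ 3 * X k := fun k => mx_supp (hBsub k) (hBm k) (hHpos k) (hH2 k)
    obtain ⟨k₀, hk₀⟩ := h8 (fun k => mx (B k) (H k)) hPp (by
        intro θ h0
        have hlim : Tendsto (fun k : ℕ => 2 / |θ| / ((k : ℝ) + 1)) atTop (𝓝 0) :=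
          Tendsto.div_atTop tendsto_const_nhds (tendsto_atTop_add_const_right _ _ tendsto_natCast_atTop_atTop)
        apply squeeze_zero_norm _ hlim
        intro k
        have e1 := (mx_int (hB0 k) (hB1 k) (hHpos k) (ch_cont θ).stronglyMeasurable (D := 1)
          (Eventually.of_forall fun x => (norm_ch θ x).le)).1
        rw [e1]
        have := ub_prob (hB0 k) (hB1 k)
        have e2 := norm_integral_le_of_norm_le_const (μ := ub (B k)) (f := fun R => ∫ x, ch θ x ∂(wm R (H k))) (C := 2 / |θ| / ((k : ℝ) + 1))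
          (Eventually.of_forall fun R => by
            refine (wm_ch h0 (hHpos k) R).trans ?_
            have : 0 < |θ| := abs_pos.2 h0
            exact div_le_div_of_nonneg_left (by positivity) (by linarith [hk0 k]) (hH1 k))
        simpa using e2) (fun k => ⟨X k, 3 * X k, hXpos k, hsupp k⟩) (by
        intro η' hη'
        obtain ⟨M₀, L, hL0, hM₀⟩ := tail_win (ε * η' / 6) (by positivity)
        refine ⟨M₀, fun M hM => ?_⟩
        obtain ⟨R₀, hR₀⟩ := hM₀ M hM
        have hlog : ∀ᶠ R : ℝ in atTop, L * Real.log R ≤ R := by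
          have := Real.isLittleO_log_id_atTop.bound (show 0 < 1 / L by positivity)
          filter_upwards [this, eventually_ge_atTop 1] with R hR hR1
          rw [Real.norm_eq_abs, abs_of_nonneg (Real.log_nonneg hR1), id, Real.norm_eq_abs, abs_of_nonneg (by linarith)] at hR
          have h9 := mul_le_mul_of_nonneg_left hR hL0.le
          rwa [← mul_assoc, mul_one_div, div_self hL0.ne', one_mul] at h9
        obtain ⟨R₁, hR₁⟩ := Filter.eventually_atTop.1 hlog
        obtain ⟨k₀, hk₀⟩ := exists_nat_ge (max R₀ R₁)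
        refine ⟨k₀, fun k hk => ?_⟩
        have e1 : (k₀ : ℝ) ≤ k := by exact_mod_cast hk
        have e2 : R₀ ≤ k₀ := (le_max_left _ _).trans hk₀
        have e3 : R₁ ≤ k₀ := (le_max_right _ _).trans hk₀
        have hXk := hX k
        have hXp := hXpos k
        obtain ⟨F, hF⟩ : ∃ F : ℝ → ℝ, F = fun x => (En x - U ag (3 * Real.pi / 4) x M) ^ 2 := ⟨_, rfl⟩
        have hFm : Measurable F := by rw [hF]; exact (En_meas.sub (U_meas M)).pow_const 2
        have hF0 : ∀ x, 0 ≤ F x := fun x => by rw [hF]; exact sq_nonneg _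
        have a1 : ∫ x, F x ∂(wm (X k) (X k)) ≤ ε * η' / 6 := by
          rw [hF]
          exact hR₀ (X k) (by linarith) (X k) (hR₁ _ (by linarith)) le_rfl
        have a2 : ∫ x, F x ∂(wm (2 * X k) (2 * X k)) ≤ ε * η' / 6 := by
          rw [hF]
          exact hR₀ (2 * X k) (by linarith) (2 * X k) (hR₁ _ (by linarith)) le_rfl
        rw [wm_int _ hXp, smul_eq_mul] at a1
        rw [wm_int _ (by linarith), smul_eq_mul] at a2
        have b1 : ∫ x in (X k)..(X k + X k), F x ≤ X k * (ε * η' / 6) := by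
          have := mul_le_mul_of_nonneg_left a1 hXp.le
          rwa [← mul_assoc, mul_one_div, div_self hXp.ne', one_mul] at this
        have b2 : ∫ x in (2 * X k)..(2 * X k + 2 * X k), F x ≤ 2 * X k * (ε * η' / 6) := by
          have := mul_le_mul_of_nonneg_left a2 (by linarith : 0 ≤ 2 * X k)
          rwa [← mul_assoc, mul_one_div, div_self (by linarith), one_mul] at this
        -- `F` is bounded on `[X, 4 X]`
        obtain ⟨D, hD⟩ := En_bdd (X k) (4 * X k) hXp
        obtain ⟨_, D', _, hD'⟩ := TrigS_cont (U_trigS ag (3 * Real.pi / 4) M)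
        have hFb : ∀ x, X k ≤ x → x ≤ 4 * X k → ‖F x‖ ≤ (D + D') ^ 2 := by
          intro x hx1 hx2
          rw [Real.norm_eq_abs, abs_of_nonneg (hF0 x), hF]
          simp only
          rw [← sq_abs]
          apply pow_le_pow_left₀ (abs_nonneg _)
          refine (abs_sub _ _).trans (add_le_add (hD x hx1 hx2) ?_)
          have := hD' x
          rwa [Complex.norm_real, Real.norm_eq_abs] at this
        have hFi : ∀ a b : ℝ, X k ≤ a → a ≤ b → b ≤ 4 * X k → IntegrableOn F (Set.Icc a b) := by
          intro a b ha hab hb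
          refine Measure.integrableOn_of_bounded (M := (D + D') ^ 2) ?_ hFm.aestronglyMeasurable ?_
          · rw [Real.volume_Icc]; exact ENNReal.ofReal_ne_top
          · filter_upwards [ae_restrict_mem measurableSet_Icc] with x hx
            exact hFb x (by linarith [hx.1]) (by linarith [hx.2])
        have c1 : ∫ x, F x ∂(mx (B k) (H k)) ≤ ∫ x, F x ∂((volume (B k))⁻¹ • volume.restrict (Set.Icc (X k) (3 * X k))) := by
          apply integral_mono_measure (mx_le (hBsub k) (hBm k) (hHpos k) (hH2 k)) (Eventually.of_forall hF0)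
          apply Integrable.smul_measure _ (ENNReal.inv_ne_top.2 (hB0 k))
          exact hFi _ _ le_rfl (by linarith) (by linarith)
        rw [integral_smul_measure, smul_eq_mul] at c1
        have c2 : ((volume (B k))⁻¹).toReal ≤ 2 / (ε * X k) := by
          rw [ENNReal.toReal_inv]
          have d1 : ε / 2 * X k ≤ (volume (B k)).toReal := by
            have := (ENNReal.toReal_le_toReal ENNReal.ofReal_ne_top (hB1 k)).2 (hBv k).le
            rwa [ENNReal.toReal_ofReal (by positivity)] at this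
          have d2 : 0 < ε / 2 * X k := by positivity
          calc ((volume (B k)).toReal)⁻¹ ≤ (ε / 2 * X k)⁻¹ := inv_anti₀ d2 d1
            _ = 2 / (ε * X k) := by field_simp
        have c3 : ∫ x in Set.Icc (X k) (3 * X k), F x ≤ 3 * X k * (ε * η' / 6) := by
          have d1 : ∫ x in Set.Icc (X k) (3 * X k), F x = ∫ x in (X k)..(3 * X k), F x := by
            rw [intervalIntegral.integral_of_le (by linarith), integral_Icc_eq_integral_Ioc]
          have d2 : ∫ x in (X k)..(3 * X k), F x ≤ ∫ x in (X k)..(4 * X k), F x := by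
            rw [intervalIntegral.integral_of_le (by linarith), intervalIntegral.integral_of_le (by linarith)]
            apply setIntegral_mono_set
            · exact (hFi _ _ le_rfl (by linarith) le_rfl).mono_set Set.Ioc_subset_Icc_self
            · exact Eventually.of_forall hF0
            · exact (Set.Ioc_subset_Ioc_right (by linarith)).eventuallyLE
          have d3 : ∫ x in (X k)..(4 * X k), F x = (∫ x in (X k)..(X k + X k), F x) + ∫ x in (2 * X k)..(2 * X k + 2 * X k), F x := by
            have i1 : IntervalIntegrable F volume (X k) (2 * X k) := by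
              rw [intervalIntegrable_iff_integrableOn_Icc_of_le (by linarith)]
              exact hFi _ _ le_rfl (by linarith) (by linarith)
            have i2 : IntervalIntegrable F volume (2 * X k) (4 * X k) := by
              rw [intervalIntegrable_iff_integrableOn_Icc_of_le (by linarith)]
              exact hFi _ _ (by linarith) (by linarith) le_rfl
            rw [show X k + X k = 2 * X k by ring, show 2 * X k + 2 * X k = 4 * X k by ring]
            exact (intervalIntegral.integral_add_adjacent_intervals i1 i2).symm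
          rw [d1]
          linarith
        have c4 : 0 ≤ ∫ x in Set.Icc (X k) (3 * X k), F x := integral_nonneg hF0
        have goal1 : ∫ x, F x ∂(mx (B k) (H k)) ≤ η' := by
          refine c1.trans ?_
          calc ((volume (B k))⁻¹).toReal * ∫ x in Set.Icc (X k) (3 * X k), F x
              ≤ 2 / (ε * X k) * (3 * X k * (ε * η' / 6)) := mul_le_mul c2 c3 c4 (by positivity)
            _ = η' := by field_simp; ring
        rw [hF] at goal1
        exact goal1) f hf hC (η / 2) (by linarith)
    have e1 := hk₀ k₀ le_rfl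
    rw [← hm] at e1
    -- the average over the bad set
    obtain ⟨D, hD⟩ := En_bdd (X k₀) (3 * X k₀) (hXpos k₀)
    obtain ⟨C, hCf⟩ := hC
    have hbd : ∀ᵐ x ∂(mx (B k₀) (H k₀)), ‖f (En x)‖ ≤ |C| * (1 + D ^ 2) := by
      filter_upwards [hsupp k₀] with x hx
      rw [Real.norm_eq_abs]
      have a1 := hD x hx.1 hx.2
      have a2 : (En x) ^ 2 ≤ D ^ 2 := by
        rw [← sq_abs]
        exact pow_le_pow_left₀ (abs_nonneg _) a1 2
      calc |f (En x)| ≤ C * (1 + (En x) ^ 2) := hCf _
        _ ≤ |C| * (1 + (En x) ^ 2) := mul_le_mul_of_nonneg_right (le_abs_self C) (by positivity)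
        _ ≤ _ := mul_le_mul_of_nonneg_left (by linarith) (abs_nonneg C)
    obtain ⟨e2, e3⟩ := mx_int (hB0 k₀) (hB1 k₀) (hHpos k₀) hfE.stronglyMeasurable hbd
    have := ub_prob (hB0 k₀) (hB1 k₀)
    have e4 : η ≤ ∫ R, s k₀ * (av f R (H k₀) - m) ∂(ub (B k₀)) := by
      have h9 : ∫ _R, η ∂(ub (B k₀)) ≤ ∫ R, s k₀ * (av f R (H k₀) - m) ∂(ub (B k₀)) := by
        apply integral_mono_ae (integrable_const _)
        · exact (e3.sub (integrable_const m)).const_mul _
        · have h10 : ∀ᵐ R ∂(ub (B k₀)), R ∈ B k₀ := by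
            unfold ub
            apply Measure.ae_smul_measure
            exact ae_restrict_mem (hBm k₀)
          filter_upwards [h10] with R hR
          rw [hB] at hR
          exact hR.2.2.le
      simpa using h9
    have e5 : ∫ R, s k₀ * (av f R (H k₀) - m) ∂(ub (B k₀)) = s k₀ * (∫ x, f (En x) ∂(mx (B k₀) (H k₀)) - m) := by
      rw [integral_const_mul, e2]
      have h11 : ∫ R, (av f R (H k₀) - m) ∂(ub (B k₀)) = ∫ R, av f R (H k₀) ∂(ub (B k₀)) - ∫ _R, m ∂(ub (B k₀)) :=
        integral_sub e3 (integrable_const m)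
      rw [h11, integral_const]
      simp only [probReal_univ, one_smul]
      rfl
    rw [e5] at e4
    have e6 : s k₀ * (∫ x, f (En x) ∂(mx (B k₀) (H k₀)) - m) ≤ |∫ x, f (En x) ∂(mx (B k₀) (H k₀)) - m| := by
      rcases hs k₀ with h | h
      · rw [h, one_mul]
        exact le_abs_self _
      · rw [h]
        have := neg_abs_le (∫ x, f (En x) ∂(mx (B k₀) (H k₀)) - m)
        linarith
    linarith

end Pool.Agent.H648_sw
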