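import Pool.Agent.H648_sw.Lat

set_option autoImplicit false

/-! The off-diagonal part of the mean square of the smoothed series. -/

namespace Pool.Agent.H648_sw

open Finset

lemma rp {t : ℝ} (ht : 0 < t) : (t ^ (-(3 / 2) : ℝ)) ^ 2 = (t ^ 3)⁻¹ := by
  rw [← Real.rpow_natCast, ← Real.rpow_mul ht.le, ← Real.rpow_natCast, ← Real.rpow_neg ht.le]
  norm_num

/-- the weights -/
noncomputable def bw (Cw δ : ℝ) (m : ℕ) : ℝ := (√(m : ℝ)) ^ (-(3 / 2) : ℝ) * min 1 (Cw * (√(m : ℝ) * δ) ^ (-(3 / 2) : ℝ))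

/-- the weight of a block -/
noncomputable def Bj (Cw δ : ℝ) (j : ℕ) : ℝ := min 1 (Cw ^ 2 * ((2 ^ j * δ) ^ 3)⁻¹)

lemma Bj_nonneg {δ : ℝ} (Cw : ℝ) (hδ : 0 < δ) (j : ℕ) : 0 ≤ Bj Cw δ j := by
  unfold Bj
  positivity

lemma bw_nonneg {Cw δ : ℝ} (hCw : 0 ≤ Cw) (hδ : 0 < δ) (m : ℕ) : 0 ≤ bw Cw δ m := by
  unfold bw
  positivity

lemma bw_sq {Cw δ : ℝ} (hCw : 0 ≤ Cw) (hδ : 0 < δ) {m : ℕ} (hm : 1 ≤ m) :
    bw Cw δ m ^ 2 ≤ ((2 ^ (Nat.log 4 m)) ^ 3)⁻¹ * Bj Cw δ (Nat.log 4 m) := by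
  obtain ⟨j, hj⟩ : ∃ j, j = Nat.log 4 m := ⟨_, rfl⟩
  rw [← hj]
  have hm0 : (0 : ℝ) < m := by exact_mod_cast hm
  obtain ⟨y, hy⟩ : ∃ y, y = √(m : ℝ) := ⟨_, rfl⟩
  have hy0 : 0 < y := by rw [hy]; exact Real.sqrt_pos.2 hm0
  have h1 : (2 : ℝ) ^ j ≤ y := by
    rw [hy]
    apply Real.le_sqrt_of_sq_le
    have : 4 ^ j ≤ m := by rw [hj]; exact Nat.pow_log_le_self 4 (by omega)
    calc ((2 : ℝ) ^ j) ^ 2 = ((4 ^ j : ℕ) : ℝ) := by
          rw [← pow_mul, mul_comm, pow_mul]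
          norm_num
      _ ≤ m := by exact_mod_cast this
  have h2 : (0 : ℝ) < 2 ^ j := by positivity
  unfold bw Bj
  rw [← hy, mul_pow, rp hy0]
  apply mul_le_mul _ _ (by positivity) (by positivity)
  · exact inv_anti₀ (by positivity) (pow_le_pow_left₀ h2.le h1 3)
  · apply le_min
    · have h3 : min 1 (Cw * (y * δ) ^ (-(3 / 2) : ℝ)) ≤ 1 := min_le_left _ _
      have h4 : 0 ≤ min 1 (Cw * (y * δ) ^ (-(3 / 2) : ℝ)) := by positivity
      exact pow_le_one₀ h4 h3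
    · have h3 : min 1 (Cw * (y * δ) ^ (-(3 / 2) : ℝ)) ≤ Cw * (y * δ) ^ (-(3 / 2) : ℝ) := min_le_right _ _
      have h4 : 0 ≤ min 1 (Cw * (y * δ) ^ (-(3 / 2) : ℝ)) := by positivity
      refine (pow_le_pow_left₀ h4 h3 2).trans ?_
      rw [mul_pow, rp (by positivity)]
      apply mul_le_mul_of_nonneg_left _ (by positivity)
      apply inv_anti₀ (by positivity)
      apply pow_le_pow_left₀ (by positivity)
      exact mul_le_mul_of_nonneg_right h1 hδ.le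

/-- the number of blocks -/
lemma log_sum (Cw : ℝ) {δ : ℝ} (hδ : 0 < δ) (hδ1 : δ ≤ 1 / 2) (J : ℕ) :
    ∑ j ∈ range J, Bj Cw δ j ≤ 3 * (1 + Cw ^ 2) * Real.log (1 / δ) := by
  obtain ⟨L, hL⟩ : ∃ L, L = Real.log (1 / δ) := ⟨_, rfl⟩
  have hl2 := Real.log_two_gt_d9
  have hl2' := Real.log_two_lt_d9
  have hL1 : Real.log 2 ≤ L := by
    rw [hL]
    apply Real.log_le_log (by norm_num)
    rw [le_div_iff₀ hδ]
    linarith
  obtain ⟨J0, hJ0⟩ : ∃ J0, J0 = ⌈L / Real.log 2⌉₊ := ⟨_, rfl⟩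
  have h1 : L / Real.log 2 ≤ J0 := by rw [hJ0]; exact Nat.le_ceil _
  have h2 : (J0 : ℝ) < L / Real.log 2 + 1 := by rw [hJ0]; exact Nat.ceil_lt_add_one (by apply div_nonneg <;> linarith)
  have h3 : 1 ≤ 2 ^ J0 * δ := by
    have e1 : L ≤ J0 * Real.log 2 := by rwa [div_le_iff₀ (by linarith)] at h1
    rw [hL, ← Real.log_pow, Real.log_le_log_iff (by positivity) (by positivity), div_le_iff₀ hδ] at e1
    exact e1
  have hsplit : range J ⊆ range J0 ∪ Ico J0 (J0 + J) := by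
    intro j hj
    rw [mem_range] at hj
    rw [mem_union, mem_range, mem_Ico]
    omega
  have h4 : ∑ j ∈ range J, Bj Cw δ j ≤ ∑ j ∈ range J0, Bj Cw δ j + ∑ j ∈ Ico J0 (J0 + J), Bj Cw δ j :=
    (sum_le_sum_of_subset_of_nonneg hsplit fun j _ _ => Bj_nonneg Cw hδ j).trans
      (union_le _ _ _ fun j => Bj_nonneg Cw hδ j)
  have h5 : ∑ j ∈ range J0, Bj Cw δ j ≤ J0 := by
    calc ∑ j ∈ range J0, Bj Cw δ j ≤ ∑ j ∈ range J0, (1 : ℝ) := sum_le_sum fun j _ => min_le_left _ _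
      _ = J0 := by simp
  have h6 : ∑ j ∈ Ico J0 (J0 + J), Bj Cw δ j ≤ 2 * Cw ^ 2 := by
    rw [sum_Ico_eq_sum_range, Nat.add_sub_cancel_left]
    have e1 : ∀ i ∈ range J, Bj Cw δ (J0 + i) ≤ Cw ^ 2 * (1 / 2) ^ i := by
      intro i _
      refine (min_le_right _ _).trans ?_
      apply mul_le_mul_of_nonneg_left _ (sq_nonneg _)
      have e2 : (2 : ℝ) ^ i ≤ (2 ^ (J0 + i) * δ) ^ 3 := by
        have e3 : (2 : ℝ) ^ i ≤ 2 ^ (J0 + i) * δ := by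
          rw [pow_add]
          have : (0 : ℝ) < 2 ^ i := by positivity
          nlinarith
        have e4 : (1 : ℝ) ≤ 2 ^ i := one_le_pow₀ (by norm_num)
        have e5 : 1 ≤ 2 ^ (J0 + i) * δ := e4.trans e3
        calc (2 : ℝ) ^ i ≤ 2 ^ (J0 + i) * δ := e3
          _ ≤ (2 ^ (J0 + i) * δ) ^ 3 := le_self_pow₀ e5 (by norm_num)
      calc ((2 ^ (J0 + i) * δ) ^ 3)⁻¹ ≤ ((2 : ℝ) ^ i)⁻¹ := inv_anti₀ (by positivity) e2
        _ = (1 / 2) ^ i := by rw [one_div, inv_pow]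
    refine (sum_le_sum e1).trans ?_
    rw [← mul_sum]
    have e6 : ∑ i ∈ range J, (1 / 2 : ℝ) ^ i ≤ 2 := by
      have := (summable_geometric_of_lt_one (by norm_num : (0 : ℝ) ≤ 1 / 2) (by norm_num)).sum_le_tsum (range J) (fun i _ => by positivity)
      rw [tsum_geometric_of_lt_one (by norm_num) (by norm_num)] at this
      norm_num at this ⊢
      exact this
    nlinarith [sq_nonneg Cw]
  have h7 : (J0 : ℝ) ≤ 3 * L := by
    have e1 : L / Real.log 2 ≤ 1.45 * L := by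
      rw [div_le_iff₀ (by linarith)]
      nlinarith
    nlinarith
  rw [← hL]
  have h8 : 2 * Cw ^ 2 ≤ 3 * Cw ^ 2 * L := by nlinarith [sq_nonneg Cw]
  linarith

variable {r : ℕ → ℝ}

/-- the off-diagonal sum -/
theorem off_sum (hr : Rep r) (hr0 : ∀ m, 0 ≤ r m) {D : ℝ} (hD0 : 0 ≤ D)
    (hD : ∀ S : Finset ℕ, (∀ m ∈ S, 1 ≤ m) → ∑ m ∈ S, r m * (1 / (m : ℝ) ^ 2) ≤ D)
    {Cw δ H : ℝ} (hCw : 0 ≤ Cw) (hδ : 0 < δ) (hδ1 : δ ≤ 1 / 2) (hH : 1 ≤ H) (c : ℕ → ℝ) (hc0 : ∀ m, 0 ≤ c m)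
    (hc : ∀ m, 1 ≤ m → c m ≤ r m * bw Cw δ m) (S : Finset ℕ) (hS : ∀ m ∈ S, 1 ≤ m) :
    ∑ m ∈ S, ∑ m' ∈ S.filter (fun m' => m' ≠ m), c m * c m' * G H m m' ≤
      24 * (1 + Cw ^ 2) * (13824 + 81 * D) * (Real.log (1 / δ) / H) := by
  have hH0 : 0 < H := by linarith
  obtain ⟨b, hb⟩ : ∃ b, b = bw Cw δ := ⟨_, rfl⟩
  have hb0 : ∀ m, 0 ≤ b m := fun m => by rw [hb]; exact bw_nonneg hCw hδ m
  obtain ⟨Q, hQ⟩ : ∃ Q : ℕ → ℝ, Q = fun m => ∑ m' ∈ S.filter (fun m' => m' ≠ m), r m' * G H m m' := ⟨_, rfl⟩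
  have hQ0 : ∀ m, 0 ≤ Q m := fun m => by rw [hQ]; exact sum_nonneg fun m' _ => mul_nonneg (hr0 _) (G_nonneg _ _ _)
  -- symmetrisation
  have h1 : ∑ m ∈ S, ∑ m' ∈ S.filter (fun m' => m' ≠ m), c m * c m' * G H m m' ≤
      ∑ m ∈ S, ∑ m' ∈ S.filter (fun m' => m' ≠ m), (r m * r m' * G H m m' * (b m ^ 2 / 2) + r m * r m' * G H m m' * (b m' ^ 2 / 2)) := by
    refine sum_le_sum fun m hm => sum_le_sum fun m' hm' => ?_
    have hm1 := hS m hm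
    have hm1' := hS m' (mem_filter.1 hm').1
    have e1 : c m * c m' ≤ (r m * b m) * (r m' * b m') := by
      rw [hb]
      exact mul_le_mul (hc m hm1) (hc m' hm1') (hc0 _) (mul_nonneg (hr0 _) (bw_nonneg hCw hδ m))
    have e2 : b m * b m' ≤ b m ^ 2 / 2 + b m' ^ 2 / 2 := by nlinarith [sq_nonneg (b m - b m')]
    calc c m * c m' * G H m m' ≤ (r m * b m) * (r m' * b m') * G H m m' := mul_le_mul_of_nonneg_right e1 (G_nonneg _ _ _)
      _ = r m * r m' * G H m m' * (b m * b m') := by ring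
      _ ≤ r m * r m' * G H m m' * (b m ^ 2 / 2 + b m' ^ 2 / 2) :=
          mul_le_mul_of_nonneg_left e2 (mul_nonneg (mul_nonneg (hr0 _) (hr0 _)) (G_nonneg _ _ _))
      _ = _ := by ring
  have h2 : ∑ m ∈ S, ∑ m' ∈ S.filter (fun m' => m' ≠ m), r m * r m' * G H m m' * (b m' ^ 2 / 2) =
      ∑ m ∈ S, ∑ m' ∈ S.filter (fun m' => m' ≠ m), r m * r m' * G H m m' * (b m ^ 2 / 2) := by
    simp only [sum_filter]
    rw [sum_comm]
    refine sum_congr rfl fun m _ => sum_congr rfl fun m' _ => ?_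
    by_cases h : m = m'
    · rw [if_neg (by simp [h]), if_neg (by simp [h])]
    · rw [if_pos h, if_pos (fun h' => h h'.symm), G_symm]
      ring
  have h3 : ∑ m ∈ S, ∑ m' ∈ S.filter (fun m' => m' ≠ m), c m * c m' * G H m m' ≤ ∑ m ∈ S, b m ^ 2 * (r m * Q m) := by
    refine h1.trans ?_
    simp only [sum_add_distrib]
    rw [h2, ← sum_add_distrib]
    refine sum_le_sum fun m _ => ?_
    rw [hQ]
    simp only [mul_sum]
    rw [← sum_add_distrib]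
    refine sum_le_sum fun m' _ => le_of_eq ?_
    ring
  refine h3.trans ?_
  -- the blocks
  obtain ⟨J, hJ⟩ : ∃ J, J = S.sup id + 1 := ⟨_, rfl⟩
  have hJm : ∀ m ∈ S, Nat.log 4 m < J := by
    intro m hm
    have e1 : m ≤ S.sup id := le_sup (f := id) hm
    have e2 : Nat.log 4 m ≤ m := Nat.log_le_self 4 m
    omega
  have h4 : ∀ m ∈ S, b m ^ 2 * (r m * Q m) ≤
      ∑ j ∈ range J, if m < 4 ^ (j + 1) then ((2 ^ j) ^ 3)⁻¹ * Bj Cw δ j * (r m * Q m) else 0 := by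
    intro m hm
    have hrQ : 0 ≤ r m * Q m := mul_nonneg (hr0 _) (hQ0 _)
    have e1 := bw_sq hCw hδ (hS m hm)
    rw [← hb] at e1
    have e2 := mul_le_mul_of_nonneg_right e1 hrQ
    refine e2.trans ?_
    have e3 : m < 4 ^ (Nat.log 4 m + 1) := Nat.lt_pow_succ_log_self (by norm_num) m
    have e4 := single_le_sum (f := fun j => if m < 4 ^ (j + 1) then ((2 ^ j) ^ 3)⁻¹ * Bj Cw δ j * (r m * Q m) else 0)
      (s := range J) (fun j _ => by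
        split_ifs
        · exact mul_nonneg (mul_nonneg (by positivity) (Bj_nonneg Cw hδ j)) hrQ
        · exact le_rfl) (mem_range.2 (hJm m hm))
    simp only [if_pos e3] at e4
    exact e4
  refine (sum_le_sum h4).trans ?_
  rw [sum_comm]
  have h5 : ∀ j ∈ range J, ∑ m ∈ S, (if m < 4 ^ (j + 1) then ((2 ^ j) ^ 3)⁻¹ * Bj Cw δ j * (r m * Q m) else 0) ≤
      8 * (13824 + 81 * D) / H * Bj Cw δ j := by
    intro j _
    rw [← sum_filter, ← mul_sum]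
    have e1 : ∑ m ∈ S.filter (fun m => m < 4 ^ (j + 1)), r m * Q m ≤ ∑ m ∈ Ico 1 (4 ^ (j + 1)), r m * Q m := by
      apply sum_le_sum_of_subset_of_nonneg _ (fun m _ _ => mul_nonneg (hr0 _) (hQ0 _))
      intro m hm
      rw [mem_filter] at hm
      rw [mem_Ico]
      exact ⟨hS m hm.1, hm.2⟩
    have e2 := T_bound hr hr0 hD0 hD hH (X := 4 ^ (j + 1)) (Nat.one_le_pow _ _ (by norm_num)) S hS
    have e3 : √(((4 ^ (j + 1) : ℕ) : ℝ)) = 2 ^ (j + 1) := by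
      rw [show (((4 ^ (j + 1) : ℕ) : ℝ)) = (2 ^ (j + 1)) ^ 2 by
        push_cast
        rw [← pow_mul, mul_comm, pow_mul]
        norm_num]
      exact Real.sqrt_sq (by positivity)
    rw [e3] at e2
    have e4 : ∑ m ∈ Ico 1 (4 ^ (j + 1)), r m * Q m ≤ (13824 + 81 * D) * (2 ^ (j + 1)) ^ 3 / H := by
      rw [hQ]
      exact e2
    calc ((2 ^ j) ^ 3)⁻¹ * Bj Cw δ j * ∑ m ∈ S.filter (fun m => m < 4 ^ (j + 1)), r m * Q m
        ≤ ((2 ^ j) ^ 3)⁻¹ * Bj Cw δ j * ((13824 + 81 * D) * (2 ^ (j + 1)) ^ 3 / H) :=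
          mul_le_mul_of_nonneg_left (e1.trans e4) (mul_nonneg (by positivity) (Bj_nonneg Cw hδ j))
      _ = 8 * (13824 + 81 * D) / H * Bj Cw δ j := by
          rw [pow_succ]
          field_simp
          ring
  refine (sum_le_sum h5).trans ?_
  rw [← mul_sum]
  have h6 := log_sum Cw hδ hδ1 J
  calc 8 * (13824 + 81 * D) / H * ∑ j ∈ range J, Bj Cw δ j
      ≤ 8 * (13824 + 81 * D) / H * (3 * (1 + Cw ^ 2) * Real.log (1 / δ)) := mul_le_mul_of_nonneg_left h6 (by positivity)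
    _ = _ := by ring

end Pool.Agent.H648_sw
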