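import Mathlib

set_option autoImplicit false

/-! Pairs of vectors of the integer lattice in the plane with a small non-zero inner product. -/

namespace Pool.Agent.H648_sw

open Finset

lemma union_le {α : Type} [DecidableEq α] (S T : Finset α) (f : α → ℝ) (hf : ∀ x, 0 ≤ f x) :
    ∑ x ∈ S ∪ T, f x ≤ ∑ x ∈ S, f x + ∑ x ∈ T, f x := by
  rw [← sum_union_inter]
  linarith [sum_nonneg fun x (_ : x ∈ S ∩ T) => hf x]

/-- the kernel `A² / (A² + h²)` -/
noncomputable def ph (A : ℝ) (h : ℤ) : ℝ := A ^ 2 / (A ^ 2 + (h : ℝ) ^ 2)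

lemma ph_nonneg (A : ℝ) (h : ℤ) : 0 ≤ ph A h := by
  unfold ph
  positivity

lemma ph_neg (A : ℝ) (h : ℤ) : ph A (-h) = ph A h := by
  unfold ph
  push_cast
  rw [neg_sq]

/-- the square box -/
noncomputable def bx (N : ℕ) : Finset (ℤ × ℤ) := Icc (-(N : ℤ)) N ×ˢ Icc (-(N : ℤ)) N

lemma mem_bx {N : ℕ} {u : ℤ × ℤ} : u ∈ bx N ↔ |u.1| ≤ N ∧ |u.2| ≤ N := by
  unfold bx
  rw [mem_product, mem_Icc, mem_Icc, abs_le, abs_le]

lemma card_bx (N : ℕ) : (bx N).card = (2 * N + 1) ^ 2 := by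
  unfold bx
  rw [card_product, Int.card_Icc, sq]
  congr 1 <;> omega

/-- the sum over the multiples -/
lemma ksum {B : ℝ} (hB : 0 < B) (K : ℕ) : ∑ k ∈ Icc 1 K, B ^ 2 / (B ^ 2 + (k : ℝ) ^ 2) ≤ 3 * B := by
  obtain ⟨n, hn⟩ : ∃ n, n = ⌊B⌋₊ := ⟨_, rfl⟩
  have hn1 : (n : ℝ) ≤ B := by rw [hn]; exact Nat.floor_le hB.le
  have hn2 : B < n + 1 := by rw [hn]; exact Nat.lt_floor_add_one B
  have hsub : Icc 1 K ⊆ Icc 1 n ∪ Ioo n (K + 1) := by
    intro k hk
    rw [mem_Icc] at hk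
    rw [mem_union, mem_Icc, mem_Ioo]
    omega
  have h1 : ∑ k ∈ Icc 1 K, B ^ 2 / (B ^ 2 + (k : ℝ) ^ 2) ≤
      ∑ k ∈ Icc 1 n, B ^ 2 / (B ^ 2 + (k : ℝ) ^ 2) + ∑ k ∈ Ioo n (K + 1), B ^ 2 / (B ^ 2 + (k : ℝ) ^ 2) :=
    (sum_le_sum_of_subset_of_nonneg hsub fun k _ _ => by positivity).trans
      (union_le _ _ _ fun k => by positivity)
  have h2 : ∑ k ∈ Icc 1 n, B ^ 2 / (B ^ 2 + (k : ℝ) ^ 2) ≤ B := by
    calc ∑ k ∈ Icc 1 n, B ^ 2 / (B ^ 2 + (k : ℝ) ^ 2) ≤ ∑ k ∈ Icc 1 n, (1 : ℝ) :=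
          sum_le_sum fun k _ => by
            rw [div_le_one (by positivity)]
            nlinarith [sq_nonneg (k : ℝ)]
      _ = n := by simp
      _ ≤ B := hn1
  have h3 : ∑ k ∈ Ioo n (K + 1), B ^ 2 / (B ^ 2 + (k : ℝ) ^ 2) ≤ 2 * B := by
    calc ∑ k ∈ Ioo n (K + 1), B ^ 2 / (B ^ 2 + (k : ℝ) ^ 2) ≤ ∑ k ∈ Ioo n (K + 1), B ^ 2 * ((k : ℝ) ^ 2)⁻¹ := by
          refine sum_le_sum fun k hk => ?_
          rw [mem_Ioo] at hk
          have hk0 : (0 : ℝ) < k := by exact_mod_cast (by omega : 0 < k)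
          rw [← div_eq_mul_inv]
          exact div_le_div_of_nonneg_left (by positivity) (by positivity) (by nlinarith [sq_nonneg B])
      _ = B ^ 2 * ∑ k ∈ Ioo n (K + 1), ((k : ℝ) ^ 2)⁻¹ := by rw [mul_sum]
      _ ≤ B ^ 2 * (2 / (n + 1)) := mul_le_mul_of_nonneg_left (sum_Ioo_inv_sq_le n (K + 1)) (by positivity)
      _ ≤ 2 * B := by
          have hn3 : (0 : ℝ) < n + 1 := by positivity
          rw [mul_div_assoc', div_le_iff₀ hn3]
          nlinarith
  linarith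

/-- the sum over the non-zero multiples of `g` -/
lemma gsum {A : ℝ} (hA : 0 < A) {g : ℕ} (hg : 0 < g) (K : ℕ) :
    ∑ k ∈ (Icc (-(K : ℤ)) K).filter (fun k => k ≠ 0), ph A (g * k) ≤ 6 * A / g := by
  have hg0 : (0 : ℝ) < g := by exact_mod_cast hg
  have hsub : (Icc (-(K : ℤ)) K).filter (fun k => k ≠ 0) ⊆
      (Icc 1 K).image (fun k : ℕ => (k : ℤ)) ∪ (Icc 1 K).image (fun k : ℕ => -(k : ℤ)) := by
    intro k hk
    rw [mem_filter, mem_Icc] at hk
    rw [mem_union, mem_image, mem_image]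
    rcases lt_or_gt_of_ne hk.2 with h | h
    · right
      exact ⟨k.natAbs, by rw [mem_Icc]; omega, by omega⟩
    · left
      exact ⟨k.natAbs, by rw [mem_Icc]; omega, by omega⟩
  have hval : ∀ k : ℕ, ph A ((g : ℤ) * k) = (A / g) ^ 2 / ((A / g) ^ 2 + (k : ℝ) ^ 2) := by
    intro k
    unfold ph
    push_cast
    field_simp
  have h0 := ksum (show 0 < A / g by positivity) K
  have h1 : ∑ k ∈ (Icc 1 K).image (fun k : ℕ => (k : ℤ)), ph A (g * k) ≤ 3 * (A / g) := by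
    rw [sum_image (by intro x _ y _ h; simpa using h)]
    simp only [hval]
    exact h0
  have h2 : ∑ k ∈ (Icc 1 K).image (fun k : ℕ => -(k : ℤ)), ph A (g * k) ≤ 3 * (A / g) := by
    rw [sum_image (by intro x _ y _ h; simpa using h)]
    simp only [mul_neg, ph_neg, hval]
    exact h0
  calc _ ≤ ∑ k ∈ (Icc 1 K).image (fun k : ℕ => (k : ℤ)), ph A (g * k) +
        ∑ k ∈ (Icc 1 K).image (fun k : ℕ => -(k : ℤ)), ph A (g * k) :=
        (sum_le_sum_of_subset_of_nonneg hsub fun k _ _ => ph_nonneg _ _).trans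
          (union_le _ _ _ fun k => ph_nonneg _ _)
    _ ≤ 3 * (A / g) + 3 * (A / g) := add_le_add h1 h2
    _ = 6 * A / g := by ring

/-- integers of an interval in one residue class -/
lemma card_class {N P : ℕ} (hP : 0 < P) (S : Finset ℤ) (hS : ∀ x ∈ S, |x| ≤ N)
    (hd : ∀ x ∈ S, ∀ y ∈ S, (P : ℤ) ∣ x - y) : S.card ≤ 2 * N / P + 1 := by
  rcases S.eq_empty_or_nonempty with h | h
  · rw [h]
    simp
  · have hx0 := S.min'_mem h
    set x0 := S.min' h with hx0d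
    have hP0 : (0 : ℤ) < P := by exact_mod_cast hP
    have hmap : ∀ x ∈ S, ((x - x0) / P).toNat ∈ range (2 * N / P + 1) := by
      intro x hx
      have h1 : x0 ≤ x := S.min'_le x hx
      have h2 := abs_le.1 (hS x hx)
      have h3 := abs_le.1 (hS x0 hx0)
      rw [mem_range, Nat.lt_succ_iff]
      have h4 : (x - x0) / (P : ℤ) ≤ (2 * N : ℤ) / P := Int.ediv_le_ediv hP0 (by linarith [h2.2, h3.1])
      have h5 : (2 * N : ℤ) / P = ((2 * N / P : ℕ) : ℤ) := by push_cast; rfl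
      rw [h5] at h4
      exact Int.toNat_le.2 h4
    have hinj : Set.InjOn (fun x : ℤ => ((x - x0) / P).toNat) (S : Set ℤ) := by
      intro x hx y hy hxy
      simp only at hxy
      have h1 : x0 ≤ x := S.min'_le x hx
      have h2 : x0 ≤ y := S.min'_le y hy
      obtain ⟨a, ha⟩ := hd x hx x0 hx0
      obtain ⟨b, hb⟩ := hd y hy x0 hx0
      have e1 : (x - x0) / (P : ℤ) = a := by rw [ha]; exact Int.mul_ediv_cancel_left _ hP0.ne'
      have e2 : (y - x0) / (P : ℤ) = b := by rw [hb]; exact Int.mul_ediv_cancel_left _ hP0.ne'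
      rw [e1, e2] at hxy
      have ha0 : 0 ≤ a := by
        by_contra hcon
        push Not at hcon
        nlinarith
      have hb0 : 0 ≤ b := by
        by_contra hcon
        push Not at hcon
        nlinarith
      have hab : a = b := by omega
      rw [hab] at ha
      linarith
    have := card_le_card_of_injOn (fun x : ℤ => ((x - x0) / P).toNat) hmap hinj
    rwa [card_range] at this

/-- the solutions of a linear equation in the box -/
lemma card_fiber {p q : ℤ} (hp : p ≠ 0) (N : ℕ) (h : ℤ) :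
    ((bx N).filter (fun t => p * t.1 + q * t.2 = h)).card ≤ 2 * N / (p.natAbs / Int.gcd p q) + 1 := by
  have hg : 0 < Int.gcd p q := Int.gcd_pos_of_ne_zero_left _ hp
  obtain ⟨p', hp'⟩ := Int.gcd_dvd_left (a := p) (b := q)
  obtain ⟨q', hq'⟩ := Int.gcd_dvd_right (a := p) (b := q)
  obtain ⟨g, hgd⟩ : ∃ g, g = Int.gcd p q := ⟨_, rfl⟩
  rw [← hgd] at hg hp' hq' ⊢
  have hg0 : (0 : ℤ) < g := by exact_mod_cast hg
  have hcop : IsCoprime p' q' := by
    rw [Int.isCoprime_iff_gcd_eq_one]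
    have h1 : Int.gcd p q = g * Int.gcd p' q' := by
      rw [hp', hq', Int.gcd_mul_left]
      simp
    rw [← hgd] at h1
    exact Nat.eq_of_mul_eq_mul_left hg (by rw [mul_one]; exact h1.symm)
  have hp0 : p' ≠ 0 := by
    rintro rfl
    rw [mul_zero] at hp'
    exact hp hp'
  have hPe : p.natAbs / g = p'.natAbs := by
    rw [hp', Int.natAbs_mul, Int.natAbs_natCast]
    exact Nat.mul_div_cancel_left _ hg
  rw [hPe]
  have hP : 0 < p'.natAbs := Int.natAbs_pos.2 hp0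
  have hinj : Set.InjOn (fun t : ℤ × ℤ => t.2) (((bx N).filter (fun t => p * t.1 + q * t.2 = h) : Finset (ℤ × ℤ)) : Set (ℤ × ℤ)) := by
    intro s hs t ht hst
    rw [mem_coe, mem_filter] at hs ht
    simp only at hst
    have h1 : p * s.1 = p * t.1 := by
      have := hs.2.trans ht.2.symm
      rw [hst] at this
      linarith
    exact Prod.ext (mul_left_cancel₀ hp h1) hst
  rw [← card_image_of_injOn hinj]
  apply card_class hP
  · intro x hx
    rw [mem_image] at hx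
    obtain ⟨t, ht, rfl⟩ := hx
    rw [mem_filter, mem_bx] at ht
    exact ht.1.2
  · intro x hx y hy
    rw [mem_image] at hx hy
    obtain ⟨t, ht, rfl⟩ := hx
    obtain ⟨s, hs, rfl⟩ := hy
    rw [mem_filter] at ht hs
    have h1 : (g : ℤ) * (p' * (t.1 - s.1) + q' * (t.2 - s.2)) = 0 := by
      have := ht.2.trans hs.2.symm
      rw [hp', hq'] at this
      linear_combination this
    have h2 : p' * (t.1 - s.1) + q' * (t.2 - s.2) = 0 := by
      rcases mul_eq_zero.1 h1 with h3 | h3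
      · exact absurd h3 hg0.ne'
      · exact h3
    rw [Int.natAbs_dvd]
    apply hcop.dvd_of_dvd_mul_left
    exact ⟨-(t.1 - s.1), by linear_combination h2⟩

/-- the sum over the second vector -/
lemma inner_sum {A : ℝ} (hA : 0 < A) {p q : ℤ} (hp : p ≠ 0) (N : ℕ) :
    ∑ t ∈ (bx N).filter (fun t => p * t.1 + q * t.2 ≠ 0), ph A (p * t.1 + q * t.2) ≤
      6 * A * (2 * N / |(p : ℝ)| + 1) := by
  obtain ⟨g, hgd⟩ : ∃ g, g = Int.gcd p q := ⟨_, rfl⟩
  have hg : 0 < g := by rw [hgd]; exact Int.gcd_pos_of_ne_zero_left _ hp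
  have hg0 : (0 : ℝ) < g := by exact_mod_cast hg
  obtain ⟨T, hT⟩ : ∃ T, T = (bx N).filter (fun t => p * t.1 + q * t.2 ≠ 0) := ⟨_, rfl⟩
  obtain ⟨f, hf⟩ : ∃ f : ℤ × ℤ → ℤ, f = fun t => p * t.1 + q * t.2 := ⟨_, rfl⟩
  obtain ⟨n, hn⟩ : ∃ n : ℕ, n = 2 * N / (p.natAbs / Int.gcd p q) + 1 := ⟨_, rfl⟩
  have h1 : ∑ t ∈ T, ph A (f t) = ∑ h ∈ T.image f, ∑ t ∈ T.filter (fun t => f t = h), ph A (f t) :=
    (sum_fiberwise_of_maps_to (fun t ht => mem_image_of_mem f ht) _).symm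
  have h2 : ∀ h ∈ T.image f, ∑ t ∈ T.filter (fun t => f t = h), ph A (f t) ≤ n * ph A h := by
    intro h _
    have e1 : ∑ t ∈ T.filter (fun t => f t = h), ph A (f t) = ∑ t ∈ T.filter (fun t => f t = h), ph A h :=
      sum_congr rfl fun t ht => by rw [(mem_filter.1 ht).2]
    rw [e1, sum_const, nsmul_eq_mul]
    apply mul_le_mul_of_nonneg_right _ (ph_nonneg _ _)
    have e2 : (T.filter (fun t => f t = h)).card ≤ n := by
      rw [hn]
      refine le_trans (card_le_card ?_) (card_fiber hp N h)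
      intro t ht
      rw [mem_filter, hT, mem_filter] at ht
      rw [mem_filter]
      rw [hf] at ht
      exact ⟨ht.1.1, ht.2⟩
    exact_mod_cast e2
  obtain ⟨K, hK⟩ : ∃ K : ℕ, K = p.natAbs * N + q.natAbs * N := ⟨_, rfl⟩
  have h3 : ∑ h ∈ T.image f, ph A h ≤ 6 * A / g := by
    refine le_trans ?_ (gsum hA hg K)
    rw [← sum_image (s := (Icc (-(K : ℤ)) K).filter (fun k => k ≠ 0)) (g := fun k : ℤ => (g : ℤ) * k) (f := ph A)]
    · apply sum_le_sum_of_subset_of_nonneg _ (fun k _ _ => ph_nonneg _ _)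
      intro h hh
      rw [mem_image] at hh
      obtain ⟨t, ht, rfl⟩ := hh
      rw [hT, mem_filter, mem_bx] at ht
      have hdvd : (g : ℤ) ∣ f t := by
        rw [hf, hgd]
        exact dvd_add (Dvd.dvd.mul_right (Int.gcd_dvd_left p q) _) (Dvd.dvd.mul_right (Int.gcd_dvd_right p q) _)
      obtain ⟨k, hk⟩ := hdvd
      rw [mem_image]
      refine ⟨k, ?_, hk.symm⟩
      have hft : f t ≠ 0 := by rw [hf]; exact ht.2
      have hk0 : k ≠ 0 := by
        rintro rfl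
        rw [mul_zero] at hk
        exact hft hk
      have hfK : |f t| ≤ K := by
        rw [hf, hK]
        simp only
        push_cast
        calc |p * t.1 + q * t.2| ≤ |p| * |t.1| + |q| * |t.2| := by
              rw [← abs_mul, ← abs_mul]
              exact abs_add_le _ _
          _ ≤ |p| * N + |q| * N := add_le_add (mul_le_mul_of_nonneg_left ht.1.1 (abs_nonneg _))
              (mul_le_mul_of_nonneg_left ht.1.2 (abs_nonneg _))
      have hkf : |k| ≤ |f t| := by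
        rw [hk, abs_mul]
        have : (1 : ℤ) ≤ |(g : ℤ)| := by
          rw [Nat.abs_cast]
          exact_mod_cast hg
        nlinarith [abs_nonneg k]
      rw [mem_filter, mem_Icc, ← abs_le]
      exact ⟨hkf.trans hfK, hk0⟩
    · intro x _ y _ hxy
      have : (g : ℤ) ≠ 0 := by exact_mod_cast hg.ne'
      exact mul_left_cancel₀ this hxy
  have h4 : ∑ t ∈ T, ph A (f t) ≤ n * (6 * A / g) := by
    rw [h1]
    refine (sum_le_sum h2).trans ?_
    rw [← mul_sum]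
    exact mul_le_mul_of_nonneg_left h3 (Nat.cast_nonneg _)
  have hp1 : 0 < |(p : ℝ)| := abs_pos.2 (by exact_mod_cast hp)
  have h5 : (n : ℝ) ≤ 2 * N * g / |(p : ℝ)| + 1 := by
    rw [hn]
    push_cast
    rw [← hgd]
    apply add_le_add_left
    have hdvd : g ∣ p.natAbs := by
      rw [hgd]
      exact Int.natCast_dvd.1 (Int.gcd_dvd_left p q)
    have e1 : ((2 * N / (p.natAbs / g) : ℕ) : ℝ) ≤ ((2 * N : ℕ) : ℝ) / ((p.natAbs / g : ℕ) : ℝ) := Nat.cast_div_le
    have e2 : ((p.natAbs / g : ℕ) : ℝ) = |(p : ℝ)| / g := by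
      rw [Nat.cast_div hdvd hg0.ne', Nat.cast_natAbs]
      push_cast
      rfl
    rw [e2] at e1
    refine e1.trans (le_of_eq ?_)
    push_cast
    field_simp
  have h6 : ∑ t ∈ T, ph A (f t) ≤ 6 * A * (2 * N / |(p : ℝ)| + 1) := by
    refine h4.trans ?_
    have hg1 : (1 : ℝ) ≤ g := by exact_mod_cast hg
    calc (n : ℝ) * (6 * A / g) ≤ (2 * N * g / |(p : ℝ)| + 1) * (6 * A / g) :=
          mul_le_mul_of_nonneg_right h5 (by positivity)
      _ = 6 * A * (2 * N / |(p : ℝ)| + 1 / g) := by field_simp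
      _ ≤ 6 * A * (2 * N / |(p : ℝ)| + 1) := by
          apply mul_le_mul_of_nonneg_left _ (by positivity)
          have : 1 / (g : ℝ) ≤ 1 := by rw [div_le_one hg0]; exact hg1
          linarith
  rw [hT, hf] at h6
  exact h6

/-- half of the pairs -/
lemma half_sum {A : ℝ} (hA : 0 < A) (N : ℕ) :
    ∑ s ∈ (bx N).filter (fun s => |s.2| ≤ |s.1| ∧ s.1 ≠ 0),
      ∑ t ∈ (bx N).filter (fun t => s.1 * t.1 + s.2 * t.2 ≠ 0), ph A (s.1 * t.1 + s.2 * t.2) ≤ 108 * A * N ^ 2 := by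
  have h1 : ∀ s ∈ (bx N).filter (fun s => |s.2| ≤ |s.1| ∧ s.1 ≠ 0),
      ∑ t ∈ (bx N).filter (fun t => s.1 * t.1 + s.2 * t.2 ≠ 0), ph A (s.1 * t.1 + s.2 * t.2) ≤
        6 * A * (2 * N / |(s.1 : ℝ)| + 1) := fun s hs => inner_sum hA (mem_filter.1 hs).2.2 N
  refine (sum_le_sum h1).trans ?_
  -- group by the first coordinate
  have h2 : ∑ s ∈ (bx N).filter (fun s => |s.2| ≤ |s.1| ∧ s.1 ≠ 0), 6 * A * (2 * N / |(s.1 : ℝ)| + 1) =
      ∑ p ∈ (Icc (-(N : ℤ)) N).filter (fun p => p ≠ 0),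
        ∑ s ∈ ((bx N).filter (fun s => |s.2| ≤ |s.1| ∧ s.1 ≠ 0)).filter (fun s => s.1 = p), 6 * A * (2 * N / |(s.1 : ℝ)| + 1) := by
    refine (sum_fiberwise_of_maps_to (fun s hs => ?_) _).symm
    rw [mem_filter, mem_bx] at hs
    rw [mem_filter, mem_Icc, ← abs_le]
    exact ⟨hs.1.1, hs.2.2⟩
  rw [h2]
  have h3 : ∀ p ∈ (Icc (-(N : ℤ)) N).filter (fun p => p ≠ 0),
      ∑ s ∈ ((bx N).filter (fun s => |s.2| ≤ |s.1| ∧ s.1 ≠ 0)).filter (fun s => s.1 = p), 6 * A * (2 * N / |(s.1 : ℝ)| + 1) ≤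
        54 * A * N := by
    intro p hp
    rw [mem_filter, mem_Icc, ← abs_le] at hp
    have hp0 : 0 < |(p : ℝ)| := abs_pos.2 (by exact_mod_cast hp.2)
    have hpN : |(p : ℝ)| ≤ N := by exact_mod_cast hp.1
    have hp1 : (1 : ℝ) ≤ |(p : ℝ)| := by
      have : (1 : ℤ) ≤ |p| := Int.one_le_abs hp.2
      exact_mod_cast this
    have e1 : ∑ s ∈ ((bx N).filter (fun s => |s.2| ≤ |s.1| ∧ s.1 ≠ 0)).filter (fun s => s.1 = p), 6 * A * (2 * N / |(s.1 : ℝ)| + 1) =
        ∑ s ∈ ((bx N).filter (fun s => |s.2| ≤ |s.1| ∧ s.1 ≠ 0)).filter (fun s => s.1 = p), 6 * A * (2 * N / |(p : ℝ)| + 1) :=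
      sum_congr rfl fun s hs => by rw [(mem_filter.1 hs).2]
    rw [e1, sum_const, nsmul_eq_mul]
    have e2 : (((bx N).filter (fun s => |s.2| ≤ |s.1| ∧ s.1 ≠ 0)).filter (fun s => s.1 = p)).card ≤ 2 * p.natAbs + 1 := by
      calc (((bx N).filter (fun s => |s.2| ≤ |s.1| ∧ s.1 ≠ 0)).filter (fun s => s.1 = p)).card ≤ (({p} : Finset ℤ) ×ˢ Icc (-|p|) |p|).card := by
            apply card_le_card
            intro s hs
            rw [mem_filter, mem_filter] at hs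
            rw [mem_product, mem_singleton, mem_Icc, ← abs_le]
            refine ⟨hs.2, ?_⟩
            rw [← hs.2]
            exact hs.1.2.1
        _ = 2 * p.natAbs + 1 := by
            rw [card_product, card_singleton, one_mul, Int.card_Icc, Int.abs_eq_natAbs]
            omega
    have e3 : ((((bx N).filter (fun s => |s.2| ≤ |s.1| ∧ s.1 ≠ 0)).filter (fun s => s.1 = p)).card : ℝ) ≤ 3 * |(p : ℝ)| := by
      have : ((((bx N).filter (fun s => |s.2| ≤ |s.1| ∧ s.1 ≠ 0)).filter (fun s => s.1 = p)).card : ℝ) ≤ 2 * (p.natAbs : ℝ) + 1 := by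
        exact_mod_cast e2
      rw [Nat.cast_natAbs] at this
      push_cast at this
      linarith
    calc _ ≤ 3 * |(p : ℝ)| * (6 * A * (2 * N / |(p : ℝ)| + 1)) := mul_le_mul_of_nonneg_right e3 (by positivity)
      _ = 18 * A * (2 * N + |(p : ℝ)|) := by field_simp; ring
      _ ≤ 54 * A * N := by nlinarith
  refine (sum_le_sum h3).trans ?_
  rw [sum_const, nsmul_eq_mul]
  have h4 : (((Icc (-(N : ℤ)) N).filter (fun p => p ≠ 0)).card : ℝ) ≤ 2 * N := by
    have e1 : ((Icc (-(N : ℤ)) N).filter (fun p => p ≠ 0)).card = 2 * N := by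
      rw [filter_ne', card_erase_of_mem (by rw [mem_Icc]; omega), Int.card_Icc]
      omega
    rw [e1]
    push_cast
    exact le_rfl
  calc _ ≤ 2 * N * (54 * A * N) := mul_le_mul_of_nonneg_right h4 (by positivity)
    _ = 108 * A * N ^ 2 := by ring

/-- **pairs of vectors with a small non-zero inner product** -/
theorem pair_sum {A : ℝ} (hA : 0 < A) (N : ℕ) :
    ∑ s ∈ bx N, ∑ t ∈ (bx N).filter (fun t => s.1 * t.1 + s.2 * t.2 ≠ 0), ph A (s.1 * t.1 + s.2 * t.2) ≤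
      216 * A * N ^ 2 := by
  have hsub : bx N ⊆ ((bx N).filter (fun s => |s.2| ≤ |s.1| ∧ s.1 ≠ 0) ∪
      (bx N).filter (fun s => |s.1| ≤ |s.2| ∧ s.2 ≠ 0)) ∪ {(0, 0)} := by
    intro s hs
    rw [mem_union, mem_union, mem_filter, mem_filter, mem_singleton]
    rcases le_total |s.2| |s.1| with h | h
    · by_cases h0 : s.1 = 0
      · right
        rw [h0, abs_zero] at h
        exact Prod.ext h0 (abs_nonpos_iff.1 h)
      · exact Or.inl (Or.inl ⟨hs, h, h0⟩)
    · by_cases h0 : s.2 = 0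
      · right
        rw [h0, abs_zero] at h
        exact Prod.ext (abs_nonpos_iff.1 h) h0
      · exact Or.inl (Or.inr ⟨hs, h, h0⟩)
  have hnn : ∀ s : ℤ × ℤ, 0 ≤ ∑ t ∈ (bx N).filter (fun t => s.1 * t.1 + s.2 * t.2 ≠ 0), ph A (s.1 * t.1 + s.2 * t.2) :=
    fun s => sum_nonneg fun t _ => ph_nonneg _ _
  have hswap : ∑ s ∈ (bx N).filter (fun s => |s.1| ≤ |s.2| ∧ s.2 ≠ 0),
      ∑ t ∈ (bx N).filter (fun t => s.1 * t.1 + s.2 * t.2 ≠ 0), ph A (s.1 * t.1 + s.2 * t.2) ≤ 108 * A * N ^ 2 := by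
    refine le_trans (le_of_eq ?_) (half_sum hA N)
    apply sum_nbij' (fun s => s.swap) (fun s => s.swap)
    · intro s hs
      rw [mem_filter, mem_bx] at hs ⊢
      exact ⟨⟨hs.1.2, hs.1.1⟩, hs.2⟩
    · intro s hs
      rw [mem_filter, mem_bx] at hs ⊢
      exact ⟨⟨hs.1.2, hs.1.1⟩, hs.2⟩
    · intro s _; rfl
    · intro s _; rfl
    · intro s _
      apply sum_nbij' (fun t => t.swap) (fun t => t.swap)
      · intro t ht
        rw [mem_filter, mem_bx] at ht ⊢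
        refine ⟨⟨ht.1.2, ht.1.1⟩, ?_⟩
        simp only [Prod.fst_swap, Prod.snd_swap]
        rw [add_comm]
        exact ht.2
      · intro t ht
        rw [mem_filter, mem_bx] at ht ⊢
        refine ⟨⟨ht.1.2, ht.1.1⟩, ?_⟩
        simp only [Prod.fst_swap, Prod.snd_swap] at ht ⊢
        rw [add_comm]
        exact ht.2
      · intro t _; rfl
      · intro t _; rfl
      · intro t _
        simp only [Prod.fst_swap, Prod.snd_swap]
        rw [add_comm]
  have hzero : ∑ s ∈ ({(0, 0)} : Finset (ℤ × ℤ)),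
      ∑ t ∈ (bx N).filter (fun t => s.1 * t.1 + s.2 * t.2 ≠ 0), ph A (s.1 * t.1 + s.2 * t.2) = 0 := by
    rw [sum_singleton]
    apply sum_eq_zero
    intro t ht
    exfalso
    apply (mem_filter.1 ht).2
    simp
  refine (sum_le_sum_of_subset_of_nonneg hsub fun s _ _ => hnn s).trans ?_
  refine (union_le _ _ _ hnn).trans ?_
  rw [hzero, add_zero]
  refine (union_le _ _ _ hnn).trans ?_
  have := half_sum hA N
  linarith

end Pool.Agent.H648_sw
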