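import Pool.Agent.H648_sw.Blk
import Pool.Agent.R461.GC.G1
import Pool.Agent.H383.CircD

set_option autoImplicit false

/-! The mean square of the tail of the Voronoi series of the circle problem with respect to Gaussian measures. -/

namespace Pool.Agent.H648_sw

open MeasureTheory Filter Topology Finset ProbabilityTheory
open Pool.Agent.R461.GC (ch norm_ch ch_cont ch_zero)
open Pool.Agent.H383.Gauss (Tl Tl_nonneg Tl_tendsto rA rA_nonneg rA_le_pow)
open Pool.Agent.H383.Gen (U Bd)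
open Pool.Agent.H383.GW (Wt wt abs_wt_le)
open Pool.Agent.H383.Circ (ag ag_Bd ag_nonneg rA_card)

/-- the mean square of an exponential polynomial -/
lemma quad_form (μ : Measure ℝ) [IsProbabilityMeasure μ] (S : Finset ℕ) (c : ℕ → ℂ) (l : ℕ → ℝ) :
    ∫ x, ‖∑ m ∈ S, c m * ch (l m) x‖ ^ 2 ∂μ ≤ ∑ m ∈ S, ∑ m' ∈ S, ‖c m‖ * ‖c m'‖ * ‖∫ x, ch (l m - l m') x ∂μ‖ := by
  have hint : ∀ θ : ℝ, Integrable (ch θ) μ := fun θ =>
    Integrable.of_bound (ch_cont θ).aestronglyMeasurable 1 (Eventually.of_forall fun x => (norm_ch θ x).le)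
  have h1 : ((∫ x, ‖∑ m ∈ S, c m * ch (l m) x‖ ^ 2 ∂μ : ℝ) : ℂ) =
      ∑ m ∈ S, ∑ m' ∈ S, (c m * (starRingEnd ℂ) (c m')) * ∫ x, ch (l m - l m') x ∂μ := by
    rw [← integral_complex_ofReal]
    have h2 : ∀ x, ((‖∑ m ∈ S, c m * ch (l m) x‖ ^ 2 : ℝ) : ℂ) =
        ∑ m ∈ S, ∑ m' ∈ S, (c m * (starRingEnd ℂ) (c m')) * ch (l m - l m') x := by
      intro x
      push_cast
      rw [← Complex.mul_conj', map_sum, sum_mul_sum]
      apply sum_congr rfl
      intro m _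
      apply sum_congr rfl
      intro m' _
      rw [map_mul]
      have h3 : ch (l m - l m') x = ch (l m) x * (starRingEnd ℂ) (ch (l m') x) := by
        unfold ch
        rw [← Complex.exp_conj, map_mul, Complex.conj_ofReal, Complex.conj_I, ← Complex.exp_add]
        congr 1
        push_cast
        ring
      rw [h3]
      ring
    simp_rw [h2]
    rw [integral_finsetSum]
    · apply sum_congr rfl
      intro m _
      rw [integral_finsetSum]
      · apply sum_congr rfl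
        intro m' _
        rw [integral_const_mul]
      · intro m' _
        exact (hint _).const_mul _
    · intro m _
      exact integrable_finsetSum _ fun m' _ => (hint _).const_mul _
  have h4 : 0 ≤ ∫ x, ‖∑ m ∈ S, c m * ch (l m) x‖ ^ 2 ∂μ := integral_nonneg fun x => by positivity
  have h5 : ‖((∫ x, ‖∑ m ∈ S, c m * ch (l m) x‖ ^ 2 ∂μ : ℝ) : ℂ)‖ = ∫ x, ‖∑ m ∈ S, c m * ch (l m) x‖ ^ 2 ∂μ := by
    rw [Complex.norm_real, Real.norm_eq_abs, abs_of_nonneg h4]
  rw [← h5, h1]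
  refine (norm_sum_le _ _).trans (sum_le_sum fun m _ => (norm_sum_le _ _).trans (sum_le_sum fun m' _ => ?_))
  rw [norm_mul, norm_mul, RCLike.norm_conj]

lemma rA_Rep : Rep rA := by
  intro N m hm
  rw [rA_card]
  congr 1
  apply Nat.subtype_card
  intro u
  rw [mem_filter, mem_bx]
  constructor
  · intro h
    have := nn_cast u
    rw [h.2] at this
    exact this.symm
  · intro h
    have h1 : nn u = m := by
      have := nn_cast u
      rw [h] at this
      exact_mod_cast this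
    have h2 : (m : ℤ) ≤ (N : ℤ) ^ 2 := by exact_mod_cast hm
    refine ⟨⟨?_, ?_⟩, h1⟩
    · apply abs_le_of_sq_le_sq _ (by positivity)
      nlinarith [sq_nonneg u.2]
    · apply abs_le_of_sq_le_sq _ (by positivity)
      nlinarith [sq_nonneg u.1]

lemma rA_D : ∃ D : ℝ, 0 ≤ D ∧ ∀ S : Finset ℕ, (∀ m ∈ S, 1 ≤ m) → ∑ m ∈ S, rA m * (1 / (m : ℝ) ^ 2) ≤ D := by
  obtain ⟨C, hC, hr⟩ := rA_le_pow
  have hs : Summable (fun k : ℕ => (k : ℝ) ^ (-(3 / 2) : ℝ)) := by
    rw [Real.summable_nat_rpow]; norm_num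
  refine ⟨C * ∑' k : ℕ, (k : ℝ) ^ (-(3 / 2) : ℝ), by
    apply mul_nonneg hC.le (tsum_nonneg fun k => by positivity), fun S hS => ?_⟩
  have h1 : ∀ m ∈ S, rA m * (1 / (m : ℝ) ^ 2) ≤ C * (m : ℝ) ^ (-(3 / 2) : ℝ) := by
    intro m hm
    have hm1 := hS m hm
    have hm0 : (0 : ℝ) < m := by exact_mod_cast hm1
    have hm1' : (1 : ℝ) ≤ m := by exact_mod_cast hm1
    have e1 := hr m hm1
    have e2 : (√(m : ℝ)) ^ (1 / 50 : ℝ) ≤ (m : ℝ) ^ (1 / 2 : ℝ) := by
      rw [Real.sqrt_eq_rpow, ← Real.rpow_mul hm0.le]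
      exact Real.rpow_le_rpow_of_exponent_le hm1' (by norm_num)
    have e3 : (m : ℝ) ^ (-(3 / 2) : ℝ) = (m : ℝ) ^ (1 / 2 : ℝ) * (1 / (m : ℝ) ^ 2) := by
      have e4 : (1 / (m : ℝ) ^ 2) = (m : ℝ) ^ (-2 : ℝ) := by
        rw [Real.rpow_neg hm0.le, one_div, Real.rpow_two]
      rw [e4, ← Real.rpow_add hm0]
      norm_num
    rw [e3, ← mul_assoc]
    apply mul_le_mul_of_nonneg_right _ (by positivity)
    exact e1.trans (mul_le_mul_of_nonneg_left e2 hC.le)
  refine (sum_le_sum h1).trans ?_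
  rw [← mul_sum]
  exact mul_le_mul_of_nonneg_left (hs.sum_le_tsum S fun k _ => by positivity) hC.le

/-- the Gaussian measure of width `H` -/
noncomputable def ga (x₀ H : ℝ) : Measure ℝ := gaussianReal x₀ (H ^ 2).toNNReal

instance (x₀ H : ℝ) : IsProbabilityMeasure (ga x₀ H) := by
  unfold ga
  infer_instance

lemma ga_ch (x₀ H θ : ℝ) : ‖∫ x, ch θ x ∂(ga x₀ H)‖ = Real.exp (-(H ^ 2 * θ ^ 2 / 2)) := by
  have h1 : ∫ x, ch θ x ∂(ga x₀ H) = charFun (gaussianReal x₀ (H ^ 2).toNNReal) θ := by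
    rw [charFun_apply_real]
    unfold ga ch
    congr 1
    funext x
    push_cast
    ring_nf
  rw [h1, charFun_gaussianReal, Complex.norm_exp]
  congr 1
  rw [Real.coe_toNNReal _ (sq_nonneg H)]
  simp [← Complex.ofReal_pow, ← Complex.ofReal_mul, Complex.sub_re, Complex.mul_re]

/-- **the mean square of the tail** -/
theorem tail_ga {w : ℝ → ℂ} (hw : Wt w) (φ κ : ℝ) : ∃ C : ℝ, 0 < C ∧ ∀ x₀ H δ : ℝ, 1 ≤ H → 0 < δ → δ ≤ 1 / 2 → ∀ M Y : ℕ, 1 ≤ M →
    ∫ x, (∑ m ∈ Ioc (M ^ 2) (Y ^ 2), wt ag φ w (x + κ * δ) δ m) ^ 2 ∂(ga x₀ H) ≤ C * (Tl M + Real.log (1 / δ) / H) := by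
  classical
  obtain ⟨A, hA, hAa⟩ := ag_Bd
  obtain ⟨Cw, hCw, hwd⟩ := hw.dec
  obtain ⟨D, hD0, hD⟩ := rA_D
  have hπ := Real.pi_gt_three
  refine ⟨A ^ 2 + 24 * (1 + Cw ^ 2) * (13824 + 81 * D), by positivity, fun x₀ H δ hH hδ hδ1 M Y hM => ?_⟩
  have hH0 : 0 < H := by linarith
  obtain ⟨S, hS⟩ : ∃ S, S = Ioc (M ^ 2) (Y ^ 2) := ⟨_, rfl⟩
  rw [← hS]
  obtain ⟨c, hc⟩ : ∃ c : ℕ → ℂ, c = fun m : ℕ => ((ag m : ℝ) : ℂ) * (Complex.exp (((2 * Real.pi * (κ * δ * √(m : ℝ)) - φ : ℝ) : ℂ) * Complex.I) * w (√(m : ℝ) * δ)) := ⟨_, rfl⟩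
  obtain ⟨l, hl⟩ : ∃ l : ℕ → ℝ, l = fun m : ℕ => 2 * Real.pi * √(m : ℝ) := ⟨_, rfl⟩
  have hSm : ∀ m ∈ S, 1 ≤ m ∧ M ^ 2 < m := by
    intro m hm
    rw [hS, mem_Ioc] at hm
    exact ⟨by omega, hm.1⟩
  -- the sum is a real part
  have hre : ∀ x, (∑ m ∈ S, wt ag φ w (x + κ * δ) δ m) ^ 2 ≤ ‖∑ m ∈ S, c m * ch (l m) x‖ ^ 2 := by
    intro x
    have h1 : ∑ m ∈ S, wt ag φ w (x + κ * δ) δ m = (∑ m ∈ S, c m * ch (l m) x).re := by
      rw [Complex.re_sum]
      apply sum_congr rfl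
      intro m _
      unfold wt
      rw [hc, hl]
      simp only
      rw [← Complex.re_ofReal_mul]
      congr 1
      unfold ch
      have e1 : Complex.exp (((2 * Real.pi * ((x + κ * δ) * √(m : ℝ)) - φ : ℝ) : ℂ) * Complex.I) =
          Complex.exp (((2 * Real.pi * (κ * δ * √(m : ℝ)) - φ : ℝ) : ℂ) * Complex.I) *
            Complex.exp (((2 * Real.pi * √(m : ℝ) * x : ℝ) : ℂ) * Complex.I) := by
        rw [← Complex.exp_add]
        congr 1
        push_cast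
        ring
      rw [e1]
      ring
    rw [h1, ← sq_abs]
    exact pow_le_pow_left₀ (abs_nonneg _) (Complex.abs_re_le_norm _) 2
  have hint : Integrable (fun x => ‖∑ m ∈ S, c m * ch (l m) x‖ ^ 2) (ga x₀ H) := by
    have hcont : Continuous (fun x => ‖∑ m ∈ S, c m * ch (l m) x‖ ^ 2) := by
      apply Continuous.pow
      apply Continuous.norm
      exact continuous_finsetSum _ fun m _ => continuous_const.mul (ch_cont _)
    refine Integrable.of_bound hcont.aestronglyMeasurable ((∑ m ∈ S, ‖c m‖) ^ 2) (Eventually.of_forall fun x => ?_)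
    rw [Real.norm_eq_abs, abs_of_nonneg (by positivity)]
    apply pow_le_pow_left₀ (norm_nonneg _)
    refine (norm_sum_le _ _).trans (sum_le_sum fun m _ => ?_)
    rw [norm_mul, norm_ch, mul_one]
  have h0 : ∫ x, (∑ m ∈ S, wt ag φ w (x + κ * δ) δ m) ^ 2 ∂(ga x₀ H) ≤ ∫ x, ‖∑ m ∈ S, c m * ch (l m) x‖ ^ 2 ∂(ga x₀ H) :=
    integral_mono_of_nonneg (Eventually.of_forall fun x => sq_nonneg _) hint (Eventually.of_forall hre)
  refine h0.trans ((quad_form (ga x₀ H) S c l).trans ?_)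
  -- the coefficients
  have hcn : ∀ m : ℕ, ‖c m‖ = ag m * ‖w (√(m : ℝ) * δ)‖ := by
    intro m
    rw [hc]
    simp only
    rw [norm_mul, norm_mul, Complex.norm_exp_ofReal_mul_I, one_mul, Complex.norm_real, Real.norm_eq_abs, abs_of_nonneg (ag_nonneg m)]
  have hc1 : ∀ m : ℕ, 1 ≤ m → ‖c m‖ ≤ rA m * bw Cw δ m := by
    intro m hm
    have hm0 : (0 : ℝ) < m := by exact_mod_cast hm
    have hsm : 0 < √(m : ℝ) := Real.sqrt_pos.2 hm0
    rw [hcn]
    have e1 := hw.one (√(m : ℝ) * δ) (by positivity)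
    have e2 := hwd (√(m : ℝ) * δ) (by positivity)
    have e3 : ag m ≤ rA m * (√(m : ℝ)) ^ (-(3 / 2) : ℝ) := by
      unfold Pool.Agent.H383.Circ.ag
      have := rA_nonneg m
      apply mul_le_mul_of_nonneg_right _ (by positivity)
      exact div_le_self this (by linarith)
    unfold bw
    rw [← mul_assoc]
    exact mul_le_mul e3 (le_min e1 e2) (norm_nonneg _) (mul_nonneg (rA_nonneg m) (by positivity))
  have hc2 : ∀ m : ℕ, 1 ≤ m → ‖c m‖ * ‖c m‖ ≤ A ^ 2 * (m : ℝ) ^ (-(101 / 100) : ℝ) := by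
    intro m hm
    have hm0 : (0 : ℝ) < m := by exact_mod_cast hm
    have hm1 : (1 : ℝ) ≤ m := by exact_mod_cast hm
    have hsm : 0 < √(m : ℝ) := Real.sqrt_pos.2 hm0
    have e1 := hw.one (√(m : ℝ) * δ) (by positivity)
    have e2 := hAa m hm
    rw [abs_of_nonneg (ag_nonneg m)] at e2
    have e3 : ‖c m‖ ≤ A * (√(m : ℝ)) ^ (-(37 / 25) : ℝ) := by
      rw [hcn]
      calc ag m * ‖w (√(m : ℝ) * δ)‖ ≤ ag m * 1 := mul_le_mul_of_nonneg_left e1 (ag_nonneg m)
        _ ≤ _ := by rw [mul_one]; exact e2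
    calc ‖c m‖ * ‖c m‖ ≤ (A * (√(m : ℝ)) ^ (-(37 / 25) : ℝ)) * (A * (√(m : ℝ)) ^ (-(37 / 25) : ℝ)) :=
          mul_le_mul e3 e3 (norm_nonneg _) (by positivity)
      _ = A ^ 2 * ((√(m : ℝ)) ^ (-(37 / 25) : ℝ) * (√(m : ℝ)) ^ (-(37 / 25) : ℝ)) := by ring
      _ ≤ A ^ 2 * (m : ℝ) ^ (-(101 / 100) : ℝ) := by
          apply mul_le_mul_of_nonneg_left _ (by positivity)
          rw [← Real.rpow_add hsm, Real.sqrt_eq_rpow, ← Real.rpow_mul hm0.le]
          exact Real.rpow_le_rpow_of_exponent_le hm1 (by norm_num)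
  -- the kernel
  have hker : ∀ m j : ℕ, ‖∫ x, ch (l m - l j) x ∂(ga x₀ H)‖ = G H m j := by
    intro m j
    rw [ga_ch, hl]
    unfold G
    congr 1
    ring
  have hsplit : ∀ m ∈ S, ∑ j ∈ S, ‖c m‖ * ‖c j‖ * ‖∫ x, ch (l m - l j) x ∂(ga x₀ H)‖ ≤
      A ^ 2 * (m : ℝ) ^ (-(101 / 100) : ℝ) + ∑ j ∈ S.filter (fun j => j ≠ m), ‖c m‖ * ‖c j‖ * G H m j := by
    intro m hm
    simp only [hker]
    rw [← sum_filter_add_sum_filter_not S (fun j => j ≠ m), add_comm]
    apply add_le_add_left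
    have e1 : S.filter (fun j => ¬ j ≠ m) = {m} := by
      ext j
      rw [mem_filter, mem_singleton, not_not]
      exact ⟨fun h => h.2, fun h => ⟨by rw [h]; exact hm, h⟩⟩
    rw [e1, sum_singleton]
    have e2 : G H m m = 1 := by unfold G; simp
    rw [e2, mul_one]
    exact hc2 m (hSm m hm).1
  refine (sum_le_sum hsplit).trans ?_
  rw [sum_add_distrib]
  have hdiagsum : ∑ m ∈ S, A ^ 2 * (m : ℝ) ^ (-(101 / 100) : ℝ) ≤ A ^ 2 * Tl M := by
    rw [← mul_sum]
    apply mul_le_mul_of_nonneg_left _ (by positivity)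
    have hs101 : Summable (fun k : ℕ => (k : ℝ) ^ (-(101 / 100) : ℝ)) := by
      rw [Real.summable_nat_rpow]; norm_num
    have h1 : Summable (fun q : ℕ => (((q + M : ℕ)) : ℝ) ^ (-(101 / 100) : ℝ)) := (summable_nat_add_iff M).2 hs101
    have h2 : ∑ m ∈ S, (m : ℝ) ^ (-(101 / 100) : ℝ) = ∑ q ∈ S.image (fun m => m - M), (((q + M : ℕ)) : ℝ) ^ (-(101 / 100) : ℝ) := by
      have hMM : ∀ m ∈ S, M ≤ m := by
        intro m hm
        obtain ⟨_, h3⟩ := hSm m hm
        have : M ≤ M ^ 2 := Nat.le_self_pow (by norm_num) M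
        omega
      rw [sum_image]
      · apply sum_congr rfl
        intro m hm
        rw [Nat.sub_add_cancel (hMM m hm)]
      · intro x hx y hy hxy
        have := hMM x hx
        have := hMM y hy
        simp only at hxy
        omega
    rw [h2]
    exact h1.sum_le_tsum _ fun q _ => by positivity
  have hoff := off_sum rA_Rep rA_nonneg hD0 hD hCw.le hδ hδ1 hH (fun m => ‖c m‖) (fun m => norm_nonneg _) hc1 S (fun m hm => (hSm m hm).1)
  have hTl := Tl_nonneg M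
  have hlog : 0 ≤ Real.log (1 / δ) / H := by
    apply div_nonneg _ hH0.le
    apply Real.log_nonneg
    rw [le_div_iff₀ hδ]
    linarith
  have h3 : 0 ≤ 24 * (1 + Cw ^ 2) * (13824 + 81 * D) := by positivity
  calc _ ≤ A ^ 2 * Tl M + 24 * (1 + Cw ^ 2) * (13824 + 81 * D) * (Real.log (1 / δ) / H) := add_le_add hdiagsum hoff
    _ ≤ _ := by nlinarith [mul_nonneg h3 hTl, mul_nonneg (sq_nonneg A) hlog]

/-! ### windows -/

/-- the uniform probability measure on the window from `R` to `R + H` -/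
noncomputable def wm (R H : ℝ) : Measure ℝ := ENNReal.ofReal (1 / H) • volume.restrict (Set.Ioc R (R + H))

lemma wm_prob {H : ℝ} (R : ℝ) (hH : 0 < H) : IsProbabilityMeasure (wm R H) := by
  constructor
  unfold wm
  rw [Measure.smul_apply, Measure.restrict_apply MeasurableSet.univ, Set.univ_inter, Real.volume_Ioc, smul_eq_mul,
    ← ENNReal.ofReal_mul (by positivity)]
  rw [show 1 / H * (R + H - R) = 1 by field_simp; ring]
  exact ENNReal.ofReal_one

lemma wm_int {E : Type} [NormedAddCommGroup E] [NormedSpace ℝ E] {H : ℝ} (R : ℝ) (hH : 0 < H) (f : ℝ → E) :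
    ∫ x, f x ∂(wm R H) = (1 / H) • ∫ x in R..(R + H), f x := by
  unfold wm
  rw [integral_smul_measure, intervalIntegral.integral_of_le (by linarith), ENNReal.toReal_ofReal (by positivity)]

lemma wm_supp {R H : ℝ} : ∀ᵐ x ∂(wm R H), R < x ∧ x ≤ R + H := by
  unfold wm
  apply Measure.ae_smul_measure
  exact ae_restrict_mem measurableSet_Ioc

/-- the window measure is dominated by the Gaussian measure -/
lemma wm_le_ga {R H : ℝ} (hH : 0 < H) {F : ℝ → ℝ} (hF : Continuous F) (hF0 : ∀ x, 0 ≤ F x) (hFb : ∃ B, ∀ x, F x ≤ B) :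
    ∫ x, F x ∂(wm R H) ≤ 3 * ∫ x, F x ∂(ga (R + H / 2) H) := by
  obtain ⟨B, hB⟩ := hFb
  have hv : (H ^ 2).toNNReal ≠ 0 := by
    intro h
    rw [Real.toNNReal_eq_zero] at h
    nlinarith [sq_pos_of_pos hH]
  unfold ga
  rw [integral_gaussianReal_eq_integral_smul hv, wm_int R hH, intervalIntegral.integral_of_le (by linarith)]
  have hpdf : ∀ x ∈ Set.Ioc R (R + H), 1 / (3 * H) ≤ gaussianPDFReal (R + H / 2) (H ^ 2).toNNReal x := by
    intro x hx
    unfold gaussianPDFReal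
    rw [Real.coe_toNNReal _ (sq_nonneg H)]
    have h1 : √(2 * Real.pi * H ^ 2) ≤ 2.51 * H := by
      rw [Real.sqrt_le_left (by positivity)]
      nlinarith [Real.pi_lt_d2, sq_pos_of_pos hH]
    have h2 : 0 < √(2 * Real.pi * H ^ 2) := Real.sqrt_pos.2 (by have := Real.pi_pos; positivity)
    have h3 : (x - (R + H / 2)) ^ 2 ≤ (H / 2) ^ 2 := by
      apply sq_le_sq'
      · linarith [hx.1]
      · linarith [hx.2]
    have h4 : 0.875 ≤ Real.exp (-(x - (R + H / 2)) ^ 2 / (2 * H ^ 2)) := by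
      have e1 : -(0.125 : ℝ) ≤ -(x - (R + H / 2)) ^ 2 / (2 * H ^ 2) := by
        rw [le_div_iff₀ (by positivity)]
        nlinarith
      have := Real.add_one_le_exp (-(x - (R + H / 2)) ^ 2 / (2 * H ^ 2))
      linarith
    calc 1 / (3 * H) ≤ (2.51 * H)⁻¹ * 0.875 := by
          rw [← one_div, div_mul_eq_mul_div, div_le_div_iff₀ (by positivity) (by positivity)]
          nlinarith
      _ ≤ (√(2 * Real.pi * H ^ 2))⁻¹ * Real.exp (-(x - (R + H / 2)) ^ 2 / (2 * H ^ 2)) :=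
          mul_le_mul (inv_anti₀ h2 h1) h4 (by norm_num) (by positivity)
  have hgint : Integrable (fun x => gaussianPDFReal (R + H / 2) (H ^ 2).toNNReal x • F x) := by
    refine Integrable.mono' ((integrable_gaussianPDFReal (R + H / 2) (H ^ 2).toNNReal).mul_const B) ?_ ?_
    · exact ((measurable_gaussianPDFReal _ _).mul hF.measurable).aestronglyMeasurable
    · refine Eventually.of_forall fun x => ?_
      rw [smul_eq_mul, Real.norm_eq_abs, abs_of_nonneg (mul_nonneg (gaussianPDFReal_nonneg _ _ _) (hF0 x))]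
      exact mul_le_mul_of_nonneg_left (hB x) (gaussianPDFReal_nonneg _ _ _)
  have h1 : ∫ x in Set.Ioc R (R + H), 1 / (3 * H) * F x ≤ ∫ x, gaussianPDFReal (R + H / 2) (H ^ 2).toNNReal x • F x := by
    refine le_trans ?_ (setIntegral_le_integral (s := Set.Ioc R (R + H)) hgint (Eventually.of_forall fun x => mul_nonneg (gaussianPDFReal_nonneg _ _ _) (hF0 x)))
    apply setIntegral_mono_on _ hgint.integrableOn measurableSet_Ioc
    · intro x hx
      exact mul_le_mul_of_nonneg_right (hpdf x hx) (hF0 x)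
    · exact ((hF.const_mul _).integrableOn_Icc (a := R) (b := R + H)).mono_set Set.Ioc_subset_Icc_self
  rw [integral_const_mul] at h1
  rw [smul_eq_mul]
  calc 1 / H * ∫ x in Set.Ioc R (R + H), F x = 3 * (1 / (3 * H) * ∫ x in Set.Ioc R (R + H), F x) := by
        field_simp
    _ ≤ _ := mul_le_mul_of_nonneg_left h1 (by norm_num)

end Pool.Agent.H648_sw
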