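import Pool.Agent.H648_sw.Cnt

set_option autoImplicit false

/-! Near diagonal sums of the numbers of representations as sums of two squares. -/

namespace Pool.Agent.H648_sw

open Finset

/-- the squared norm -/
noncomputable def nn (u : ℤ × ℤ) : ℕ := (u.1 ^ 2 + u.2 ^ 2).toNat

lemma nn_cast (u : ℤ × ℤ) : ((nn u : ℕ) : ℤ) = u.1 ^ 2 + u.2 ^ 2 := by
  unfold nn
  exact Int.toNat_of_nonneg (by positivity)

/-- `r m` is the number of lattice points of squared norm `m` -/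
def Rep (r : ℕ → ℝ) : Prop := ∀ N m : ℕ, m ≤ N ^ 2 → r m = (((bx N).filter (fun u => nn u = m)).card : ℝ)

variable {r : ℕ → ℝ}

lemma rep_sum (hr : Rep r) {N : ℕ} {I : Finset ℕ} (hI : ∀ m ∈ I, m ≤ N ^ 2) (f : ℕ → ℝ) :
    ∑ m ∈ I, r m * f m = ∑ u ∈ (bx N).filter (fun u => nn u ∈ I), f (nn u) := by
  rw [← sum_fiberwise_of_maps_to (s := (bx N).filter (fun u => nn u ∈ I)) (t := I) (g := nn)
    (fun u hu => (mem_filter.1 hu).2)]
  apply sum_congr rfl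
  intro m hm
  rw [hr N m (hI m hm), filter_filter]
  have h1 : (bx N).filter (fun u => nn u ∈ I ∧ nn u = m) = (bx N).filter (fun u => nn u = m) := by
    apply filter_congr
    intro u _
    constructor
    · exact fun h => h.2
    · exact fun h => ⟨by rw [h]; exact hm, h⟩
  rw [h1, sum_congr rfl (g := fun _ => f m) fun u hu => by rw [(mem_filter.1 hu).2], sum_const, nsmul_eq_mul]

/-- the Gaussian kernel -/
noncomputable def G (H : ℝ) (m m' : ℕ) : ℝ := Real.exp (-(2 * Real.pi ^ 2 * H ^ 2 * (√(m : ℝ) - √(m' : ℝ)) ^ 2))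

lemma G_nonneg (H : ℝ) (m m' : ℕ) : 0 ≤ G H m m' := (Real.exp_pos _).le

lemma G_symm (H : ℝ) (m m' : ℕ) : G H m m' = G H m' m := by
  unfold G
  congr 2
  ring

lemma pi_sq_ge : 9 ≤ Real.pi ^ 2 := by nlinarith [Real.pi_gt_three]

/-- the kernel near the diagonal -/
lemma G_near {H x : ℝ} (hH : 1 ≤ H) (hx : 0 < x) {m m' : ℕ} (hm : √(m : ℝ) ≤ x) (hm' : √(m' : ℝ) ≤ 2 * x) :
    G H m m' ≤ ph (x / H) ((m : ℤ) - m') := by
  have hH0 : 0 < H := by linarith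
  have hs := Real.sqrt_nonneg (m : ℝ)
  have hs' := Real.sqrt_nonneg (m' : ℝ)
  have e1 := Real.mul_self_sqrt (Nat.cast_nonneg m : (0 : ℝ) ≤ m)
  have e2 := Real.mul_self_sqrt (Nat.cast_nonneg m' : (0 : ℝ) ≤ m')
  obtain ⟨θ, hθ⟩ : ∃ θ, θ = √(m : ℝ) - √(m' : ℝ) := ⟨_, rfl⟩
  obtain ⟨y, hy⟩ : ∃ y, y = 2 * Real.pi ^ 2 * H ^ 2 * θ ^ 2 := ⟨_, rfl⟩
  have hy0 : 0 ≤ y := by rw [hy]; positivity
  have h1 : Real.exp (-y) ≤ 1 / (1 + y) := by
    rw [Real.exp_neg, ← one_div]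
    apply one_div_le_one_div_of_le (by linarith)
    linarith [Real.add_one_le_exp y]
  have h2 : ((m : ℝ) - m') ^ 2 ≤ 9 * x ^ 2 * θ ^ 2 := by
    have e3 : (m : ℝ) - m' = θ * (√(m : ℝ) + √(m' : ℝ)) := by rw [hθ]; linarith [e1, e2, show (√(m : ℝ) - √(m' : ℝ)) * (√(m : ℝ) + √(m' : ℝ)) = √(m : ℝ) * √(m : ℝ) - √(m' : ℝ) * √(m' : ℝ) by ring]
    have e4 : (√(m : ℝ) + √(m' : ℝ)) ^ 2 ≤ (3 * x) ^ 2 := pow_le_pow_left₀ (by linarith) (by linarith) 2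
    rw [e3, mul_pow]
    nlinarith [sq_nonneg θ]
  have h3 : H ^ 2 * ((m : ℝ) - m') ^ 2 / x ^ 2 ≤ y := by
    rw [div_le_iff₀ (by positivity), hy]
    have e5 : H ^ 2 * ((m : ℝ) - m') ^ 2 ≤ H ^ 2 * (9 * x ^ 2 * θ ^ 2) := mul_le_mul_of_nonneg_left h2 (by positivity)
    have e6 : H ^ 2 * (9 * x ^ 2 * θ ^ 2) ≤ 2 * Real.pi ^ 2 * H ^ 2 * θ ^ 2 * x ^ 2 := by
      have : 0 ≤ H ^ 2 * θ ^ 2 * x ^ 2 := by positivity
      nlinarith [pi_sq_ge]
    linarith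
  have h4 : ph (x / H) ((m : ℤ) - m') = 1 / (1 + H ^ 2 * ((m : ℝ) - m') ^ 2 / x ^ 2) := by
    unfold ph
    push_cast
    field_simp
  have h5 : G H m m' = Real.exp (-y) := by
    unfold G
    rw [hy, hθ]
  rw [h4, h5]
  refine h1.trans ?_
  apply one_div_le_one_div_of_le (by positivity)
  linarith

/-- the kernel away from the diagonal -/
lemma G_far {H : ℝ} (hH : 1 ≤ H) {m m' : ℕ} (hm' : 1 ≤ m') (h : 4 * m ≤ m') : G H m m' ≤ 1 / H * (1 / (m' : ℝ) ^ 2) := by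
  have hH0 : 0 < H := by linarith
  have hm0 : (0 : ℝ) < m' := by exact_mod_cast hm'
  have hs := Real.sqrt_nonneg (m : ℝ)
  have hs' := Real.sqrt_nonneg (m' : ℝ)
  have e1 := Real.mul_self_sqrt (Nat.cast_nonneg m : (0 : ℝ) ≤ m)
  have e2 := Real.mul_self_sqrt (Nat.cast_nonneg m' : (0 : ℝ) ≤ m')
  have e3 : √(m : ℝ) ≤ √(m' : ℝ) / 2 := by
    have h1 : (4 : ℝ) * m ≤ m' := by exact_mod_cast h
    nlinarith
  obtain ⟨y, hy⟩ : ∃ y, y = 2 * Real.pi ^ 2 * H ^ 2 * (√(m : ℝ) - √(m' : ℝ)) ^ 2 := ⟨_, rfl⟩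
  have h1 : 4 * H ^ 2 * m' ≤ y := by
    have e4 : (m' : ℝ) / 4 ≤ (√(m : ℝ) - √(m' : ℝ)) ^ 2 := by nlinarith
    rw [hy]
    have e5 : 2 * 9 * H ^ 2 * ((m' : ℝ) / 4) ≤ 2 * Real.pi ^ 2 * H ^ 2 * (√(m : ℝ) - √(m' : ℝ)) ^ 2 := by
      apply mul_le_mul _ e4 (by positivity) (by positivity)
      apply mul_le_mul_of_nonneg_right _ (by positivity)
      linarith [pi_sq_ge]
    have : 0 ≤ H ^ 2 * m' := by positivity
    linarith
  have hy0 : 0 < y := lt_of_lt_of_le (by positivity) h1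
  have h2 : Real.exp (-y) ≤ 2 / y ^ 2 := by
    rw [Real.exp_neg, ← one_div, div_le_div_iff₀ (Real.exp_pos _) (by positivity)]
    linarith [Real.quadratic_le_exp_of_nonneg hy0.le]
  have h3 : 2 / y ^ 2 ≤ 2 / (4 * H ^ 2 * m') ^ 2 :=
    div_le_div_of_nonneg_left (by norm_num) (by positivity) (pow_le_pow_left₀ (by positivity) h1 2)
  have h5 : G H m m' = Real.exp (-y) := by
    unfold G
    rw [hy]
  rw [h5]
  refine h2.trans (h3.trans ?_)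
  have h6 : 1 / H * (1 / (m' : ℝ) ^ 2) = 16 * H ^ 3 / (4 * H ^ 2 * m') ^ 2 := by
    field_simp
    norm_num
  rw [h6]
  apply div_le_div_of_nonneg_right _ (by positivity)
  have : 1 ≤ H ^ 3 := one_le_pow₀ hH
  linarith

/-- the near sum -/
lemma near (hr : Rep r) {H : ℝ} (hH : 1 ≤ H) {X : ℕ} (hX : 1 ≤ X) :
    ∑ m ∈ Ico 1 X, r m * ∑ m' ∈ (Ico 1 (4 * X)).filter (fun m' => m' ≠ m), r m' * G H m m' ≤
      13824 * (√(X : ℝ)) ^ 3 / H := by
  have hH0 : 0 < H := by linarith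
  have hX1 : (1 : ℝ) ≤ X := by exact_mod_cast hX
  obtain ⟨x, hx⟩ : ∃ x, x = √(X : ℝ) := ⟨_, rfl⟩
  have hx1 : 1 ≤ x := by rw [hx]; exact Real.one_le_sqrt.2 hX1
  have hx0 : 0 < x := by linarith
  have hxx : x * x = X := by rw [hx]; exact Real.mul_self_sqrt (by positivity)
  obtain ⟨N, hN⟩ : ∃ N, N = 2 * (Nat.sqrt X + 1) := ⟨_, rfl⟩
  have hN1 : 4 * X ≤ N ^ 2 := by
    have := Nat.lt_succ_sqrt X
    rw [hN]
    have h2 : (2 * (Nat.sqrt X + 1)) ^ 2 = 4 * (Nat.succ (Nat.sqrt X) * Nat.succ (Nat.sqrt X)) := by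
      rw [Nat.succ_eq_add_one]; ring
    rw [h2]
    omega
  have hN2 : (N : ℝ) ≤ 4 * x := by
    rw [hN]
    push_cast
    have : ((Nat.sqrt X : ℕ) : ℝ) ≤ x := by rw [hx]; exact Real.nat_sqrt_le_real_sqrt
    linarith
  have e1 : ∀ m ∈ Ico 1 X, ∑ m' ∈ (Ico 1 (4 * X)).filter (fun m' => m' ≠ m), r m' * G H m m' =
      ∑ v ∈ (bx N).filter (fun v => nn v ∈ (Ico 1 (4 * X)).filter (fun m' => m' ≠ m)), G H m (nn v) := by
    intro m _
    refine rep_sum hr (fun m' hm' => ?_) (fun m' => G H m m')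
    rw [mem_filter, mem_Ico] at hm'
    omega
  rw [sum_congr rfl fun m hm => by rw [e1 m hm]]
  rw [rep_sum hr (N := N) (fun m hm => by rw [mem_Ico] at hm; omega)
    (fun m => ∑ v ∈ (bx N).filter (fun v => nn v ∈ (Ico 1 (4 * X)).filter (fun m' => m' ≠ m)), G H m (nn v))]
  -- to pairs
  have e2 : ∑ u ∈ (bx N).filter (fun u => nn u ∈ Ico 1 X),
      ∑ v ∈ (bx N).filter (fun v => nn v ∈ (Ico 1 (4 * X)).filter (fun m' => m' ≠ nn u)), G H (nn u) (nn v) ≤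
      ∑ s ∈ bx (2 * N), ∑ t ∈ (bx (2 * N)).filter (fun t => s.1 * t.1 + s.2 * t.2 ≠ 0), ph (x / H) (s.1 * t.1 + s.2 * t.2) := by
    rw [sum_sigma', sum_sigma']
    obtain ⟨i, hi⟩ : ∃ i : (Σ _ : ℤ × ℤ, ℤ × ℤ) → (Σ _ : ℤ × ℤ, ℤ × ℤ), i = fun w => ⟨w.1 - w.2, w.1 + w.2⟩ := ⟨_, rfl⟩
    have hinj : Function.Injective i := by
      intro w w' h
      rw [hi] at h
      simp only [Sigma.mk.injEq, heq_eq_eq] at h
      obtain ⟨h1, h2⟩ := h
      have a1 := congrArg Prod.fst h1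
      have a2 := congrArg Prod.snd h1
      have a3 := congrArg Prod.fst h2
      have a4 := congrArg Prod.snd h2
      simp only [Prod.fst_sub, Prod.snd_sub, Prod.fst_add, Prod.snd_add] at a1 a2 a3 a4
      obtain ⟨⟨u1, u2⟩, ⟨v1, v2⟩⟩ := w
      obtain ⟨⟨u1', u2'⟩, ⟨v1', v2'⟩⟩ := w'
      simp only at a1 a2 a3 a4
      have b1 : u1 = u1' := by omega
      have b2 : u2 = u2' := by omega
      have b3 : v1 = v1' := by omega
      have b4 : v2 = v2' := by omega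
      rw [b1, b2, b3, b4]
    have hval : ∀ w : (Σ _ : ℤ × ℤ, ℤ × ℤ), (i w).1.1 * (i w).2.1 + (i w).1.2 * (i w).2.2 = (nn w.1 : ℤ) - nn w.2 := by
      intro w
      rw [hi, nn_cast, nn_cast]
      simp only [Prod.fst_sub, Prod.snd_sub, Prod.fst_add, Prod.snd_add]
      ring
    refine le_trans (sum_le_sum (g := fun w => ph (x / H) ((i w).1.1 * (i w).2.1 + (i w).1.2 * (i w).2.2)) ?_) ?_
    · intro w hw
      rw [mem_sigma, mem_filter, mem_filter, mem_filter, mem_Ico, mem_Ico] at hw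
      rw [hval]
      apply G_near hH hx0
      · rw [hx]
        apply Real.sqrt_le_sqrt
        exact_mod_cast hw.1.2.2.le
      · have h4 : 2 * x = √(4 * (X : ℝ)) := by
          rw [hx, Real.sqrt_mul (by norm_num), show (4 : ℝ) = 2 ^ 2 by norm_num, Real.sqrt_sq (by norm_num)]
        rw [h4]
        apply Real.sqrt_le_sqrt
        exact_mod_cast hw.2.2.1.2.le
    · rw [← sum_image (f := fun w : (Σ _ : ℤ × ℤ, ℤ × ℤ) => ph (x / H) (w.1.1 * w.2.1 + w.1.2 * w.2.2)) (g := i) (fun a _ b _ h => hinj h)]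
      apply sum_le_sum_of_subset_of_nonneg _ (fun _ _ _ => ph_nonneg _ _)
      intro w' hw'
      rw [mem_image] at hw'
      obtain ⟨w, hw, rfl⟩ := hw'
      have hne := hval w
      rw [mem_sigma, mem_filter, mem_filter, mem_filter, mem_Ico, mem_Ico, mem_bx, mem_bx] at hw
      rw [mem_sigma, mem_filter, hne, mem_bx, mem_bx]
      have c1 := hw.1.1
      have c2 := hw.2.1
      have c3 := hw.2.2.2
      rw [hi]
      simp only [Prod.fst_sub, Prod.snd_sub, Prod.fst_add, Prod.snd_add]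
      rw [abs_le, abs_le] at c1 c2
      rw [abs_le, abs_le, abs_le, abs_le]
      push_cast
      refine ⟨⟨⟨?_, ?_⟩, ?_, ?_⟩, ⟨⟨?_, ?_⟩, ?_, ?_⟩, ?_⟩ <;> first | linarith [c1.1.1, c1.1.2, c1.2.1, c1.2.2, c2.1.1, c2.1.2, c2.2.1, c2.2.2] | (intro h0; apply c3; omega)
  refine e2.trans ((pair_sum (show 0 < x / H by positivity) (2 * N)).trans ?_)
  rw [← hx]
  push_cast
  have hN0 : (0 : ℝ) ≤ N := Nat.cast_nonneg N
  have e3 : (N : ℝ) ^ 2 ≤ (4 * x) ^ 2 := pow_le_pow_left₀ hN0 hN2 2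
  calc 216 * (x / H) * (2 * (N : ℝ)) ^ 2 = 864 * (x / H) * (N : ℝ) ^ 2 := by ring
    _ ≤ 864 * (x / H) * (4 * x) ^ 2 := mul_le_mul_of_nonneg_left e3 (by positivity)
    _ = 13824 * x ^ 3 / H := by ring

/-- the number of lattice points -/
lemma count (hr : Rep r) {X : ℕ} (hX : 1 ≤ X) : ∑ m ∈ Ico 1 X, r m ≤ 81 * (√(X : ℝ)) ^ 3 := by
  have hX1 : (1 : ℝ) ≤ X := by exact_mod_cast hX
  obtain ⟨x, hx⟩ : ∃ x, x = √(X : ℝ) := ⟨_, rfl⟩
  have hx1 : 1 ≤ x := by rw [hx]; exact Real.one_le_sqrt.2 hX1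
  obtain ⟨N, hN⟩ : ∃ N, N = 2 * (Nat.sqrt X + 1) := ⟨_, rfl⟩
  have hN1 : 4 * X ≤ N ^ 2 := by
    have := Nat.lt_succ_sqrt X
    rw [hN]
    have h2 : (2 * (Nat.sqrt X + 1)) ^ 2 = 4 * (Nat.succ (Nat.sqrt X) * Nat.succ (Nat.sqrt X)) := by
      rw [Nat.succ_eq_add_one]; ring
    rw [h2]
    omega
  have hN2 : (N : ℝ) ≤ 4 * x := by
    rw [hN]
    push_cast
    have : ((Nat.sqrt X : ℕ) : ℝ) ≤ x := by rw [hx]; exact Real.nat_sqrt_le_real_sqrt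
    linarith
  have e1 : ∑ m ∈ Ico 1 X, r m = ∑ m ∈ Ico 1 X, r m * 1 := by simp
  rw [e1, rep_sum hr (N := N) (fun m hm => by rw [mem_Ico] at hm; omega) (fun _ => 1), sum_const, nsmul_eq_mul, mul_one]
  have e2 : (((bx N).filter (fun u => nn u ∈ Ico 1 X)).card : ℝ) ≤ ((bx N).card : ℝ) := by
    exact_mod_cast card_le_card (filter_subset _ _)
  refine e2.trans ?_
  rw [card_bx, ← hx]
  push_cast
  have hN0 : (0 : ℝ) ≤ N := Nat.cast_nonneg N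
  have e3 : (2 * (N : ℝ) + 1) ^ 2 ≤ (9 * x) ^ 2 := pow_le_pow_left₀ (by linarith) (by linarith) 2
  have e4 : x ^ 2 ≤ x ^ 3 := pow_le_pow_right₀ hx1 (by norm_num)
  nlinarith

/-- the near diagonal sum -/
theorem T_bound (hr : Rep r) (hr0 : ∀ m, 0 ≤ r m) {D : ℝ} (hD0 : 0 ≤ D)
    (hD : ∀ S : Finset ℕ, (∀ m ∈ S, 1 ≤ m) → ∑ m ∈ S, r m * (1 / (m : ℝ) ^ 2) ≤ D)
    {H : ℝ} (hH : 1 ≤ H) {X : ℕ} (hX : 1 ≤ X) (S : Finset ℕ) (hS : ∀ m ∈ S, 1 ≤ m) :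
    ∑ m ∈ Ico 1 X, r m * ∑ m' ∈ S.filter (fun m' => m' ≠ m), r m' * G H m m' ≤
      (13824 + 81 * D) * (√(X : ℝ)) ^ 3 / H := by
  have hH0 : 0 < H := by linarith
  have h1 : ∀ m ∈ Ico 1 X, ∑ m' ∈ S.filter (fun m' => m' ≠ m), r m' * G H m m' ≤
      ∑ m' ∈ (Ico 1 (4 * X)).filter (fun m' => m' ≠ m), r m' * G H m m' + 1 / H * D := by
    intro m hm
    rw [mem_Ico] at hm
    have hsub : S.filter (fun m' => m' ≠ m) ⊆ (Ico 1 (4 * X)).filter (fun m' => m' ≠ m) ∪ S.filter (fun m' => 4 * X ≤ m') := by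
      intro m' hm'
      rw [mem_filter] at hm'
      rw [mem_union, mem_filter, mem_filter, mem_Ico]
      have := hS m' hm'.1
      by_cases h : m' < 4 * X
      · exact Or.inl ⟨⟨this, h⟩, hm'.2⟩
      · exact Or.inr ⟨hm'.1, by omega⟩
    have hnn : ∀ m', 0 ≤ r m' * G H m m' := fun m' => mul_nonneg (hr0 _) (G_nonneg _ _ _)
    refine (sum_le_sum_of_subset_of_nonneg hsub fun m' _ _ => hnn m').trans ?_
    refine (union_le _ _ _ hnn).trans ?_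
    apply add_le_add_right
    refine le_trans (sum_le_sum (g := fun m' => 1 / H * (r m' * (1 / (m' : ℝ) ^ 2))) ?_) ?_
    · intro m' hm'
      rw [mem_filter] at hm'
      have h2 := G_far hH (hS m' hm'.1) (show 4 * m ≤ m' by omega)
      calc r m' * G H m m' ≤ r m' * (1 / H * (1 / (m' : ℝ) ^ 2)) := mul_le_mul_of_nonneg_left h2 (hr0 _)
        _ = _ := by ring
    · rw [← mul_sum]
      exact mul_le_mul_of_nonneg_left (hD _ fun m' hm' => hS m' (mem_filter.1 hm').1) (by positivity)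
  refine (sum_le_sum fun m hm => mul_le_mul_of_nonneg_left (h1 m hm) (hr0 m)).trans ?_
  simp only [mul_add, sum_add_distrib]
  have h2 := near hr hH hX
  have h3 : ∑ m ∈ Ico 1 X, r m * (1 / H * D) ≤ 81 * (√(X : ℝ)) ^ 3 * (1 / H * D) := by
    rw [← sum_mul]
    exact mul_le_mul_of_nonneg_right (count hr hX) (by positivity)
  calc _ ≤ 13824 * (√(X : ℝ)) ^ 3 / H + 81 * (√(X : ℝ)) ^ 3 * (1 / H * D) := add_le_add h2 h3
    _ = _ := by ring

end Pool.Agent.H648_sw
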