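import Pool.Agent.H648_sw.Gau
import Pool.Agent.R461.GC.G6

set_option autoImplicit false

/-! The law of the error term of the circle problem in all short windows. -/

namespace Pool.Agent.H648_sw

open MeasureTheory Filter Topology Finset
open Pool.Agent.R461.GC (ch norm_ch ch_cont wt_cont pow_small sq_three U_trigS compare Adm fractal En_meas En_bdd Lam)
open Pool.Agent.H383.Gauss (Tl Tl_nonneg Tl_tendsto En)
open Pool.Agent.H383.Gen (U Bd)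
open Pool.Agent.H452R2.Win (SandW erw En_SandW)
open Pool.Agent.H383.GW (Wt wt WS WS_tail WS_low abs_wt_le)
open Pool.Agent.H383.Circ (ag ag_Bd ag_zero wg wg_Wt)

/-- **approximation in mean square in all short windows** -/
theorem tail_win : ∀ η : ℝ, 0 < η → ∃ (M₀ : ℕ) (L : ℝ), 0 < L ∧ ∀ M, M₀ ≤ M → ∃ R₀ : ℝ, ∀ R, R₀ ≤ R → ∀ H,
    L * Real.log R ≤ H → H ≤ R → ∫ x, (En x - U ag (3 * Real.pi / 4) x M) ^ 2 ∂(wm R H) ≤ η := by
  classical
  intro η hη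
  obtain ⟨φ, hφ⟩ : ∃ φ : ℝ, φ = 3 * Real.pi / 4 := ⟨_, rfl⟩
  rw [← hφ]
  have hSW : SandW En ag φ wg 2 (-2) := by rw [hφ]; exact En_SandW
  obtain ⟨Ct, hCt, htail⟩ := WS_tail (φ := φ) ag_Bd ag_zero wg_Wt
  obtain ⟨τ, hτd⟩ : ∃ τ : ℝ, τ = 1 / 200 := ⟨_, rfl⟩
  have hτ0 : 0 < τ := by rw [hτd]; norm_num
  have hτ1 : τ ≤ 1 / 200 := by rw [hτd]
  obtain ⟨C0, hC0, hS⟩ := hSW (τ / 2) (by positivity)
  obtain ⟨C1, hC1, hms1⟩ := tail_ga wg_Wt φ 2
  obtain ⟨C2, hC2, hms2⟩ := tail_ga wg_Wt φ (-2)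
  have hTl : Tendsto (fun M => 9 * (C1 + C2) * Tl M) atTop (𝓝 0) := by
    have := Tl_tendsto.const_mul (9 * (C1 + C2))
    rwa [mul_zero] at this
  obtain ⟨M₀, hM₀⟩ := Filter.eventually_atTop.1 (hTl.eventually (gt_mem_nhds (show 0 < η / 2 by linarith)))
  obtain ⟨L, hL⟩ : ∃ L : ℝ, L = 36 * (C1 + C2) / η + 2 := ⟨_, rfl⟩
  have hL0 : 0 < L := by rw [hL]; positivity
  have hL2 : 2 ≤ L := by
    rw [hL]
    have : 0 ≤ 36 * (C1 + C2) / η := by positivity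
    linarith
  have hLη : 9 * (C1 + C2) * (1 / L) ≤ η / 4 := by
    rw [mul_one_div, div_le_iff₀ hL0, hL]
    have : η / 4 * (36 * (C1 + C2) / η + 2) = 9 * (C1 + C2) + η / 2 := by field_simp; ring
    rw [this]
    linarith
  refine ⟨M₀ + 1, L, hL0, fun M hM => ?_⟩
  have hTM := hM₀ M (by omega)
  obtain ⟨K₁, hK₁, hlow₁⟩ := WS_low ag φ wg_Wt 2 M
  obtain ⟨K₂, hK₂, hlow₂⟩ := WS_low ag φ wg_Wt (-2) M
  -- the constant of the error terms
  obtain ⟨D, hD⟩ : ∃ D : ℝ, D = 2 * Ct + K₁ + K₂ + C0 * (2 ^ (1 / 2 + τ / 2) + 2) := ⟨_, rfl⟩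
  have hDpos : 0 < D := by rw [hD]; positivity
  obtain ⟨T2, hT2⟩ := pow_small τ hτ0 (show 0 < η / 4 by linarith) (3 * D ^ 2)
  obtain ⟨T3, hT3⟩ := pow_small (1 / 2 + τ) (by linarith) (show (0 : ℝ) < 1 / 2 by norm_num) 1
  obtain ⟨T5, hT5⟩ := pow_small (9 / 10) (by norm_num) (show (0 : ℝ) < 1 by norm_num) (M + 2)
  refine ⟨max (max T2 T3) (max T5 4), fun T hT H hH1 hH2 => ?_⟩
  have g2 : T2 ≤ T := le_trans (le_trans (le_max_left _ _) (le_max_left _ _)) hT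
  have g3 : T3 ≤ T := le_trans (le_trans (le_max_right _ _) (le_max_left _ _)) hT
  have g5 : T5 ≤ T := le_trans (le_trans (le_max_left _ _) (le_max_right _ _)) hT
  have g7 : 4 ≤ T := le_trans (le_trans (le_max_right _ _) (le_max_right _ _)) hT
  have g6 : 1 ≤ T := by linarith
  have hT0 : 0 < T := by linarith
  have hlogT : 1 / 2 ≤ Real.log T := by
    have e1 : Real.log 2 ≤ Real.log T := Real.log_le_log (by norm_num) (by linarith)
    have := Real.log_two_gt_d9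
    linarith
  have hH : 1 ≤ H := by nlinarith
  have hH0 : 0 < H := by linarith
  have h2 := hT2 T g2
  have h3 := hT3 T g3
  have h5 := hT5 T g5
  obtain ⟨δ, hδ⟩ : ∃ δ : ℝ, δ = T ^ (-(1 / 2 + τ)) := ⟨_, rfl⟩
  have hδ0 : 0 < δ := by rw [hδ]; positivity
  rw [one_mul, ← hδ] at h3
  obtain ⟨Y, hY⟩ : ∃ Y : ℕ, Y = ⌊T ^ (9 / 10 : ℝ)⌋₊ := ⟨_, rfl⟩
  have hT9 : (M : ℝ) + 2 ≤ T ^ (9 / 10 : ℝ) := by
    rw [Real.rpow_neg hT0.le, mul_inv_le_iff₀ (by positivity)] at h5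
    linarith
  have hY2 : T ^ (9 / 10 : ℝ) / 2 ≤ Y := by
    have e1 : T ^ (9 / 10 : ℝ) < Y + 1 := by rw [hY]; exact Nat.lt_floor_add_one _
    have e2 : (2 : ℝ) ≤ T ^ (9 / 10 : ℝ) := by linarith [(Nat.cast_nonneg M : (0 : ℝ) ≤ M)]
    linarith
  have hMY : M ≤ Y := by
    rw [hY]
    apply Nat.le_floor
    linarith
  have hY0 : (0 : ℝ) < Y := by
    have : 0 < M := by omega
    exact_mod_cast (by omega : 0 < Y)
  -- the error terms
  have k1 : Ct * δ ^ (-(3 / 2) : ℝ) * (Y : ℝ) ^ (-(24 / 25) : ℝ) ≤ 2 * Ct * T ^ (-(τ / 2)) := by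
    have e1 : (Y : ℝ) ^ (-(24 / 25) : ℝ) ≤ 2 * T ^ (-(108 / 125) : ℝ) := by
      refine (Real.rpow_le_rpow_of_nonpos (by positivity) hY2 (by norm_num)).trans ?_
      rw [div_eq_mul_inv, Real.mul_rpow (by positivity) (by norm_num), ← Real.rpow_mul hT0.le, Real.inv_rpow (by norm_num), ← Real.rpow_neg (by norm_num), neg_neg, mul_comm]
      have e2 : (9 / 10 * -(24 / 25) : ℝ) = -(108 / 125) := by norm_num
      rw [e2]
      apply mul_le_mul_of_nonneg_right _ (by positivity)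
      calc (2 : ℝ) ^ (24 / 25 : ℝ) ≤ 2 ^ (1 : ℝ) := Real.rpow_le_rpow_of_exponent_le (by norm_num) (by norm_num)
        _ = 2 := Real.rpow_one 2
    have e3 : δ ^ (-(3 / 2) : ℝ) = T ^ (3 / 4 + 3 / 2 * τ) := by
      rw [hδ, ← Real.rpow_mul hT0.le]
      congr 1
      ring
    calc Ct * δ ^ (-(3 / 2) : ℝ) * (Y : ℝ) ^ (-(24 / 25) : ℝ) ≤ Ct * T ^ (3 / 4 + 3 / 2 * τ) * (2 * T ^ (-(108 / 125) : ℝ)) := by
          rw [e3]
          exact mul_le_mul_of_nonneg_left e1 (by positivity)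
      _ = 2 * Ct * (T ^ (3 / 4 + 3 / 2 * τ) * T ^ (-(108 / 125) : ℝ)) := by ring
      _ ≤ 2 * Ct * T ^ (-(τ / 2)) := by
          apply mul_le_mul_of_nonneg_left _ (by positivity)
          rw [← Real.rpow_add hT0]
          exact Real.rpow_le_rpow_of_exponent_le g6 (by linarith)
  have k2 : δ ≤ T ^ (-(τ / 2)) := by
    rw [hδ]
    exact Real.rpow_le_rpow_of_exponent_le g6 (by linarith)
  have k3 : ∀ R : ℝ, T ≤ R → R ≤ 2 * T → erw (τ / 2) R δ ≤ (2 ^ (1 / 2 + τ / 2) + 2) * T ^ (-(τ / 2)) := by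
    intro R hR1 hR2
    have hR0 : 0 < R := by linarith
    unfold erw
    have e1 : δ * R ^ (1 / 2 + τ / 2) ≤ 2 ^ (1 / 2 + τ / 2) * T ^ (-(τ / 2)) := by
      calc δ * R ^ (1 / 2 + τ / 2) ≤ δ * (2 * T) ^ (1 / 2 + τ / 2) := by
            apply mul_le_mul_of_nonneg_left _ hδ0.le
            exact Real.rpow_le_rpow hR0.le hR2 (by linarith)
        _ = 2 ^ (1 / 2 + τ / 2) * (T ^ (-(1 / 2 + τ)) * T ^ (1 / 2 + τ / 2)) := by
            rw [Real.mul_rpow (by norm_num) hT0.le, hδ]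
            ring
        _ = 2 ^ (1 / 2 + τ / 2) * T ^ (-(τ / 2)) := by
            rw [← Real.rpow_add hT0]
            congr 2
            ring
    have e2 : R ^ (-(12 / 25) : ℝ) * δ ^ (-(13 / 25) : ℝ) ≤ T ^ (-(τ / 2)) := by
      calc R ^ (-(12 / 25) : ℝ) * δ ^ (-(13 / 25) : ℝ) ≤ T ^ (-(12 / 25) : ℝ) * δ ^ (-(13 / 25) : ℝ) := by
            apply mul_le_mul_of_nonneg_right _ (by positivity)
            exact Real.rpow_le_rpow_of_nonpos (by positivity) hR1 (by norm_num)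
        _ = T ^ (-(12 / 25) : ℝ) * T ^ (-(1 / 2 + τ) * -(13 / 25)) := by
            rw [hδ, ← Real.rpow_mul hT0.le]
        _ ≤ T ^ (-(τ / 2)) := by
            rw [← Real.rpow_add hT0]
            exact Real.rpow_le_rpow_of_exponent_le g6 (by linarith)
    have e3 : δ ^ (2 / 5 : ℝ) ≤ T ^ (-(τ / 2)) := by
      rw [hδ, ← Real.rpow_mul hT0.le]
      exact Real.rpow_le_rpow_of_exponent_le g6 (by linarith)
    linarith
  obtain ⟨t, ht⟩ : ∃ t : ℝ, t = T ^ (-(τ / 2)) := ⟨_, rfl⟩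
  rw [← ht] at k1 k2
  have ht0 : 0 < t := by rw [ht]; positivity
  have ht2 : t ^ 2 = T ^ (-τ) := by
    rw [ht, ← Real.rpow_natCast, ← Real.rpow_mul hT0.le]
    congr 1
    push_cast
    ring
  -- the two sums
  obtain ⟨A, hA⟩ : ∃ A : ℝ → ℝ → ℝ, A = fun κ x => ∑ m ∈ Ioc (M ^ 2) (Y ^ 2), wt ag φ wg (x + κ * δ) δ m := ⟨_, rfl⟩
  have hsplit : ∀ (κ Kκ : ℝ), (∀ R δ : ℝ, 0 < δ → |∑ m ∈ Icc 1 (M ^ 2), wt ag φ wg (R + κ * δ) δ m - U ag φ R M| ≤ Kκ * δ) →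
      ∀ x : ℝ, |WS ag φ wg (x + κ * δ) δ - U ag φ x M| ≤ 2 * Ct * t + Kκ * t + |A κ x| := by
    intro κ Kκ hlow x
    have e1 := htail δ hδ0 (x + κ * δ) Y (by exact_mod_cast hY0)
    have e2 := hlow x δ hδ0
    have e3 : ∑ m ∈ Icc 1 (Y ^ 2), wt ag φ wg (x + κ * δ) δ m = ∑ m ∈ Icc 1 (M ^ 2), wt ag φ wg (x + κ * δ) δ m + A κ x := by
      rw [hA]
      simp only
      rw [← sum_union]
      · congr 1
        have : M ^ 2 ≤ Y ^ 2 := Nat.pow_le_pow_left hMY 2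
        ext m
        simp only [mem_union, mem_Icc, mem_Ioc]
        omega
      · rw [disjoint_left]
        intro m hm hm'
        rw [mem_Icc] at hm
        rw [mem_Ioc] at hm'
        omega
    have e4 : WS ag φ wg (x + κ * δ) δ - U ag φ x M = (WS ag φ wg (x + κ * δ) δ - ∑ m ∈ Icc 1 (Y ^ 2), wt ag φ wg (x + κ * δ) δ m) +
        (∑ m ∈ Icc 1 (M ^ 2), wt ag φ wg (x + κ * δ) δ m - U ag φ x M) + A κ x := by
      rw [e3]; ring
    rw [e4]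
    refine (abs_add_le _ _).trans (add_le_add_left ((abs_add_le _ _).trans ?_) _)
    have e5 : 0 ≤ Kκ := by
      have := (abs_nonneg _).trans (hlow 0 1 one_pos)
      linarith
    have e6 : Kκ * δ ≤ Kκ * t := mul_le_mul_of_nonneg_left k2 e5
    linarith
  have hpt : ∀ᵐ x ∂(wm T H), (En x - U ag φ x M) ^ 2 ≤ 3 * ((A 2 x) ^ 2 + (A (-2) x) ^ 2 + (D * t) ^ 2) := by
    filter_upwards [wm_supp] with x hx
    have hR1 : T ≤ x := hx.1.le
    have hR2 : x ≤ 2 * T := by linarith [hx.2]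
    have hR4 : 4 ≤ x := by linarith
    obtain ⟨e1, e2⟩ := hS x x δ hR4 hδ0 h3 (by simp [hδ0.le])
    have e3 := hsplit 2 K₁ hlow₁ x
    have e4 := hsplit (-2) K₂ hlow₂ x
    have e5 := k3 x hR1 hR2
    rw [← ht] at e5
    have e6 : C0 * erw (τ / 2) x δ ≤ C0 * ((2 ^ (1 / 2 + τ / 2) + 2) * t) := mul_le_mul_of_nonneg_left e5 hC0.le
    have e7 := abs_le.1 e3
    have e8 := abs_le.1 e4
    have hDt : D * t = 2 * Ct * t + K₁ * t + K₂ * t + C0 * ((2 ^ (1 / 2 + τ / 2) + 2) * t) := by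
      rw [hD]; ring
    have e9 : 0 ≤ K₁ * t := by positivity
    have e10 : 0 ≤ K₂ * t := by positivity
    have e11 : |En x - U ag φ x M| ≤ |A 2 x| + |A (-2) x| + D * t := by
      rw [abs_le]
      constructor
      · have := abs_nonneg (A 2 x)
        linarith [e8.1]
      · have := abs_nonneg (A (-2) x)
        linarith [e7.2]
    have e12 : 0 ≤ D * t := by positivity
    rw [← sq_abs (En x - U ag φ x M), ← sq_abs (A 2 x), ← sq_abs (A (-2) x)]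
    have e13 := pow_le_pow_left₀ (abs_nonneg _) e11 2
    exact e13.trans (sq_three _ _ _)
  have := wm_prob T hH0
  have hcont : ∀ κ : ℝ, Continuous (fun x : ℝ => (A κ x) ^ 2) := by
    intro κ
    rw [hA]
    have h := fun m : ℕ => wt_cont ag φ wg 1 κ δ m
    simp only [one_mul] at h
    exact (continuous_finsetSum _ fun m _ => h m).pow 2
  have hbd : ∀ κ x : ℝ, (A κ x) ^ 2 ≤ (∑ m ∈ Ioc (M ^ 2) (Y ^ 2), |ag m| * ‖wg (√(m : ℝ) * δ)‖) ^ 2 := by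
    intro κ x
    rw [← sq_abs]
    apply pow_le_pow_left₀ (abs_nonneg _)
    rw [hA]
    exact (abs_sum_le_sum_abs _ _).trans (sum_le_sum fun m _ => abs_wt_le _ _ m)
  have hint : ∀ κ : ℝ, Integrable (fun x => (A κ x) ^ 2) (wm T H) := by
    intro κ
    refine Integrable.of_bound (hcont κ).aestronglyMeasurable
      ((∑ m ∈ Ioc (M ^ 2) (Y ^ 2), |ag m| * ‖wg (√(m : ℝ) * δ)‖) ^ 2) (Eventually.of_forall fun x => ?_)
    rw [Real.norm_eq_abs, abs_of_nonneg (sq_nonneg _)]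
    exact hbd κ x
  have hmain := integral_mono_of_nonneg (μ := wm T H) (f := fun x => (En x - U ag φ x M) ^ 2)
    (g := fun x => 3 * ((A 2 x) ^ 2 + (A (-2) x) ^ 2 + (D * t) ^ 2)) (Eventually.of_forall fun x => sq_nonneg _)
    ((((hint 2).add (hint (-2))).add (integrable_const _)).const_mul 3) hpt
  refine hmain.trans ?_
  have hsumint : ∫ x, 3 * ((A 2 x) ^ 2 + (A (-2) x) ^ 2 + (D * t) ^ 2) ∂(wm T H) =
      3 * (∫ x, (A 2 x) ^ 2 ∂(wm T H) + ∫ x, (A (-2) x) ^ 2 ∂(wm T H) + (D * t) ^ 2) := by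
    rw [integral_const_mul]
    congr 1
    have e1 : ∫ x, ((A 2 x) ^ 2 + (A (-2) x) ^ 2 + (D * t) ^ 2) ∂(wm T H) = ∫ x, ((A 2 x) ^ 2 + (A (-2) x) ^ 2) ∂(wm T H) + ∫ _x, (D * t) ^ 2 ∂(wm T H) :=
      integral_add ((hint 2).add (hint (-2))) (integrable_const _)
    have e2 : ∫ x, ((A 2 x) ^ 2 + (A (-2) x) ^ 2) ∂(wm T H) = ∫ x, (A 2 x) ^ 2 ∂(wm T H) + ∫ x, (A (-2) x) ^ 2 ∂(wm T H) := integral_add (hint 2) (hint (-2))
    rw [e1, e2, integral_const]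
    simp only [probReal_univ, one_smul]
  rw [hsumint]
  have hlogδ : Real.log (1 / δ) / H ≤ 1 / L := by
    have e1 : Real.log (1 / δ) ≤ Real.log T := by
      rw [one_div, Real.log_inv, hδ, Real.log_rpow hT0]
      nlinarith
    rw [div_le_div_iff₀ hH0 hL0]
    nlinarith
  have hwin : ∀ κ C : ℝ, 0 < C → (∀ x₀ H δ : ℝ, 1 ≤ H → 0 < δ → δ ≤ 1 / 2 → ∀ M Y : ℕ, 1 ≤ M →
      ∫ x, (∑ m ∈ Ioc (M ^ 2) (Y ^ 2), wt ag φ wg (x + κ * δ) δ m) ^ 2 ∂(ga x₀ H) ≤ C * (Tl M + Real.log (1 / δ) / H)) →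
      ∫ x, (A κ x) ^ 2 ∂(wm T H) ≤ 3 * (C * (Tl M + 1 / L)) := by
    intro κ C hC hms
    refine (wm_le_ga hH0 (hcont κ) (fun x => sq_nonneg _) ⟨_, hbd κ⟩).trans ?_
    apply mul_le_mul_of_nonneg_left _ (by norm_num)
    have e1 := hms (T + H / 2) H δ hH hδ0 h3 M Y (by omega)
    have e2 : ∫ x, (A κ x) ^ 2 ∂(ga (T + H / 2) H) = ∫ x, (∑ m ∈ Ioc (M ^ 2) (Y ^ 2), wt ag φ wg (x + κ * δ) δ m) ^ 2 ∂(ga (T + H / 2) H) := by
      rw [hA]
    rw [e2]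
    exact e1.trans (mul_le_mul_of_nonneg_left (by linarith) hC.le)
  have m1 := hwin 2 C1 hC1 hms1
  have m2 := hwin (-2) C2 hC2 hms2
  have e1 : 3 * (D * t) ^ 2 ≤ η / 4 := by
    rw [mul_pow, ht2]
    linarith
  linarith

end Pool.Agent.H648_sw
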