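import Pool.Agent.H648_sw.Main

set_option autoImplicit false

/-! Mixtures of windows. -/

namespace Pool.Agent.H648_sw

open MeasureTheory Filter Topology
open Pool.Agent.R461.GC (ch norm_ch ch_cont En_meas En_bdd)
open Pool.Agent.H383.Gauss (En)
open Pool.Agent.H383.Gen (U)
open Pool.Agent.H383.Circ (ag)

/-- the uniform measure on `(0, 1]` -/
noncomputable def u1 : Measure ℝ := volume.restrict (Set.Ioc 0 1)

instance : IsProbabilityMeasure u1 := by
  constructor
  unfold u1
  rw [Measure.restrict_apply MeasurableSet.univ, Set.univ_inter, Real.volume_Ioc]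
  norm_num

/-- the uniform measure on `B` -/
noncomputable def ub (B : Set ℝ) : Measure ℝ := (volume B)⁻¹ • volume.restrict B

lemma ub_prob {B : Set ℝ} (h0 : volume B ≠ 0) (h1 : volume B ≠ ⊤) : IsProbabilityMeasure (ub B) := by
  constructor
  unfold ub
  rw [Measure.smul_apply, Measure.restrict_apply MeasurableSet.univ, Set.univ_inter, smul_eq_mul, ENNReal.inv_mul_cancel h0 h1]

/-- the mixture of the windows of length `H` starting at the points of `B` -/
noncomputable def mx (B : Set ℝ) (H : ℝ) : Measure ℝ := ((ub B).prod u1).map (fun p => p.1 + p.2 * H)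

lemma mx_meas (H : ℝ) : Measurable (fun p : ℝ × ℝ => p.1 + p.2 * H) := by fun_prop

lemma mx_prob {B : Set ℝ} (h0 : volume B ≠ 0) (h1 : volume B ≠ ⊤) (H : ℝ) : IsProbabilityMeasure (mx B H) := by
  have := ub_prob h0 h1
  unfold mx
  exact Measure.isProbabilityMeasure_map (mx_meas H).aemeasurable

/-- window averages -/
lemma wm_shift {E : Type} [NormedAddCommGroup E] [NormedSpace ℝ E] {H : ℝ} (hH : 0 < H) (R : ℝ) (g : ℝ → E) :
    ∫ x, g x ∂(wm R H) = ∫ t, g (R + t * H) ∂u1 := by
  rw [wm_int R hH]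
  unfold u1
  rw [← intervalIntegral.integral_of_le (by norm_num : (0 : ℝ) ≤ 1)]
  have h1 := intervalIntegral.integral_comp_mul_add (a := 0) (b := 1) g hH.ne' R
  have h2 : ∫ t in (0 : ℝ)..1, g (R + t * H) = ∫ t in (0 : ℝ)..1, g (H * t + R) := by
    apply intervalIntegral.integral_congr
    intro t _
    simp only
    congr 1
    ring
  rw [h2, h1]
  simp only [mul_zero, zero_add, mul_one]
  rw [one_div, add_comm H R]

/-- the mixture is dominated by the Lebesgue measure -/
lemma mx_le {B : Set ℝ} {X H : ℝ} (hB : B ⊆ Set.Icc X (2 * X)) (hBm : MeasurableSet B) (hH0 : 0 < H) (hH : H ≤ X) :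
    mx B H ≤ (volume B)⁻¹ • volume.restrict (Set.Icc X (3 * X)) := by
  apply Measure.le_iff.2
  intro S hS
  by_cases h1 : volume B = ⊤
  · have : volume B ≤ volume (Set.Icc X (2 * X)) := measure_mono hB
    rw [h1, Real.volume_Icc] at this
    exact absurd this (by simp)
  by_cases h0 : volume B = 0
  · have h2 : ub B = 0 := by
      unfold ub
      rw [Measure.restrict_eq_zero.2 h0, smul_zero]
    unfold mx
    rw [h2, Measure.zero_prod, Measure.map_zero]
    simp
  have hp := ub_prob h0 h1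
  unfold mx
  rw [Measure.map_apply (mx_meas H) hS, Measure.prod_apply_symm ((mx_meas H) hS)]
  have hpt : ∀ t ∈ Set.Ioc (0 : ℝ) 1, (ub B) ((fun x => (x, t)) ⁻¹' ((fun p : ℝ × ℝ => p.1 + p.2 * H) ⁻¹' S)) ≤
      ((volume B)⁻¹ • volume.restrict (Set.Icc X (3 * X))) S := by
    intro t ht
    have hmS : MeasurableSet ((fun x => (x, t)) ⁻¹' ((fun p : ℝ × ℝ => p.1 + p.2 * H) ⁻¹' S)) :=
      measurable_prodMk_right ((mx_meas H) hS)
    unfold ub
    rw [Measure.smul_apply, Measure.smul_apply, Measure.restrict_apply hmS, Measure.restrict_apply hS]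
    apply mul_le_mul_right
    have h2 : (fun x => (x, t)) ⁻¹' ((fun p : ℝ × ℝ => p.1 + p.2 * H) ⁻¹' S) ∩ B ⊆ (fun x => x + t * H) ⁻¹' (S ∩ Set.Icc X (3 * X)) := by
      intro x hx
      have hxB := hB hx.2
      have ht1 : 0 ≤ t * H := mul_nonneg ht.1.le hH0.le
      have ht2 : t * H ≤ X := by
        calc t * H ≤ 1 * H := mul_le_mul_of_nonneg_right ht.2 hH0.le
          _ ≤ X := by linarith
      exact ⟨hx.1, by linarith [hxB.1], by linarith [hxB.2]⟩
    refine (measure_mono h2).trans (le_of_eq ?_)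
    exact measure_preimage_add_right volume (t * H) _
  calc ∫⁻ t, (ub B) ((fun x => (x, t)) ⁻¹' ((fun p : ℝ × ℝ => p.1 + p.2 * H) ⁻¹' S)) ∂u1
      ≤ ∫⁻ _t, ((volume B)⁻¹ • volume.restrict (Set.Icc X (3 * X))) S ∂u1 := by
        apply lintegral_mono_ae
        unfold u1
        filter_upwards [ae_restrict_mem measurableSet_Ioc] with t ht
        exact hpt t ht
    _ = _ := by rw [lintegral_const, measure_univ, mul_one]

lemma mx_supp {B : Set ℝ} {X H : ℝ} (hB : B ⊆ Set.Icc X (2 * X)) (hBm : MeasurableSet B) (hH0 : 0 < H) (hH : H ≤ X) :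
    ∀ᵐ x ∂(mx B H), X ≤ x ∧ x ≤ 3 * X := by
  have h1 : ∀ᵐ x ∂((volume B)⁻¹ • volume.restrict (Set.Icc X (3 * X))), X ≤ x ∧ x ≤ 3 * X := by
    apply Measure.ae_smul_measure
    exact ae_restrict_mem measurableSet_Icc
  exact (Measure.absolutelyContinuous_of_le (mx_le hB hBm hH0 hH)).ae_le h1

/-- the integral with respect to the mixture -/
lemma mx_int {E : Type} [NormedAddCommGroup E] [NormedSpace ℝ E] {B : Set ℝ} (h0 : volume B ≠ 0) (h1 : volume B ≠ ⊤) {H : ℝ} (hH0 : 0 < H)
    {g : ℝ → E} (hg : StronglyMeasurable g) {D : ℝ} (hD : ∀ᵐ x ∂(mx B H), ‖g x‖ ≤ D) :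
    ∫ x, g x ∂(mx B H) = ∫ R, (∫ x, g x ∂(wm R H)) ∂(ub B) ∧ Integrable (fun R => ∫ x, g x ∂(wm R H)) (ub B) := by
  have hp := ub_prob h0 h1
  have hgm : AEStronglyMeasurable (fun p : ℝ × ℝ => g (p.1 + p.2 * H)) ((ub B).prod u1) :=
    (hg.comp_measurable (mx_meas H)).aestronglyMeasurable
  have hint : Integrable (fun p : ℝ × ℝ => g (p.1 + p.2 * H)) ((ub B).prod u1) := by
    refine Integrable.of_bound hgm D ?_
    unfold mx at hD
    exact ae_of_ae_map (mx_meas H).aemeasurable hD
  have e1 : ∫ x, g x ∂(mx B H) = ∫ p, g (p.1 + p.2 * H) ∂((ub B).prod u1) := by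
    unfold mx
    exact integral_map (mx_meas H).aemeasurable hg.aestronglyMeasurable
  have e2 : (fun R => ∫ x, g x ∂(wm R H)) = fun R => ∫ t, g (R + t * H) ∂u1 := by
    funext R
    exact wm_shift hH0 R g
  constructor
  · rw [e1, integral_prod _ hint, e2]
  · rw [e2]
    exact hint.integral_prod_left

/-- measurability of window averages -/
lemma win_meas {H : ℝ} (hH0 : 0 < H) {g : ℝ → ℝ} (hg : Measurable g) : Measurable (fun R => ∫ x, g x ∂(wm R H)) := by
  have e2 : (fun R => ∫ x, g x ∂(wm R H)) = fun R => ∫ t, g (R + t * H) ∂u1 := by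
    funext R
    exact wm_shift hH0 R g
  rw [e2]
  have h1 : StronglyMeasurable (Function.uncurry fun R t : ℝ => g (R + t * H)) := by
    apply Measurable.stronglyMeasurable
    exact hg.comp (mx_meas H)
  exact (h1.integral_prod_right (ν := u1)).measurable

end Pool.Agent.H648_sw
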